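import Pool.Agent.H24.Magic.Inj

/-!
The array built from an arbitrary interior and the lines.
-/

set_option autoImplicit false

namespace Pool.Agent.H24.Magic

open Finset

/-- Changing the states of a line permutes its cells. -/
lemma LF_partner (P : Par) (v : Bool) (l : ℕ) (c : Lam P.K) (σ : ℕ → Bool) (p : ℕ) (hl : 8 ≤ l)
    (hp : p < l) (hδ : l % 2 = 1 → P.δ = 0) :
    ∃ p' < l, LF P v l c σ p = LF P v l c (fun _ => false) p' := by
  have h1 := len_eq l hl
  have hs := phL_le l c.1
  by_cases c1 : p < phL l c.1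
  · refine ⟨p, hp, ?_⟩
    rw [LF_eq _ _ _ _ _ _ hl hp hδ, LF_eq _ _ _ _ _ _ hl hp hδ]
    unfold lineU
    rw [if_pos c1, if_pos c1]
  by_cases c2 : phL l c.1 + 4 * na l ≤ p
  · refine ⟨p, hp, ?_⟩
    rw [LF_eq _ _ _ _ _ _ hl hp hδ, LF_eq _ _ _ _ _ _ hl hp hδ]
    unfold lineU
    rw [if_neg c1, if_pos c2, if_neg c1, if_pos c2]
  by_cases c3 : σ (p - (p - phL l c.1) % 2) = true
  · rcases Nat.mod_two_eq_zero_or_one (p - phL l c.1) with hr | hr
    · have hp1 : p + 1 < l := by omega
      refine ⟨p + 1, hp1, ?_⟩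
      rw [LF_eq _ _ _ _ _ _ hl hp hδ, LF_eq _ _ _ _ _ _ hl hp1 hδ]
      have eS : lineS l (phL l c.1) (p + 1) = lineS l (phL l c.1) p := by
        unfold lineS
        rw [if_neg c1, if_neg c2, if_neg (by omega), if_neg (by omega)]
        rw [decide_eq_decide]
        omega
      have eU : lineU P.Q P.M l (phL l c.1) (P.ρ (v, c)) (P.idx (v, c)) (lev P.m c.2.2) σ p =
          lineU P.Q P.M l (phL l c.1) (P.ρ (v, c)) (P.idx (v, c)) (lev P.m c.2.2)
            (fun _ => false) (p + 1) := by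
        unfold lineU
        rw [if_neg c1, if_neg c2, if_neg (by omega : ¬ p + 1 < phL l c.1),
          if_neg (by omega : ¬ phL l c.1 + 4 * na l ≤ p + 1), c3]
        have e1 : (p + 1 - phL l c.1) / 4 = (p - phL l c.1) / 4 := by omega
        rw [e1]
        congr 1
        simp only [Bool.xor_true, Bool.xor_false, Bool.not_eq_eq_eq_not, Bool.not_true,
          decide_eq_false_iff_not, decide_eq_true_eq]
        have : (¬ ((p - phL l c.1) % 4 = 1 ∨ (p - phL l c.1) % 4 = 2)) ↔
          ((p + 1 - phL l c.1) % 4 = 1 ∨ (p + 1 - phL l c.1) % 4 = 2) := by omega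
        simp only [this]
      rw [eS, eU]
    · have hp1 : p - 1 < l := by omega
      refine ⟨p - 1, hp1, ?_⟩
      rw [LF_eq _ _ _ _ _ _ hl hp hδ, LF_eq _ _ _ _ _ _ hl hp1 hδ]
      have eS : lineS l (phL l c.1) (p - 1) = lineS l (phL l c.1) p := by
        unfold lineS
        rw [if_neg c1, if_neg c2, if_neg (by omega), if_neg (by omega)]
        rw [decide_eq_decide]
        omega
      have eU : lineU P.Q P.M l (phL l c.1) (P.ρ (v, c)) (P.idx (v, c)) (lev P.m c.2.2) σ p =
          lineU P.Q P.M l (phL l c.1) (P.ρ (v, c)) (P.idx (v, c)) (lev P.m c.2.2)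
            (fun _ => false) (p - 1) := by
        unfold lineU
        rw [if_neg c1, if_neg c2, if_neg (by omega : ¬ p - 1 < phL l c.1),
          if_neg (by omega : ¬ phL l c.1 + 4 * na l ≤ p - 1), c3]
        have e1 : (p - 1 - phL l c.1) / 4 = (p - phL l c.1) / 4 := by omega
        rw [e1]
        congr 1
        simp only [Bool.xor_true, Bool.xor_false, Bool.not_eq_eq_eq_not, Bool.not_true,
          decide_eq_false_iff_not, decide_eq_true_eq]
        have : (¬ ((p - phL l c.1) % 4 = 1 ∨ (p - phL l c.1) % 4 = 2)) ↔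
          ((p - 1 - phL l c.1) % 4 = 1 ∨ (p - 1 - phL l c.1) % 4 = 2) := by omega
        simp only [this]
      rw [eS, eU]
  · refine ⟨p, hp, ?_⟩
    rw [LF_eq _ _ _ _ _ _ hl hp hδ, LF_eq _ _ _ _ _ _ hl hp hδ]
    unfold lineU
    have : σ (p - (p - phL l c.1) % 2) = false := by simpa using c3
    rw [this]

/-- Order of the square. -/
abbrev ordN (P : Par) (N : ℕ) : ℕ := N + 16 * P.K

lemma card_Lam (K : ℕ) : Fintype.card (Lam K) = 16 * K := by
  rw [Fintype.card_prod, Fintype.card_prod, card_Shape]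
  simp
  ring

/-- Numbering of the lines. -/
noncomputable def eL (K : ℕ) : Lam K ≃ Fin (16 * K) := Fintype.equivFinOfCardEq (card_Lam K)

/-- Rows and columns: interior ones and the ones of the lines. -/
abbrev RC (P : Par) (N : ℕ) := Fin N ⊕ Lam P.K

/-- The position of a column. -/
noncomputable def eC (P : Par) (N : ℕ) : RC P N ≃ Fin (ordN P N) :=
  (Equiv.sumCongr (Equiv.refl _) (eL P.K)).trans finSumFinEquiv

lemma eC_inl (P : Par) (N : ℕ) (i : Fin N) : (eC P N (Sum.inl i)).val = i.val := by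
  simp [eC]

lemma eC_inr (P : Par) (N : ℕ) (c : Lam P.K) : (eC P N (Sum.inr c)).val = N + (eL P.K c).val := by
  simp [eC]

/-- Lengths of the lines. -/
def lens (P : Par) (N : ℕ) (v : Bool) : ℕ := if v = true then ordN P N else N

/-- The array. -/
noncomputable def arr (P : Par) (N : ℕ) (b : Fin N × Fin N → ℤ)
    (σ : Bool → Lam P.K → ℕ → Bool) : RC P N → RC P N → ℤ
  | Sum.inl i, Sum.inl j => b (i, j)
  | Sum.inl i, Sum.inr c => LF P false N c (σ false c) i.val
  | Sum.inr c, y => LF P true (ordN P N) c (σ true c) (eC P N y).val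

/-- The assumptions on the parameters. -/
structure Good (P : Par) (N : ℕ) : Prop where
  hN : 64 * P.K + 64 ≤ N
  hδ1 : ordN P N % 2 = 1 → P.δ = 0
  hδ0 : ordN P N % 2 = 0 → P.δ = 1
  hsize : 2 * (P.Q * ordN P N + 2 ^ P.m + 11 * (P.Q * P.M)) + 2 ≤ (ordN P N) ^ 2
  hcap1 : 2 * (((ordN P N) ^ 2 : ℕ) : ℤ) + 16 * P.K * (2 * (P.Q * P.M) + 2 * P.Q) ≤
    2 * ((∑ i ∈ range P.K, lev P.m i : ℕ) : ℤ)
  hcap2 : 14 * (((ordN P N) ^ 2 : ℕ) : ℤ) ≤ 2 * ((∑ i ∈ range P.K, lev P.m i : ℕ) : ℤ)
  hmu : 2 * (8 * P.K + 1) ^ 2 + 8 * P.K + 1 ≤ ordN P N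
  hsmall : 64 * (P.K * P.Q) + 2 ≤ (ordN P N) ^ 2

lemma Good.lens_ge {P : Par} {N : ℕ} (G : Good P N) (v : Bool) : 16 ≤ lens P N v := by
  have := G.hN
  unfold lens ordN
  cases v <;> simp <;> omega

lemma Good.par {P : Par} {N : ℕ} (G : Good P N) (v : Bool) : lens P N v % 2 = 1 → P.δ = 0 := by
  intro h
  apply G.hδ1
  unfold lens ordN at *
  cases v <;> simp at h ⊢ <;> omega

/-- The doubled deviations. -/
def Dset (n : ℕ) : Finset ℤ := (range (n ^ 2)).image fun w : ℕ => 2 * (w : ℤ) - ((n : ℤ) ^ 2 - 1)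

lemma mem_Dset (n : ℕ) (x : ℤ) :
    x ∈ Dset n ↔ |x| ≤ (n : ℤ) ^ 2 - 1 ∧ (2 : ℤ) ∣ (x + ((n : ℤ) ^ 2 - 1)) := by
  unfold Dset
  rw [mem_image]
  constructor
  · rintro ⟨w, hw, rfl⟩
    rw [mem_range] at hw
    have hw' : (w : ℤ) < (n : ℤ) ^ 2 := by exact_mod_cast hw
    refine ⟨?_, ⟨w, by ring⟩⟩
    rw [abs_le]
    constructor <;> linarith
  · rintro ⟨h1, ⟨y, hy⟩⟩
    rw [abs_le] at h1
    refine ⟨y.toNat, ?_, ?_⟩
    · rw [mem_range]
      have : (y.toNat : ℤ) < (n : ℤ) ^ 2 := by omega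
      exact_mod_cast this
    · have : (y.toNat : ℤ) = y := by omega
      rw [this]
      linarith

lemma card_Dset (n : ℕ) : (Dset n).card = n ^ 2 := by
  unfold Dset
  rw [card_image_of_injective, card_range]
  intro a b hab
  have : (a : ℤ) = b := by
    dsimp only at hab
    linarith
  exact_mod_cast this

lemma sum_Dset (n : ℕ) : ∑ x ∈ Dset n, x = 0 := by
  unfold Dset
  rw [sum_image]
  · have h : ∀ m : ℕ, ∑ w ∈ range m, (2 * (w : ℤ) - ((m : ℤ) - 1)) = 0 := by
      intro m
      rw [sum_sub_distrib, ← mul_sum, sum_const, card_range, nsmul_eq_mul]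
      have := Finset.sum_range_id_mul_two m
      have h2 : (∑ w ∈ range m, (w : ℤ)) * 2 = m * ((m : ℤ) - 1) := by
        rcases Nat.eq_zero_or_pos m with rfl | hm
        · simp
        · have h3 : ((m - 1 : ℕ) : ℤ) = (m : ℤ) - 1 := by omega
          rw [← h3]
          have h4 := congrArg (fun x : ℕ => (x : ℤ)) this
          rw [Nat.cast_mul, Nat.cast_mul, Nat.cast_sum] at h4
          exact_mod_cast h4
      linarith
    have := h (n ^ 2)
    push_cast at this ⊢
    exact this
  · intro a _ b _ hab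
    have : (a : ℤ) = b := by
      dsimp only at hab
      linarith
    exact_mod_cast this

/-- Values of the lines. -/
def VS (P : Par) (N : ℕ) : Finset ℤ :=
  ((univ : Finset (Lam P.K)) ×ˢ range N).image
      (fun z => LF P false N z.1 (fun _ => false) z.2) ∪
    ((univ : Finset (Lam P.K)) ×ˢ range (ordN P N)).image
      (fun z => LF P true (ordN P N) z.1 (fun _ => false) z.2)

lemma Good.inj {P : Par} {N : ℕ} (G : Good P N) (σ : Bool → Lam P.K → ℕ → Bool)
    (v v' : Bool) (c c' : Lam P.K) (p p' : ℕ) (hp : p < lens P N v) (hp' : p' < lens P N v')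
    (h : LF P v (lens P N v) c (σ v c) p = LF P v' (lens P N v') c' (σ v' c') p') :
    v = v' ∧ c = c' ∧ p = p' :=
  LF_inj P (lens P N) (fun v => le_trans (by norm_num) (G.lens_ge v)) G.par σ v v' c c' p p'
    hp hp' h

lemma Good.LF_mem_VS {P : Par} {N : ℕ} (G : Good P N) (σ : ℕ → Bool) (v : Bool) (c : Lam P.K)
    (p : ℕ) (hp : p < lens P N v) : LF P v (lens P N v) c σ p ∈ VS P N := by
  obtain ⟨p', hp', h⟩ := LF_partner P v (lens P N v) c σ p
    (le_trans (by norm_num) (G.lens_ge v)) hp (G.par v)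
  rw [h]
  unfold VS
  cases v
  · apply mem_union_left
    rw [mem_image]
    exact ⟨(c, p'), mem_product.mpr ⟨mem_univ _, mem_range.mpr hp'⟩, rfl⟩
  · apply mem_union_right
    rw [mem_image]
    exact ⟨(c, p'), mem_product.mpr ⟨mem_univ _, mem_range.mpr hp'⟩, rfl⟩

lemma VS_disj {P : Par} {N : ℕ} (G : Good P N) :
    Disjoint (((univ : Finset (Lam P.K)) ×ˢ range N).image
      (fun z => LF P false N z.1 (fun _ => false) z.2))
    (((univ : Finset (Lam P.K)) ×ˢ range (ordN P N)).image
      (fun z => LF P true (ordN P N) z.1 (fun _ => false) z.2)) := by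
  rw [disjoint_left]
  intro x hx hx'
  rw [mem_image] at hx hx'
  obtain ⟨⟨c, p⟩, hz, rfl⟩ := hx
  obtain ⟨⟨c', p'⟩, hz', h⟩ := hx'
  rw [mem_product, mem_range] at hz hz'
  have := G.inj (fun _ _ _ => false) true false c' c p' p hz'.2 hz.2 h
  simp at this

lemma VS_injOn1 {P : Par} {N : ℕ} (G : Good P N) :
    Set.InjOn (fun z : Lam P.K × ℕ => LF P false N z.1 (fun _ => false) z.2)
      ((univ : Finset (Lam P.K)) ×ˢ range N : Finset _) := by
  rintro ⟨c, p⟩ hz ⟨c', p'⟩ hz' h
  rw [mem_coe, mem_product, mem_range] at hz hz'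
  have := G.inj (fun _ _ _ => false) false false c c' p p' hz.2 hz'.2 h
  rw [Prod.mk.injEq]
  exact this.2

lemma VS_injOn2 {P : Par} {N : ℕ} (G : Good P N) :
    Set.InjOn (fun z : Lam P.K × ℕ => LF P true (ordN P N) z.1 (fun _ => false) z.2)
      ((univ : Finset (Lam P.K)) ×ˢ range (ordN P N) : Finset _) := by
  rintro ⟨c, p⟩ hz ⟨c', p'⟩ hz' h
  rw [mem_coe, mem_product, mem_range] at hz hz'
  have := G.inj (fun _ _ _ => false) true true c c' p p' hz.2 hz'.2 h
  rw [Prod.mk.injEq]
  exact this.2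

lemma card_VS {P : Par} {N : ℕ} (G : Good P N) :
    (VS P N).card = 16 * P.K * N + 16 * P.K * ordN P N := by
  unfold VS
  rw [card_union_of_disjoint (VS_disj G), card_image_of_injOn (VS_injOn1 G),
    card_image_of_injOn (VS_injOn2 G), card_product, card_product, card_univ, card_Lam,
    card_range, card_range]

lemma sum_VS {P : Par} {N : ℕ} (G : Good P N) : ∑ x ∈ VS P N, x = 0 := by
  unfold VS
  rw [sum_union (VS_disj G), sum_image (VS_injOn1 G), sum_image (VS_injOn2 G), sum_product,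
    sum_product]
  have h1 := G.lens_ge false
  have h2 := G.lens_ge true
  simp only [sum_LF]
  have e1 : ∀ c : Lam P.K, LG P false N c (fun _ => false) N = 0 := fun c =>
    LG_end P false N (le_trans (by norm_num) h1) c _
  have e2 : ∀ c : Lam P.K, LG P true (ordN P N) c (fun _ => false) (ordN P N) = 0 := fun c =>
    LG_end P true (ordN P N) (le_trans (by norm_num) h2) c _
  simp only [e1, e2]
  simp

lemma Good.LF_mem_D {P : Par} {N : ℕ} (G : Good P N) (σ : ℕ → Bool) (v : Bool) (c : Lam P.K)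
    (p : ℕ) (hp : p < lens P N v) : LF P v (lens P N v) c σ p ∈ Dset (ordN P N) := by
  have hl : 8 ≤ lens P N v := le_trans (by norm_num) (G.lens_ge v)
  rw [LF_eq P v _ c σ p hl hp (G.par v), mem_Dset]
  have h1 := lineU_le P v _ c σ p hl hp
  set U := lineU P.Q P.M (lens P N v) (phL (lens P N v) c.1) (P.ρ (v, c)) (P.idx (v, c))
    (lev P.m c.2.2) σ p
  have h2 : lens P N v ≤ ordN P N := by
    unfold lens ordN
    cases v <;> simp
  have h3 : P.Q * lens P N v ≤ P.Q * ordN P N := Nat.mul_le_mul_left _ h2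
  have h4 := G.hsize
  have h5 := P.hδ
  have h6 : ((ordN P N : ℕ) : ℤ) ^ 2 = (((ordN P N) ^ 2 : ℕ) : ℤ) := by push_cast; rfl
  have h7 : 2 * U + 2 ≤ (ordN P N) ^ 2 := by
    calc 2 * U + 2 ≤ 2 * (P.Q * ordN P N + 2 ^ P.m + 11 * (P.Q * P.M)) + 2 := by
          have : U ≤ P.Q * ordN P N + 2 ^ P.m + 11 * (P.Q * P.M) :=
            le_trans h1 (by gcongr)
          omega
      _ ≤ _ := h4
  rw [h6]
  have h8 : |val P.δ U| ≤ (((ordN P N) ^ 2 : ℕ) : ℤ) - 1 := by
    unfold val
    rw [abs_of_nonneg (by positivity)]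
    have : (2 * (U : ℤ) + 2) ≤ (((ordN P N) ^ 2 : ℕ) : ℤ) := by exact_mod_cast h7
    have : (P.δ : ℤ) ≤ 1 := by exact_mod_cast h5
    linarith
  have hpar : (2 : ℤ) ∣ (P.δ : ℤ) + ((((ordN P N) ^ 2 : ℕ) : ℤ) - 1) := by
    rcases Nat.mod_two_eq_zero_or_one (ordN P N) with h | h
    · rw [G.hδ0 h]
      have : 2 ∣ (ordN P N) ^ 2 := Dvd.dvd.pow (Nat.dvd_of_mod_eq_zero h) (by norm_num)
      have : (2 : ℤ) ∣ (((ordN P N) ^ 2 : ℕ) : ℤ) := by exact_mod_cast this
      omega
    · rw [G.hδ1 h]
      have : (ordN P N) ^ 2 % 2 = 1 := by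
        rw [Nat.pow_mod, h]
      omega
  constructor
  · rw [abs_mul, sg_abs, one_mul]
    exact h8
  · cases (sgnL c == lineS (lens P N v) (phL (lens P N v) c.1) p)
    · simp only [sg, val, Bool.false_eq_true, if_false]
      omega
    · simp only [sg, val, if_true]
      omega

lemma VS_subset {P : Par} {N : ℕ} (G : Good P N) : VS P N ⊆ Dset (ordN P N) := by
  intro x hx
  unfold VS at hx
  rw [mem_union, mem_image, mem_image] at hx
  rcases hx with ⟨⟨c, p⟩, hz, rfl⟩ | ⟨⟨c, p⟩, hz, rfl⟩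
  · rw [mem_product, mem_range] at hz
    exact G.LF_mem_D (fun _ => false) false c p hz.2
  · rw [mem_product, mem_range] at hz
    exact G.LF_mem_D (fun _ => false) true c p hz.2

/-- Values of the interior. -/
def Wset (P : Par) (N : ℕ) : Finset ℤ := Dset (ordN P N) \ VS P N

lemma card_Wset {P : Par} {N : ℕ} (G : Good P N) : (Wset P N).card = N ^ 2 := by
  unfold Wset
  rw [card_sdiff_of_subset (VS_subset G), card_Dset, card_VS G]
  unfold ordN
  have : (N + 16 * P.K) ^ 2 = N ^ 2 + (16 * P.K * N + 16 * P.K * (N + 16 * P.K)) := by ring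
  omega

lemma sum_Wset {P : Par} {N : ℕ} (G : Good P N) : ∑ x ∈ Wset P N, x = 0 := by
  have := sum_sdiff (f := fun x : ℤ => x) (VS_subset G)
  rw [sum_VS G, sum_Dset, add_zero] at this
  exact this

lemma arr_mem {P : Par} {N : ℕ} (G : Good P N) (b : Fin N × Fin N → ℤ)
    (hb : ∀ p, b p ∈ Wset P N) (σ : Bool → Lam P.K → ℕ → Bool) (x y : RC P N) :
    arr P N b σ x y ∈ Dset (ordN P N) := by
  rcases x with i | c
  · rcases y with j | c
    · exact (mem_sdiff.mp (hb (i, j))).1
    · exact G.LF_mem_D (σ false c) false c i.val i.isLt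
  · exact G.LF_mem_D (σ true c) true c (eC P N y).val (eC P N y).isLt

lemma arr_inj {P : Par} {N : ℕ} (G : Good P N) (b : Fin N × Fin N → ℤ)
    (hb : ∀ p, b p ∈ Wset P N) (hbi : Function.Injective b) (σ : Bool → Lam P.K → ℕ → Bool)
    (x y x' y' : RC P N) (h : arr P N b σ x y = arr P N b σ x' y') : x = x' ∧ y = y' := by
  have notW : ∀ z, b z ∉ VS P N := fun z => (mem_sdiff.mp (hb z)).2
  have m1 : ∀ (i : Fin N) (c : Lam P.K), LF P false N c (σ false c) i.val ∈ VS P N := fun i c =>
    G.LF_mem_VS (σ false c) false c i.val i.isLt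
  have m2 : ∀ (y : RC P N) (c : Lam P.K),
      LF P true (ordN P N) c (σ true c) (eC P N y).val ∈ VS P N := fun y c =>
    G.LF_mem_VS (σ true c) true c (eC P N y).val (eC P N y).isLt
  rcases x with i | c
  · rcases y with j | c
    · rcases x' with i' | c'
      · rcases y' with j' | c'
        · have := hbi h
          rw [Prod.mk.injEq] at this
          exact ⟨by rw [this.1], by rw [this.2]⟩
        · exact (notW _ (by
            have : b (i, j) = LF P false N c' (σ false c') i'.val := h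
            rw [this]; exact m1 _ _)).elim
      · exact (notW _ (by
            have : b (i, j) = LF P true (ordN P N) c' (σ true c') (eC P N y').val := h
            rw [this]; exact m2 _ _)).elim
    · rcases x' with i' | c'
      · rcases y' with j' | c'
        · exact (notW _ (by
            have : b (i', j') = LF P false N c (σ false c) i.val := h.symm
            rw [this]; exact m1 _ _)).elim
        · have := G.inj σ false false c c' i.val i'.val i.isLt i'.isLt h
          exact ⟨by rw [Fin.ext this.2.2], by rw [this.2.1]⟩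
      · have := G.inj σ false true c c' i.val (eC P N y').val i.isLt (eC P N y').isLt h
        simp at this
  · rcases x' with i' | c'
    · rcases y' with j' | c'
      · exact (notW _ (by
            have : b (i', j') = LF P true (ordN P N) c (σ true c) (eC P N y).val := h.symm
            rw [this]; exact m2 _ _)).elim
      · have := G.inj σ true false c c' (eC P N y).val i'.val (eC P N y).isLt i'.isLt h
        simp at this
    · have := G.inj σ true true c c' (eC P N y).val (eC P N y').val (eC P N y).isLt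
        (eC P N y').isLt h
      exact ⟨by rw [this.2.1], (eC P N).injective (Fin.ext this.2.2)⟩

end Pool.Agent.H24.Magic
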