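import Pool.Agent.H24.Magic.Param

/-!
The asymptotic estimates.
-/

set_option autoImplicit false

namespace Pool.Agent.H24.Magic

open Finset Filter Asymptotics

lemma log_fact_ge (k : ℕ) : (k : ℝ) * Real.log k - k ≤ Real.log (k.factorial) := by
  rcases Nat.eq_zero_or_pos k with rfl | hk
  · simp
  have hk' : (0 : ℝ) < k := by exact_mod_cast hk
  have h1 := Real.pow_div_factorial_le_exp (k : ℝ) hk'.le k
  have h2 : (0 : ℝ) < k.factorial := by exact_mod_cast Nat.factorial_pos k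
  have h3 := Real.log_le_log (by positivity) h1
  rw [Real.log_exp, Real.log_div (by positivity) (by positivity), Real.log_pow] at h3
  linarith

lemma log_fact_le (k : ℕ) (hk : 1 ≤ k) :
    Real.log (k.factorial) ≤ (k : ℝ) * Real.log k - k + 1 + Real.log k := by
  induction k, hk using Nat.le_induction with
  | base => simp
  | succ k hk ih =>
    have hk' : (0 : ℝ) < k := by exact_mod_cast hk
    rw [Nat.factorial_succ, Nat.cast_mul, Real.log_mul (by positivity)
      (by exact_mod_cast (Nat.factorial_pos k).ne')]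
    have h1 := Real.one_sub_inv_le_log_of_pos (show (0 : ℝ) < ((k : ℝ) + 1) / k by positivity)
    rw [Real.log_div (by positivity) (by positivity)] at h1
    have h2 : 1 - (((k : ℝ) + 1) / k)⁻¹ = 1 / ((k : ℝ) + 1) := by
      field_simp
      ring
    rw [h2] at h1
    have h3 : 1 ≤ ((k : ℝ) + 1) * (Real.log ((k : ℝ) + 1) - Real.log k) := by
      have h4 : ((k : ℝ) + 1) * (1 / ((k : ℝ) + 1)) = 1 := by field_simp
      calc (1 : ℝ) = ((k : ℝ) + 1) * (1 / ((k : ℝ) + 1)) := h4.symm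
        _ ≤ _ := mul_le_mul_of_nonneg_left h1 (by positivity)
    push_cast
    nlinarith

theorem fact_bound {P : Par} {N : ℕ} (G : Good P N) :
    ((ordN P N) ^ 2).factorial ≤
      (ordN P N) ^ (7 * ordN P N + 64 * (ordN P N * P.K)) * (8 * numMagic (ordN P N)) := by
  have hN := G.hN
  obtain ⟨n, hn⟩ : ∃ n, n = ordN P N := ⟨_, rfl⟩
  have hn' : n = N + 16 * P.K := hn
  rw [← hn]
  have hn1 : 1 ≤ n := by omega
  have h1 := count G
  rw [← hn] at h1
  have h2 := card_le_eight n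
  have hK : 1 ≤ P.K ∨ P.K = 0 := by omega
  have hNn : N ≤ n := by omega
  have hK0 : P.K ≠ 0 := by
    intro h0
    have h3 := G.hcap2
    rw [h0] at h3
    simp at h3
    have h4 : (0 : ℤ) < ((N : ℤ) + 16 * P.K) ^ 2 := by
      have : 0 < N := by omega
      positivity
    linarith
  have hN1 : N + 1 ≤ n := by omega
  have e1 : (N * N * (N + 1)) ^ (2 * N) ≤ n ^ (6 * n) := by
    have e2 : N * N * (N + 1) ≤ n ^ 3 := by
      calc N * N * (N + 1) ≤ n * n * n := Nat.mul_le_mul (Nat.mul_le_mul hNn hNn) hN1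
        _ = n ^ 3 := by ring
    calc (N * N * (N + 1)) ^ (2 * N) ≤ (n ^ 3) ^ (2 * N) := Nat.pow_le_pow_left e2 _
      _ = n ^ (6 * N) := by rw [← pow_mul]; congr 1; ring
      _ ≤ n ^ (6 * n) := Nat.pow_le_pow_right hn1 (by omega)
  have e3 : n.factorial ≤ n ^ n := Nat.factorial_le_pow n
  have e4 : (N ^ 2).factorial ≤ n ^ (7 * n) * (8 * numMagic n) := by
    calc (N ^ 2).factorial ≤ (N * N * (N + 1)) ^ (2 * N) *
          (n.factorial * Nat.card (MagicSquare n)) := h1
      _ ≤ n ^ (6 * n) * (n ^ n * (8 * numMagic n)) :=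
          Nat.mul_le_mul e1 (Nat.mul_le_mul e3 h2)
      _ = n ^ (7 * n) * (8 * numMagic n) := by
          rw [← mul_assoc, ← pow_add]
          congr 2
          ring
  have hle : N ^ 2 ≤ n ^ 2 := Nat.pow_le_pow_left hNn 2
  have e5 : (n ^ 2).factorial ≤ (N ^ 2).factorial * n ^ (64 * (n * P.K)) := by
    have f1 : n ^ 2 - (n ^ 2 - N ^ 2) = N ^ 2 := by omega
    have f2 := Nat.factorial_mul_descFactorial (n := n ^ 2) (k := n ^ 2 - N ^ 2) (by omega)
    rw [f1] at f2
    rw [← f2]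
    apply Nat.mul_le_mul_left
    have f3 : n ^ 2 - N ^ 2 ≤ 32 * (n * P.K) := by
      have : n ^ 2 = N ^ 2 + 16 * P.K * (N + n) := by
        rw [hn']
        ring
      have : 16 * P.K * (N + n) ≤ 16 * P.K * (2 * n) := Nat.mul_le_mul_left _ (by omega)
      have : 16 * P.K * (2 * n) = 32 * (n * P.K) := by ring
      omega
    calc (n ^ 2).descFactorial (n ^ 2 - N ^ 2) ≤ (n ^ 2) ^ (n ^ 2 - N ^ 2) :=
          Nat.descFactorial_le_pow _ _
      _ ≤ (n ^ 2) ^ (32 * (n * P.K)) := Nat.pow_le_pow_right (Nat.one_le_pow _ _ hn1) f3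
      _ = n ^ (64 * (n * P.K)) := by rw [← pow_mul]; congr 1; ring
  calc (n ^ 2).factorial ≤ (N ^ 2).factorial * n ^ (64 * (n * P.K)) := e5
    _ ≤ (n ^ (7 * n) * (8 * numMagic n)) * n ^ (64 * (n * P.K)) := Nat.mul_le_mul_right _ e4
    _ = n ^ (7 * n + 64 * (n * P.K)) * (8 * numMagic n) := by
        rw [pow_add]
        ring

lemma exists_good (n : ℕ) (hn : 3 ≤ n)
    (hbig : 1048576 * (515 * Real.log n) ^ 2 ≤ n) :
    ∃ (P : Par) (N : ℕ), (P.K : ℝ) ≤ 515 * Real.log n ∧ ordN P N = n ∧ Good P N := by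
  have hn' : (3 : ℝ) ≤ n := by exact_mod_cast hn
  have hlog1 : 1 ≤ Real.log n := by
    have h1 : Real.exp 1 ≤ n := le_trans (le_of_lt (lt_trans Real.exp_one_lt_d9 (by norm_num))) hn'
    have := Real.log_le_log (Real.exp_pos 1) h1
    rwa [Real.log_exp] at this
  -- `n` is large
  have hnbig : 16 ≤ n := by
    have h1 : (1048576 : ℝ) ≤ 1048576 * (515 * Real.log n) ^ 2 := by nlinarith
    have h2 : (16 : ℝ) ≤ n := by linarith
    exact_mod_cast h2
  have hne : n ^ 2 / 16 ≠ 0 := by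
    have : 16 ≤ n ^ 2 := by nlinarith
    omega
  set m := Nat.log 2 (n ^ 2 / 16) with hm
  have hm1 : 2 ^ m ≤ n ^ 2 / 16 := Nat.pow_log_le_self 2 hne
  have hm2 : n ^ 2 / 16 < 2 ^ (m + 1) := Nat.lt_pow_succ_log_self (by norm_num) _
  have hmlog : (m : ℝ) ≤ 3 * Real.log n := by
    have h1 : 2 ^ m ≤ n ^ 2 := le_trans hm1 (Nat.div_le_self _ _)
    have h2 : (2 : ℝ) ^ m ≤ (n : ℝ) ^ 2 := by exact_mod_cast h1
    have h3 := Real.log_le_log (by positivity) h2
    rw [Real.log_pow, Real.log_pow] at h3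
    have h4 := Real.log_two_gt_d9
    push_cast at h3
    have h5 : (m : ℝ) * 0.69 ≤ m * Real.log 2 :=
      mul_le_mul_of_nonneg_left (by linarith) (by positivity)
    nlinarith
  have hK : ((m + 512 : ℕ) : ℝ) ≤ 515 * Real.log n := by
    push_cast
    linarith
  have hb : 1048576 * (m + 512) ^ 2 ≤ n := by
    have h1 : (1048576 * ((m + 512 : ℕ) : ℝ) ^ 2) ≤ 1048576 * (515 * Real.log n) ^ 2 := by
      gcongr
    have h2 := h1.trans hbig
    exact_mod_cast h2
  obtain ⟨P, N, h1, h2, h3⟩ := exists_par n m (m + 512) rfl hm1 hm2 hb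
  refine ⟨P, N, ?_, h2, h3⟩
  rw [h1]
  exact hK

theorem lower (n : ℕ) (hn : 3 ≤ n) (hbig : 1048576 * (515 * Real.log n) ^ 2 ≤ n) :
    0 < numMagic n ∧
    2 * (n : ℝ) ^ 2 * Real.log n - (n : ℝ) ^ 2 - 33000 * n * (Real.log n) ^ 2 ≤
      Real.log (numMagic n) := by
  obtain ⟨P, N, hK, hord, G⟩ := exists_good n hn hbig
  have h1 := fact_bound G
  rw [hord] at h1
  have hpos : 0 < numMagic n := by
    rcases Nat.eq_zero_or_pos (numMagic n) with h0 | h0
    · rw [h0] at h1
      have := Nat.factorial_pos (n ^ 2)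
      simp at h1
      omega
    · exact h0
  refine ⟨hpos, ?_⟩
  have hn' : (3 : ℝ) ≤ n := by exact_mod_cast hn
  have hlog1 : 1 ≤ Real.log n := by
    have h1 : Real.exp 1 ≤ n := le_trans (le_of_lt (lt_trans Real.exp_one_lt_d9 (by norm_num))) hn'
    have := Real.log_le_log (Real.exp_pos 1) h1
    rwa [Real.log_exp] at this
  have hn0 : (0 : ℝ) < n := by linarith
  have hM0 : (0 : ℝ) < numMagic n := by exact_mod_cast hpos
  have h2 : (((n ^ 2).factorial : ℕ) : ℝ) ≤
      (n : ℝ) ^ (7 * n + 64 * (n * P.K)) * (8 * numMagic n) := by exact_mod_cast h1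
  have h3 := Real.log_le_log (by exact_mod_cast Nat.factorial_pos _) h2
  rw [Real.log_mul (by positivity) (by positivity), Real.log_pow,
    Real.log_mul (by positivity) (by positivity)] at h3
  have h4 := log_fact_ge (n ^ 2)
  have h5 : Real.log ((n ^ 2 : ℕ) : ℝ) = 2 * Real.log n := by
    push_cast
    rw [Real.log_pow]
    push_cast
    ring
  rw [h5] at h4
  push_cast at h3 h4
  have h8 : Real.log 8 ≤ 3 := by
    have : (8 : ℝ) = 2 ^ 3 := by norm_num
    rw [this, Real.log_pow]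
    have := Real.log_two_lt_d9
    push_cast
    linarith
  have h6 : (64 : ℝ) * (n * P.K) * Real.log n ≤ 32960 * n * (Real.log n) ^ 2 := by
    calc (64 : ℝ) * (n * P.K) * Real.log n ≤ 64 * (n * (515 * Real.log n)) * Real.log n := by
          gcongr
      _ = 32960 * n * (Real.log n) ^ 2 := by ring
  have h7 : 7 * (n : ℝ) * Real.log n ≤ 7 * n * (Real.log n) ^ 2 := by
    have : Real.log n ≤ (Real.log n) ^ 2 := by nlinarith
    have h9 : (0 : ℝ) ≤ 7 * n := by positivity
    nlinarith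
  have h9 : (3 : ℝ) ≤ 3 * n * (Real.log n) ^ 2 := by
    have : (1 : ℝ) ≤ (Real.log n) ^ 2 := by nlinarith
    nlinarith
  nlinarith

theorem upper (n : ℕ) (hn : 60 ≤ n) (hpos : 0 < numMagic n) :
    Real.log (numMagic n) ≤
      2 * (n : ℝ) ^ 2 * Real.log n - (n : ℝ) ^ 2 - (1 / 4) * n * Real.log n := by
  obtain ⟨m, rfl⟩ : ∃ m, n = m + 1 := ⟨n - 1, by omega⟩
  have h1 := card_mul_le m
  have h2 := numMagic_le (m + 1)
  have h3 : numMagic (m + 1) * (m + 1).factorial ≤ ((m + 1) ^ 2).factorial :=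
    le_trans (Nat.mul_le_mul_right _ h2) h1
  obtain ⟨n, hn0⟩ : ∃ n, n = m + 1 := ⟨_, rfl⟩
  rw [← hn0] at h3 hn hpos ⊢
  have hn' : (60 : ℝ) ≤ n := by exact_mod_cast hn
  have hM0 : (0 : ℝ) < numMagic n := by exact_mod_cast hpos
  have hf0 : (0 : ℝ) < n.factorial := by exact_mod_cast Nat.factorial_pos n
  have h4 : ((numMagic n : ℕ) : ℝ) * (n.factorial : ℕ) ≤ (((n ^ 2).factorial : ℕ) : ℝ) := by
    exact_mod_cast h3
  have h5 := Real.log_le_log (by positivity) h4
  rw [Real.log_mul (by positivity) (by positivity)] at h5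
  have h6 := log_fact_le (n ^ 2) (by nlinarith)
  have h7 := log_fact_ge n
  have h8 : Real.log ((n ^ 2 : ℕ) : ℝ) = 2 * Real.log n := by
    push_cast
    rw [Real.log_pow]
    push_cast
    ring
  rw [h8] at h6
  push_cast at h6
  have hlog4 : 4 ≤ Real.log n := by
    have e1 : Real.exp 4 ≤ n := by
      have e2 : Real.exp 4 = (Real.exp 1) ^ 4 := by
        rw [← Real.exp_nat_mul]
        norm_num
      rw [e2]
      have e3 := Real.exp_one_lt_d9
      have e4 : (Real.exp 1) ^ 4 ≤ (2.72 : ℝ) ^ 4 :=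
        pow_le_pow_left₀ (Real.exp_pos 1).le (by linarith) 4
      have e5 : (2.72 : ℝ) ^ 4 ≤ 60 := by norm_num
      linarith
    have := Real.log_le_log (Real.exp_pos 4) e1
    rwa [Real.log_exp] at this
  have hlogn : Real.log n ≤ n - 1 := Real.log_le_sub_one_of_pos (by linarith)
  nlinarith

theorem main_asymptotic :
    ∃ c C : ℝ, 0 < c ∧ 0 < C ∧ ∀ᶠ n : ℕ in atTop,
      2 * (n : ℝ) ^ 2 * Real.log n - (n : ℝ) ^ 2 - C * (n * (Real.log n) ^ 2) ≤
        Real.log (numMagic n) ∧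
      Real.log (numMagic n) ≤
        2 * (n : ℝ) ^ 2 * Real.log n - (n : ℝ) ^ 2 - c * (n * Real.log n) := by
  refine ⟨1 / 4, 33000, by norm_num, by norm_num, ?_⟩
  have h1 : ∀ᶠ x : ℝ in atTop, ‖(Real.log x) ^ 2‖ ≤ (1 / (1048576 * 515 ^ 2)) * ‖id x‖ :=
    (Real.isLittleO_pow_log_id_atTop (n := 2)).bound (by norm_num)
  have h2 := (tendsto_natCast_atTop_atTop (R := ℝ)).eventually h1
  filter_upwards [h2, eventually_ge_atTop 60] with n hn1 hn2
  have hn0 : (0 : ℝ) ≤ n := by positivity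
  rw [Real.norm_of_nonneg (by positivity), Real.norm_of_nonneg (by simp)] at hn1
  simp only [id] at hn1
  have hbig : 1048576 * (515 * Real.log n) ^ 2 ≤ n := by
    have : (1048576 * 515 ^ 2 : ℝ) * (Real.log n) ^ 2 ≤
        (1048576 * 515 ^ 2 : ℝ) * ((1 / (1048576 * 515 ^ 2)) * n) :=
      mul_le_mul_of_nonneg_left hn1 (by norm_num)
    have e : (1048576 * 515 ^ 2 : ℝ) * ((1 / (1048576 * 515 ^ 2)) * n) = n := by
      field_simp
    rw [e] at this
    nlinarith
  obtain ⟨hpos, hlow⟩ := lower n (by omega) hbig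
  have hup := upper n hn2 hpos
  constructor
  · linarith
  · linarith

end Pool.Agent.H24.Magic
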