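import Mathlib

/-!
Magic squares, and the number of magic squares up to rotations and reflections.
-/

set_option autoImplicit false

namespace Pool.Agent.H24.Magic

open Finset

/-- `A` is a magic square of order `n`: its entries are the integers `1, ..., n ^ 2`, each used
exactly once, and all row sums, all column sums and the sums along both main diagonals are
equal. -/
structure IsMagicSquare (n : ℕ) (A : Fin n → Fin n → ℕ) : Prop where
  range : ∀ i j, 1 ≤ A i j ∧ A i j ≤ n ^ 2
  once : ∀ v, 1 ≤ v → v ≤ n ^ 2 → ∃! p : Fin n × Fin n, A p.1 p.2 = v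
  sums : ∃ S : ℕ, (∀ i, ∑ j, A i j = S) ∧ (∀ j, ∑ i, A i j = S) ∧
    ∑ i, A i i = S ∧ ∑ i, A i i.rev = S

/-- The type of magic squares of order `n`. -/
def MagicSquare (n : ℕ) : Type := {A : Fin n → Fin n → ℕ // IsMagicSquare n A}

/-- Rotation of an array by a right angle. -/
def rotate {n : ℕ} (A : Fin n → Fin n → ℕ) : Fin n → Fin n → ℕ := fun i j => A j.rev i

/-- Reflection of an array in the main diagonal. -/
def reflect {n : ℕ} (A : Fin n → Fin n → ℕ) : Fin n → Fin n → ℕ := fun i j => A j i

/-- The number `M(n)` of magic squares of order `n`, when two squares obtained from each other by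
rotations and reflections are counted once: the number of classes of the equivalence relation
generated by the rotation by a right angle and the reflection in the main diagonal. -/
noncomputable def numMagic (n : ℕ) : ℕ :=
  Nat.card (Quot fun A B : MagicSquare n => B.1 = rotate A.1 ∨ B.1 = reflect A.1)

/-! ### orbits -/

/-- Reverse or not. -/
def rv {n : ℕ} (a : Bool) (i : Fin n) : Fin n := if a = true then i.rev else i

/-- The eight symmetries. -/
def Tr {n : ℕ} (t : Bool × Bool × Bool) (A : Fin n → Fin n → ℕ) : Fin n → Fin n → ℕ :=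
  fun i j => if t.2.2 = true then A (rv t.2.1 j) (rv t.1 i) else A (rv t.1 i) (rv t.2.1 j)

lemma rev_rv {n : ℕ} (a : Bool) (i : Fin n) : (rv a i).rev = rv (!a) i := by
  cases a <;> simp [rv]

lemma Tr_rotate {n : ℕ} (a b : Bool) (A : Fin n → Fin n → ℕ) :
    Tr (a, b, false) (rotate A) = Tr (a, !b, true) A ∧
    Tr (a, b, true) (rotate A) = Tr (!a, b, false) A := by
  constructor
  · funext i j
    simp only [Tr, rotate, Bool.false_eq_true, if_false, if_true, rev_rv]
  · funext i j
    simp only [Tr, rotate, Bool.false_eq_true, if_false, if_true, rev_rv]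

lemma Tr_reflect {n : ℕ} (a b : Bool) (A : Fin n → Fin n → ℕ) :
    Tr (a, b, false) (reflect A) = Tr (a, b, true) A ∧
    Tr (a, b, true) (reflect A) = Tr (a, b, false) A := by
  constructor
  · funext i j
    simp only [Tr, reflect, Bool.false_eq_true, if_false, if_true]
  · funext i j
    simp only [Tr, reflect, Bool.false_eq_true, if_false, if_true]

/-- The orbit of a square. -/
def orb {n : ℕ} (A : Fin n → Fin n → ℕ) : Set (Fin n → Fin n → ℕ) := Set.range fun t => Tr t A

lemma orb_rotate {n : ℕ} (A : Fin n → Fin n → ℕ) : orb (rotate A) = orb A := by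
  ext X
  unfold orb
  simp only [Set.mem_range]
  constructor
  · rintro ⟨⟨a, b, c⟩, rfl⟩
    cases c
    · exact ⟨(a, !b, true), (Tr_rotate a b A).1.symm⟩
    · exact ⟨(!a, b, false), (Tr_rotate a b A).2.symm⟩
  · rintro ⟨⟨a, b, c⟩, rfl⟩
    cases c
    · refine ⟨(!a, b, true), ?_⟩
      rw [(Tr_rotate (!a) b A).2, Bool.not_not]
    · refine ⟨(a, !b, false), ?_⟩
      rw [(Tr_rotate a (!b) A).1, Bool.not_not]

lemma orb_reflect {n : ℕ} (A : Fin n → Fin n → ℕ) : orb (reflect A) = orb A := by
  ext X
  unfold orb
  simp only [Set.mem_range]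
  constructor
  · rintro ⟨⟨a, b, c⟩, rfl⟩
    cases c
    · exact ⟨(a, b, true), (Tr_reflect a b A).1.symm⟩
    · exact ⟨(a, b, false), (Tr_reflect a b A).2.symm⟩
  · rintro ⟨⟨a, b, c⟩, rfl⟩
    cases c
    · exact ⟨(a, b, true), (Tr_reflect a b A).2⟩
    · exact ⟨(a, b, false), (Tr_reflect a b A).1⟩

lemma self_mem_orb {n : ℕ} (A : Fin n → Fin n → ℕ) : A ∈ orb A :=
  ⟨(false, false, false), by funext i j; simp [Tr, rv]⟩

lemma mk_eq {n : ℕ} (A B : MagicSquare n)
    (h : Quot.mk (fun A B : MagicSquare n => B.1 = rotate A.1 ∨ B.1 = reflect A.1) A =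
      Quot.mk _ B) : B.1 ∈ orb A.1 := by
  have key : ∀ A B : MagicSquare n, (B.1 = rotate A.1 ∨ B.1 = reflect A.1) →
      orb A.1 = orb B.1 := by
    rintro A B (h | h)
    · rw [h, orb_rotate]
    · rw [h, orb_reflect]
  have := congrArg (Quot.lift (fun A : MagicSquare n => orb A.1) key) h
  dsimp only at this
  rw [this]
  exact self_mem_orb _

instance finite_magicSquare (n : ℕ) : Finite (MagicSquare n) := by
  have : Function.Injective (fun (A : MagicSquare n) (i j : Fin n) =>
      (⟨A.1 i j, by have := (A.2.range i j).2; omega⟩ : Fin (n ^ 2 + 1))) := by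
    intro A B h
    apply Subtype.ext
    funext i j
    have := congrFun (congrFun h i) j
    exact congrArg Fin.val this
  exact Finite.of_injective _ this

lemma card_le_eight (n : ℕ) : Nat.card (MagicSquare n) ≤ 8 * numMagic n := by
  classical
  unfold numMagic
  have hex : ∀ A : MagicSquare n, ∃ t, Tr t
      (Quot.out (Quot.mk (fun A B : MagicSquare n => B.1 = rotate A.1 ∨ B.1 = reflect A.1) A)).1 =
      A.1 := by
    intro A
    have := mk_eq (Quot.out (Quot.mk (fun A B : MagicSquare n =>
      B.1 = rotate A.1 ∨ B.1 = reflect A.1) A)) A (Quot.out_eq _)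
    exact this
  choose t ht using hex
  have hinj : Function.Injective (fun A : MagicSquare n =>
      (Quot.mk (fun A B : MagicSquare n => B.1 = rotate A.1 ∨ B.1 = reflect A.1) A, t A)) := by
    intro A B h
    simp only [Prod.mk.injEq] at h
    apply Subtype.ext
    rw [← ht A, ← ht B, h.1, h.2]
  have := Nat.card_le_card_of_injective _ hinj
  rw [Nat.card_prod, Nat.card_eq_fintype_card (α := Bool × Bool × Bool)] at this
  simp at this
  linarith

lemma numMagic_le (n : ℕ) : numMagic n ≤ Nat.card (MagicSquare n) := by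
  unfold numMagic
  exact Nat.card_le_card_of_surjective _ Quot.mk_surjective

/-! ### the trivial upper bound -/

lemma sum_all {n : ℕ} (A : Fin n → Fin n → ℕ) (h : IsMagicSquare n A) :
    ∑ i, ∑ j, A i j = ∑ v ∈ Icc 1 (n ^ 2), v := by
  rw [← Fintype.sum_prod_type' (fun i j => A i j)]
  apply sum_nbij (fun p : Fin n × Fin n => A p.1 p.2)
  · intro p _
    rw [mem_Icc]
    exact h.range _ _
  · intro p _ q _ hpq
    obtain ⟨r, _, hr⟩ := h.once (A p.1 p.2) (h.range _ _).1 (h.range _ _).2
    rw [hr p rfl, hr q hpq.symm]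
  · intro v hv
    rw [mem_coe, mem_Icc] at hv
    obtain ⟨r, hr, _⟩ := h.once v hv.1 hv.2
    exact ⟨r, mem_coe.mpr (mem_univ _), hr⟩
  · intro p _
    rfl

lemma card_mul_le (m : ℕ) :
    Nat.card (MagicSquare (m + 1)) * (m + 1).factorial ≤ ((m + 1) ^ 2).factorial := by
  classical
  set n := m + 1 with hn
  have hb : ∀ (A : MagicSquare n) (p : Fin n × Fin m),
      A.1 p.1 p.2.castSucc - 1 < n ^ 2 := by
    intro A p
    have := A.2.range p.1 p.2.castSucc
    omega
  set F : MagicSquare n → (Fin n × Fin m ↪ Fin (n ^ 2)) := fun A =>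
    ⟨fun p => ⟨A.1 p.1 p.2.castSucc - 1, hb A p⟩, by
      rintro ⟨i, j⟩ ⟨i', j'⟩ h
      have h0 := congrArg Fin.val h
      dsimp only at h0
      have h1 := A.2.range i j.castSucc
      have h2 := A.2.range i' j'.castSucc
      have h3 : A.1 i j.castSucc = A.1 i' j'.castSucc := by omega
      obtain ⟨r, _, hr⟩ := A.2.once _ h1.1 h1.2
      have h4 := hr (i, j.castSucc) rfl
      have h5 := hr (i', j'.castSucc) h3.symm
      have h6 := h4.trans h5.symm
      simp only [Prod.mk.injEq, Fin.castSucc_inj] at h6
      exact Prod.ext h6.1 h6.2⟩ with hF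
  have hinj : Function.Injective F := by
    intro A B h
    obtain ⟨S, hS, _⟩ := A.2.sums
    obtain ⟨S', hS', _⟩ := B.2.sums
    have hSS : S = S' := by
      have h1 := sum_all A.1 A.2
      have h2 := sum_all B.1 B.2
      simp only [hS] at h1
      simp only [hS'] at h2
      rw [← h2] at h1
      simp only [sum_const, card_univ, Fintype.card_fin, smul_eq_mul] at h1
      exact Nat.eq_of_mul_eq_mul_left (by omega) h1
    have hent : ∀ i (j : Fin m), A.1 i j.castSucc = B.1 i j.castSucc := by
      intro i j
      have h1 := congrArg (fun f : Fin n × Fin m ↪ Fin (n ^ 2) => (f (i, j)).val) h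
      simp only [hF, Function.Embedding.coeFn_mk] at h1
      have h2 := A.2.range i j.castSucc
      have h3 := B.2.range i j.castSucc
      omega
    apply Subtype.ext
    funext i j
    refine Fin.lastCases ?_ (fun j => hent i j) j
    have h1 := hS i
    have h2 := hS' i
    rw [Fin.sum_univ_castSucc] at h1 h2
    simp only [hent] at h1
    omega
  have h1 := Nat.card_le_card_of_injective F hinj
  rw [Nat.card_eq_fintype_card (α := Fin n × Fin m ↪ Fin (n ^ 2)), Fintype.card_embedding_eq,
    Fintype.card_prod, Fintype.card_fin, Fintype.card_fin, Fintype.card_fin] at h1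
  have h2 : n * m ≤ n ^ 2 := by
    rw [sq]
    exact Nat.mul_le_mul_left _ (by omega)
  have h3 := Nat.factorial_mul_descFactorial h2
  have h4 : n ^ 2 - n * m = n := by
    have : n ^ 2 = n * m + n := by
      rw [hn]
      ring
    omega
  rw [h4] at h3
  calc Nat.card (MagicSquare n) * n.factorial ≤ (n ^ 2).descFactorial (n * m) * n.factorial :=
        Nat.mul_le_mul_right _ h1
    _ = (n ^ 2).factorial := by rw [mul_comm, h3]

end Pool.Agent.H24.Magic
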