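import Pool.Agent.H24.Magic.Main
import Pool.Agent.H24.Magic.Defs

/-!
The counting inequality.
-/

set_option autoImplicit false

namespace Pool.Agent.H24.Magic

open Finset

/-- The entry with doubled deviation `x`. -/
def cv (n : ℕ) (x : ℤ) : ℕ := ((x + (n : ℤ) ^ 2 + 1) / 2).toNat

lemma cv_spec {n : ℕ} {x : ℤ} (hx : x ∈ Dset n) :
    1 ≤ cv n x ∧ cv n x ≤ n ^ 2 ∧ x = 2 * (cv n x : ℤ) - (n : ℤ) ^ 2 - 1 := by
  unfold Dset at hx
  rw [mem_image] at hx
  obtain ⟨w, hw, rfl⟩ := hx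
  rw [mem_range] at hw
  have e : cv n (2 * (w : ℤ) - ((n : ℤ) ^ 2 - 1)) = w + 1 := by
    unfold cv
    have : (2 * (w : ℤ) - ((n : ℤ) ^ 2 - 1) + (n : ℤ) ^ 2 + 1) / 2 = w + 1 := by
      have : 2 * (w : ℤ) - ((n : ℤ) ^ 2 - 1) + (n : ℤ) ^ 2 + 1 = (w + 1) * 2 := by ring
      rw [this]
      simp
    rw [this]
    omega
  rw [e]
  refine ⟨by omega, by omega, ?_⟩
  push_cast
  ring

lemma line_sum {n : ℕ} (g : Fin n → ℤ) (hg : ∀ i, g i ∈ Dset n) (h0 : ∑ i, g i = 0) :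
    ∑ i, cv n (g i) = n * (n ^ 2 + 1) / 2 := by
  have h1 : ∑ i, g i = 2 * ((∑ i, cv n (g i) : ℕ) : ℤ) - n * ((n : ℤ) ^ 2 + 1) := by
    have : ∑ i, g i = ∑ i, (2 * (cv n (g i) : ℤ) - ((n : ℤ) ^ 2 + 1)) := by
      refine sum_congr rfl fun i _ => ?_
      have := (cv_spec (hg i)).2.2
      linarith
    rw [this, sum_sub_distrib, ← mul_sum, sum_const, card_univ, Fintype.card_fin, nsmul_eq_mul]
    push_cast
    ring
  rw [h0] at h1
  have h2 : 2 * (∑ i, cv n (g i)) = n * (n ^ 2 + 1) := by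
    have : ((2 * (∑ i, cv n (g i)) : ℕ) : ℤ) = ((n * (n ^ 2 + 1) : ℕ) : ℤ) := by
      push_cast at h1 ⊢
      linarith
    exact_mod_cast this
  omega

lemma toMagic {n : ℕ} (A : Fin n → Fin n → ℤ) (h : ZMagic n A) :
    IsMagicSquare n (fun i j => cv n (A i j)) := by
  obtain ⟨h1, h2, h3, h4, h5, h6⟩ := h
  have hinj : Function.Injective (fun p : Fin n × Fin n => cv n (A p.1 p.2)) := by
    rintro ⟨i, j⟩ ⟨i', j'⟩ hpq
    dsimp only at hpq
    have e1 := (cv_spec (h1 i j)).2.2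
    have e2 := (cv_spec (h1 i' j')).2.2
    rw [hpq, ← e2] at e1
    obtain ⟨k1, k2⟩ := h2 _ _ _ _ e1
    rw [k1, k2]
  have himg : univ.image (fun p : Fin n × Fin n => cv n (A p.1 p.2)) = Icc 1 (n ^ 2) := by
    apply eq_of_subset_of_card_le
    · intro x hx
      rw [mem_image] at hx
      obtain ⟨p, _, rfl⟩ := hx
      rw [mem_Icc]
      exact ⟨(cv_spec (h1 _ _)).1, (cv_spec (h1 _ _)).2.1⟩
    · rw [card_image_of_injective _ hinj, card_univ, Fintype.card_prod, Fintype.card_fin,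
        Nat.card_Icc]
      simp [sq]
  refine ⟨fun i j => ⟨(cv_spec (h1 _ _)).1, (cv_spec (h1 _ _)).2.1⟩, ?_, ?_⟩
  · intro v hv1 hv2
    have hv : v ∈ univ.image (fun p : Fin n × Fin n => cv n (A p.1 p.2)) := by
      rw [himg, mem_Icc]
      exact ⟨hv1, hv2⟩
    rw [mem_image] at hv
    obtain ⟨p, _, hp⟩ := hv
    exact ⟨p, hp, fun q hq => hinj (hq.trans hp.symm)⟩
  · refine ⟨n * (n ^ 2 + 1) / 2, ?_, ?_, ?_, ?_⟩
    · intro i
      exact line_sum _ (fun j => h1 _ _) (h3 i)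
    · intro j
      exact line_sum _ (fun i => h1 _ _) (h4 j)
    · exact line_sum _ (fun i => h1 _ _) h5
    · exact line_sum _ (fun i => h1 _ _) h6

theorem count {P : Par} {N : ℕ} (G : Good P N) :
    (N ^ 2).factorial ≤ (N * N * (N + 1)) ^ (2 * N) *
      ((ordN P N).factorial * Nat.card (MagicSquare (ordN P N))) := by
  classical
  have hc : Fintype.card (Fin N × Fin N) = Fintype.card {x // x ∈ Wset P N} := by
    rw [Fintype.card_coe, card_Wset G, Fintype.card_prod, Fintype.card_fin, sq]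
  have e0 : (Fin N × Fin N) ≃ {x // x ∈ Wset P N} := Fintype.equivOfCardEq hc
  have hex : ∀ e : (Fin N × Fin N) ≃ {x // x ∈ Wset P N}, ∃ τ : {τ // τ ∈ balOps N},
      ∃ π : Fin (ordN P N) ≃ RC P N, ∃ σ : Bool → Lam P.K → ℕ → Bool,
      ZMagic (ordN P N)
        (fun i j => arr P N ((fun p => (e p).1) ∘ τ.1) σ (π i) ((eC P N).symm j)) := by
    intro e
    obtain ⟨τ, hτ, π, σ, h⟩ := main_exists G (fun p => (e p).1) (fun p => (e p).2)
      (fun p q hpq => e.injective (Subtype.ext hpq))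
    exact ⟨⟨τ, hτ⟩, π, σ, h⟩
  choose τ π σ hZ using hex
  set F : ((Fin N × Fin N) ≃ {x // x ∈ Wset P N}) →
      {τ // τ ∈ balOps N} × (Fin (ordN P N) ≃ RC P N) × MagicSquare (ordN P N) :=
    fun e => (τ e, π e, ⟨_, toMagic _ (hZ e)⟩) with hF
  have hinj : Function.Injective F := by
    intro e e' h
    simp only [hF, Prod.mk.injEq, Subtype.mk.injEq] at h
    obtain ⟨h1, h2, h3⟩ := h
    apply Equiv.ext
    intro p
    apply Subtype.ext
    set q := (τ e).1.symm p with hq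
    have h3' : (fun i j => cv (ordN P N)
        (arr P N ((fun p => (e p).1) ∘ (τ e).1) (σ e) (π e i) ((eC P N).symm j))) =
      (fun i j => cv (ordN P N)
        (arr P N ((fun p => (e' p).1) ∘ (τ e').1) (σ e') (π e' i) ((eC P N).symm j))) :=
      congrArg Subtype.val h3
    have h4 := congrFun (congrFun h3' ((π e).symm (Sum.inl q.1))) (eC P N (Sum.inl q.2))
    have k1 := (cv_spec ((hZ e).1 ((π e).symm (Sum.inl q.1)) (eC P N (Sum.inl q.2)))).2.2
    have k2 := (cv_spec ((hZ e').1 ((π e).symm (Sum.inl q.1)) (eC P N (Sum.inl q.2)))).2.2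
    dsimp only at h4 k1 k2
    rw [← h4, ← k1, ← h2, Equiv.apply_symm_apply, Equiv.symm_apply_apply] at k2
    have e1 : (τ e).1 (q.1, q.2) = p := by
      rw [hq]
      exact Equiv.apply_symm_apply _ _
    have e2 : arr P N ((fun p => (e p).1) ∘ (τ e).1) (σ e) (Sum.inl q.1) (Sum.inl q.2) =
        (e p).1 := by
      have : arr P N ((fun p => (e p).1) ∘ (τ e).1) (σ e) (Sum.inl q.1) (Sum.inl q.2) =
        (e ((τ e).1 (q.1, q.2))).1 := rfl
      rw [this, e1]
    have e3 : arr P N ((fun p => (e' p).1) ∘ (τ e').1) (σ e') (Sum.inl q.1) (Sum.inl q.2) =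
        (e' p).1 := by
      have : arr P N ((fun p => (e' p).1) ∘ (τ e').1) (σ e') (Sum.inl q.1) (Sum.inl q.2) =
        (e' ((τ e').1 (q.1, q.2))).1 := rfl
      rw [this, ← h1, e1]
    rw [e2, e3] at k2
    exact k2.symm
  have hcard := Nat.card_le_card_of_injective F hinj
  rw [Nat.card_prod, Nat.card_prod, Nat.card_eq_fintype_card, Nat.card_eq_fintype_card,
    Nat.card_eq_fintype_card, Fintype.card_equiv e0, Fintype.card_equiv (eC P N).symm,
    Fintype.card_coe, Fintype.card_prod, Fintype.card_fin, Fintype.card_fin, ← sq] at hcard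
  exact le_trans hcard (Nat.mul_le_mul_right _ (card_balOps N))

end Pool.Agent.H24.Magic
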