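import Mathlib

/-!
Choosing a permutation of the rows such that both diagonal sums are small.
-/

set_option autoImplicit false

namespace Pool.Agent.H24.Magic

open Finset

/-- Transversal sum. -/
def tsum {ι : Type} [Fintype ι] (Q : ι → ι → ℤ) (ψ : Equiv.Perm ι) : ℤ := ∑ p, Q (ψ p) p

lemma tsum_swap {ι : Type} [Fintype ι] [DecidableEq ι] (Q : ι → ι → ℤ) (ψ : Equiv.Perm ι)
    (p p' : ι) : tsum Q (ψ * Equiv.swap p p') - tsum Q ψ =
      Q (ψ p') p + Q (ψ p) p' - Q (ψ p) p - Q (ψ p') p' := by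
  unfold tsum
  rcases eq_or_ne p p' with rfl | hne
  · simp
  · rw [← sum_sub_distrib, sum_eq_add p p' hne]
    · simp only [Equiv.Perm.mul_apply, Equiv.swap_apply_left, Equiv.swap_apply_right]
      ring
    · intro c _ hc
      simp only [Equiv.Perm.mul_apply]
      rw [Equiv.swap_apply_of_ne_of_ne hc.1 hc.2]
      ring
    · simp
    · simp

lemma sum_tsum_swap {ι : Type} [Fintype ι] [DecidableEq ι] (Q : ι → ι → ℤ)
    (ψ : Equiv.Perm ι) :
    ∑ p, ∑ p', (tsum Q (ψ * Equiv.swap p p') - tsum Q ψ) =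
      2 * (∑ x, ∑ y, Q x y) - 2 * (Fintype.card ι * tsum Q ψ) := by
  simp only [tsum_swap]
  simp only [sum_sub_distrib, sum_add_distrib, sum_const, card_univ, nsmul_eq_mul]
  have e1 : ∑ p, ∑ p', Q (ψ p') p = ∑ x, ∑ y, Q x y := by
    rw [sum_comm]
    exact Equiv.sum_comp ψ (fun x => ∑ y, Q x y)
  have e2 : ∑ p, ∑ p', Q (ψ p) p' = ∑ x, ∑ y, Q x y :=
    Equiv.sum_comp ψ (fun x => ∑ y, Q x y)
  rw [e1, e2]
  unfold tsum
  rw [← mul_sum]
  ring

lemma exists_tsum {ι : Type} [Fintype ι] [DecidableEq ι] (Q : ι → ι → ℤ) (q : ℤ)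
    (hq : ∀ x y, |Q x y| ≤ q) :
    ∃ ψ : Equiv.Perm ι, |Fintype.card ι * tsum Q ψ - ∑ x, ∑ y, Q x y| ≤
      Fintype.card ι * (4 * q) := by
  obtain ⟨ψ, hψ⟩ := Finite.exists_min
    (fun ψ : Equiv.Perm ι => |Fintype.card ι * tsum Q ψ - ∑ x, ∑ y, Q x y|)
  refine ⟨ψ, ?_⟩
  by_contra hcon
  push Not at hcon
  have hd : ∀ p p', |tsum Q (ψ * Equiv.swap p p') - tsum Q ψ| ≤ 4 * q := by
    intro p p'
    rw [tsum_swap]
    have h1 := abs_le.mp (hq (ψ p') p)
    have h2 := abs_le.mp (hq (ψ p) p')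
    have h3 := abs_le.mp (hq (ψ p) p)
    have h4 := abs_le.mp (hq (ψ p') p')
    rw [abs_le]
    constructor <;> linarith [h1.1, h1.2, h2.1, h2.2, h3.1, h3.2, h4.1, h4.2]
  have hs := sum_tsum_swap Q ψ
  set T := ∑ x, ∑ y, Q x y with hT
  set μ : ℤ := (Fintype.card ι : ℤ) with hμ
  have hμ0 : 0 ≤ μ := by positivity
  rcases eq_or_lt_of_le hμ0 with hμ1 | hμ1
  · have : IsEmpty ι := by
      rw [← Fintype.card_eq_zero_iff]
      omega
    have e1 : T = 0 := by rw [hT]; simp
    rw [← hμ1, e1] at hcon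
    simp at hcon
  · rcases lt_or_ge 0 (μ * tsum Q ψ - T) with hpos | hneg
    · rw [abs_of_pos hpos] at hcon
      have : ∃ p p', tsum Q (ψ * Equiv.swap p p') - tsum Q ψ < 0 := by
        by_contra hno
        push Not at hno
        have : 0 ≤ ∑ p, ∑ p', (tsum Q (ψ * Equiv.swap p p') - tsum Q ψ) :=
          sum_nonneg fun p _ => sum_nonneg fun p' _ => hno p p'
        linarith
      obtain ⟨p, p', hpp⟩ := this
      have h1 := hψ (ψ * Equiv.swap p p')
      have h2 := (abs_le.mp (hd p p')).1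
      rw [abs_of_pos hpos] at h1
      have h3 : μ * tsum Q (ψ * Equiv.swap p p') < μ * tsum Q ψ :=
        mul_lt_mul_of_pos_left (by linarith) hμ1
      have h4 : μ * tsum Q ψ - μ * (4 * q) ≤ μ * tsum Q (ψ * Equiv.swap p p') := by
        rw [← mul_sub]
        exact mul_le_mul_of_nonneg_left (by linarith) hμ0
      rw [abs_of_pos (by linarith)] at h1
      linarith
    · rcases eq_or_lt_of_le hneg with hz | hneg
      · rw [hz] at hcon
        simp at hcon
        have hne : Nonempty ι := by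
          rw [← Fintype.card_pos_iff]
          omega
        obtain ⟨x⟩ := hne
        have : 0 ≤ q := le_trans (abs_nonneg _) (hq x x)
        have : 0 ≤ μ * (4 * q) := by positivity
        linarith
      rw [abs_of_neg hneg] at hcon
      have : ∃ p p', 0 < tsum Q (ψ * Equiv.swap p p') - tsum Q ψ := by
        by_contra hno
        push Not at hno
        have : ∑ p, ∑ p', (tsum Q (ψ * Equiv.swap p p') - tsum Q ψ) ≤ 0 :=
          sum_nonpos fun p _ => sum_nonpos fun p' _ => hno p p'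
        linarith
      obtain ⟨p, p', hpp⟩ := this
      have h1 := hψ (ψ * Equiv.swap p p')
      have h2 := (abs_le.mp (hd p p')).2
      rw [abs_of_neg hneg] at h1
      have h3 : μ * tsum Q ψ < μ * tsum Q (ψ * Equiv.swap p p') :=
        mul_lt_mul_of_pos_left (by linarith) hμ1
      have h4 : μ * tsum Q (ψ * Equiv.swap p p') ≤ μ * tsum Q ψ + μ * (4 * q) := by
        rw [← mul_add]
        exact mul_le_mul_of_nonneg_left (by linarith) hμ0
      rw [abs_of_neg (by linarith)] at h1
      linarith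

lemma exists_signs {ι : Type} [DecidableEq ι] (s : Finset ι) (δ : ι → ℤ) (B S0 : ℤ)
    (hδ : ∀ p, |δ p| ≤ B) (hS : |S0| ≤ B) :
    ∃ ε : ι → Bool, |S0 + ∑ p ∈ s, (if ε p then - δ p else δ p)| ≤ B := by
  induction s using Finset.induction_on with
  | empty => exact ⟨fun _ => false, by simpa using hS⟩
  | insert a s ha ih =>
    obtain ⟨ε, hε⟩ := ih
    have hkey : ∃ c : Bool, |S0 + ∑ p ∈ s, (if ε p then - δ p else δ p) +
        (if c then - δ a else δ a)| ≤ B := by
      have h1 := abs_le.mp (hδ a)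
      have h2 := abs_le.mp hε
      rcases le_total 0 ((S0 + ∑ p ∈ s, (if ε p then - δ p else δ p))) with h3 | h3 <;>
      rcases le_total 0 (δ a) with h4 | h4
      · refine ⟨true, ?_⟩
        simp only [if_true]
        rw [abs_le]
        constructor <;> linarith [h1.1, h1.2, h2.1, h2.2]
      · refine ⟨false, ?_⟩
        simp only [Bool.false_eq_true, if_false]
        rw [abs_le]
        constructor <;> linarith [h1.1, h1.2, h2.1, h2.2]
      · refine ⟨false, ?_⟩
        simp only [Bool.false_eq_true, if_false]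
        rw [abs_le]
        constructor <;> linarith [h1.1, h1.2, h2.1, h2.2]
      · refine ⟨true, ?_⟩
        simp only [if_true]
        rw [abs_le]
        constructor <;> linarith [h1.1, h1.2, h2.1, h2.2]
    obtain ⟨c, hc⟩ := hkey
    refine ⟨Function.update ε a c, ?_⟩
    rw [sum_insert ha, Function.update_self]
    have : ∑ p ∈ s, (if Function.update ε a c p then - δ p else δ p) =
        ∑ p ∈ s, (if ε p then - δ p else δ p) := by
      refine sum_congr rfl fun p hp => ?_
      rw [Function.update_of_ne (by rintro rfl; exact ha hp)]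
    rw [this]
    have e : S0 + ((if c = true then -δ a else δ a) + ∑ p ∈ s, if ε p = true then -δ p else δ p) =
      S0 + ∑ p ∈ s, (if ε p then - δ p else δ p) + (if c then - δ a else δ a) := by ring
    rw [e]
    exact hc

/-- The permutation of `ι × Bool` given by a permutation of `ι` and signs. -/
def signedPerm {ι : Type} (ψ : Equiv.Perm ι) (ε : ι → Bool) : Equiv.Perm (ι × Bool) where
  toFun z := (ψ z.1, xor z.2 (ε z.1))
  invFun z := (ψ.symm z.1, xor z.2 (ε (ψ.symm z.1)))
  left_inv := by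
    rintro ⟨p, b⟩
    simp
  right_inv := by
    rintro ⟨p, b⟩
    simp

theorem diag_balance {ι : Type} [Fintype ι] [DecidableEq ι] (A : ι × Bool → ι × Bool → ℤ)
    (h c0 c1 : ℤ) (hA : ∀ x y, |A x y| ≤ h) (hh : 0 ≤ h) :
    ∃ ρ : Equiv.Perm (ι × Bool),
      Fintype.card ι * |(c0 + ∑ z, A (ρ z) z) + (c1 + ∑ z : ι × Bool, A (ρ z) (z.1, !z.2))| ≤
        Fintype.card ι * (|c0 + c1| + 16 * h) + |∑ x, ∑ y, A x y| ∧
      |(c0 + ∑ z, A (ρ z) z) - (c1 + ∑ z : ι × Bool, A (ρ z) (z.1, !z.2))| ≤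
        |c0 - c1| + 4 * h := by
  set Q : ι → ι → ℤ := fun x y =>
    A (x, false) (y, false) + A (x, false) (y, true) + A (x, true) (y, false) +
      A (x, true) (y, true) with hQ
  have hQb : ∀ x y, |Q x y| ≤ 4 * h := by
    intro x y
    have h1 := abs_le.mp (hA (x, false) (y, false))
    have h2 := abs_le.mp (hA (x, false) (y, true))
    have h3 := abs_le.mp (hA (x, true) (y, false))
    have h4 := abs_le.mp (hA (x, true) (y, true))
    rw [abs_le]
    simp only [hQ]
    constructor <;> linarith [h1.1, h1.2, h2.1, h2.2, h3.1, h3.2, h4.1, h4.2]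
  obtain ⟨ψ, hψ⟩ := exists_tsum Q (4 * h) hQb
  set δ : ι → ℤ := fun p => A (ψ p, false) (p, false) + A (ψ p, true) (p, true) -
    A (ψ p, false) (p, true) - A (ψ p, true) (p, false) with hδ
  have hδb : ∀ p, |δ p| ≤ |c0 - c1| + 4 * h := by
    intro p
    have h1 := abs_le.mp (hA (ψ p, false) (p, false))
    have h2 := abs_le.mp (hA (ψ p, false) (p, true))
    have h3 := abs_le.mp (hA (ψ p, true) (p, false))
    have h4 := abs_le.mp (hA (ψ p, true) (p, true))
    have h5 := abs_nonneg (c0 - c1)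
    rw [abs_le]
    simp only [hδ]
    constructor <;> linarith [h1.1, h1.2, h2.1, h2.2, h3.1, h3.2, h4.1, h4.2]
  obtain ⟨ε, hε⟩ := exists_signs univ δ (|c0 - c1| + 4 * h) (c0 - c1) hδb (by linarith)
  refine ⟨signedPerm ψ ε, ?_, ?_⟩
  · have e1 : (∑ z, A (signedPerm ψ ε z) z) + (∑ z : ι × Bool, A (signedPerm ψ ε z) (z.1, !z.2)) =
        tsum Q ψ := by
      unfold tsum
      rw [Fintype.sum_prod_type, Fintype.sum_prod_type, ← sum_add_distrib]
      refine sum_congr rfl fun p _ => ?_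
      simp only [Fintype.sum_bool, signedPerm, Equiv.coe_fn_mk, hQ]
      cases ε p <;> simp <;> ring
    have e2 : ∑ x, ∑ y, A x y = ∑ x, ∑ y, Q x y := by
      rw [Fintype.sum_prod_type]
      refine sum_congr rfl fun x _ => ?_
      simp only [Fintype.sum_bool, Fintype.sum_prod_type, hQ]
      rw [← sum_add_distrib]
      refine sum_congr rfl fun y _ => ?_
      ring
    have e3 : (c0 + ∑ z, A (signedPerm ψ ε z) z) +
        (c1 + ∑ z : ι × Bool, A (signedPerm ψ ε z) (z.1, !z.2)) = (c0 + c1) + tsum Q ψ := by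
      rw [← e1]
      ring
    rw [e3, e2]
    set T := ∑ x, ∑ y, Q x y
    set μ : ℤ := (Fintype.card ι : ℤ) with hμ
    have hμ0 : 0 ≤ μ := by positivity
    have h1 : μ * |c0 + c1 + tsum Q ψ| ≤ μ * |c0 + c1| + μ * |tsum Q ψ| := by
      rw [← mul_add]
      exact mul_le_mul_of_nonneg_left (abs_add_le _ _) hμ0
    have h2 : μ * |tsum Q ψ| = |μ * tsum Q ψ| := by
      rw [abs_mul, abs_of_nonneg hμ0]
    have h3 : |μ * tsum Q ψ| ≤ |μ * tsum Q ψ - T| + |T| := by
      have := abs_add_le (μ * tsum Q ψ - T) T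
      simpa using this
    have h4 : μ * (4 * (4 * h)) = μ * (16 * h) := by ring
    have h5 : μ * (|c0 + c1| + 16 * h) = μ * |c0 + c1| + μ * (16 * h) := by ring
    linarith
  · have e1 : (∑ z, A (signedPerm ψ ε z) z) - (∑ z : ι × Bool, A (signedPerm ψ ε z) (z.1, !z.2)) =
        ∑ p, (if ε p then - δ p else δ p) := by
      rw [Fintype.sum_prod_type, Fintype.sum_prod_type, ← sum_sub_distrib]
      refine sum_congr rfl fun p _ => ?_
      simp only [Fintype.sum_bool, signedPerm, Equiv.coe_fn_mk, hδ]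
      cases ε p <;> simp <;> ring
    have e3 : (c0 + ∑ z, A (signedPerm ψ ε z) z) -
        (c1 + ∑ z : ι × Bool, A (signedPerm ψ ε z) (z.1, !z.2)) =
        (c0 - c1) + ∑ p, (if ε p then - δ p else δ p) := by
      rw [← e1]
      ring
    rw [e3]
    exact hε

end Pool.Agent.H24.Magic
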