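import Pool.Agent.H24.Magic.Lines2

/-!
The cells of the lines carry distinct values.
-/

set_option autoImplicit false

namespace Pool.Agent.H24.Magic

open Finset

lemma filU_inj (Q M f f' idx idx' i i' : ℕ) (hQ : 0 < Q) (hf : 4 ≤ f) (hf7 : f ≤ 7)
    (hf' : 4 ≤ f') (hf7' : f' ≤ 7) (h1 : 1 ≤ idx) (h2 : idx < M) (h1' : 1 ≤ idx')
    (h2' : idx' < M) (hi : i < f) (hi' : i' < f')
    (h : filU Q M f idx i = filU Q M f' idx' i') :
    idx = idx' ∧ (f = f' → filS f i = filS f' i' → i = i') := by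
  have canc : ∀ a b : ℕ, Q * a = Q * b → a = b := fun a b hab =>
    Nat.eq_of_mul_eq_mul_left hQ hab
  have hpair : i / 2 = 0 ∨ i / 2 = 1 ∨ i / 2 = 2 ∨ (i / 2 = 3 ∧ i = 6 ∧ f = 7) := by omega
  have hpair' : i' / 2 = 0 ∨ i' / 2 = 1 ∨ i' / 2 = 2 ∨ (i' / 2 = 3 ∧ i' = 6 ∧ f' = 7) := by
    omega
  unfold filU at h
  unfold filS
  by_cases a1 : f % 2 = 1 ∧ i + 3 = f
  · rw [if_pos a1] at h ⊢
    by_cases b1 : f' % 2 = 1 ∧ i' + 3 = f'
    · rw [if_pos b1] at h ⊢
      have := canc _ _ h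
      exact ⟨by omega, fun hff _ => by omega⟩
    rw [if_neg b1] at h ⊢
    by_cases b2 : f' % 2 = 1 ∧ i' + 2 = f'
    · rw [if_pos b2] at h ⊢
      have := canc _ _ h
      omega
    rw [if_neg b2] at h ⊢
    by_cases b3 : f' % 2 = 1 ∧ i' + 1 = f'
    · rw [if_pos b3] at h ⊢
      have := canc _ _ h
      omega
    rw [if_neg b3] at h ⊢
    have := canc _ _ h
    rcases hpair' with e | e | e | ⟨e, e', e''⟩ <;> rw [e] at this <;> omega
  rw [if_neg a1] at h ⊢
  by_cases a2 : f % 2 = 1 ∧ i + 2 = f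
  · rw [if_pos a2] at h ⊢
    by_cases b1 : f' % 2 = 1 ∧ i' + 3 = f'
    · rw [if_pos b1] at h ⊢
      have := canc _ _ h
      omega
    rw [if_neg b1] at h ⊢
    by_cases b2 : f' % 2 = 1 ∧ i' + 2 = f'
    · rw [if_pos b2] at h ⊢
      have := canc _ _ h
      exact ⟨by omega, fun hff _ => by omega⟩
    rw [if_neg b2] at h ⊢
    by_cases b3 : f' % 2 = 1 ∧ i' + 1 = f'
    · rw [if_pos b3] at h ⊢
      have := canc _ _ h
      omega
    rw [if_neg b3] at h ⊢
    have := canc _ _ h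
    rcases hpair' with e | e | e | ⟨e, e', e''⟩ <;> rw [e] at this <;> omega
  rw [if_neg a2] at h ⊢
  by_cases a3 : f % 2 = 1 ∧ i + 1 = f
  · rw [if_pos a3] at h ⊢
    by_cases b1 : f' % 2 = 1 ∧ i' + 3 = f'
    · rw [if_pos b1] at h ⊢
      have := canc _ _ h
      omega
    rw [if_neg b1] at h ⊢
    by_cases b2 : f' % 2 = 1 ∧ i' + 2 = f'
    · rw [if_pos b2] at h ⊢
      have := canc _ _ h
      omega
    rw [if_neg b2] at h ⊢
    by_cases b3 : f' % 2 = 1 ∧ i' + 1 = f'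
    · rw [if_pos b3] at h ⊢
      have := canc _ _ h
      exact ⟨by omega, fun hff _ => by omega⟩
    rw [if_neg b3] at h ⊢
    have := canc _ _ h
    rcases hpair' with e | e | e | ⟨e, e', e''⟩ <;> rw [e] at this <;> omega
  rw [if_neg a3] at h ⊢
  by_cases b1 : f' % 2 = 1 ∧ i' + 3 = f'
  · rw [if_pos b1] at h ⊢
    have := canc _ _ h
    rcases hpair with e | e | e | ⟨e, e', e''⟩ <;> rw [e] at this <;> omega
  rw [if_neg b1] at h ⊢
  by_cases b2 : f' % 2 = 1 ∧ i' + 2 = f'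
  · rw [if_pos b2] at h ⊢
    have := canc _ _ h
    rcases hpair with e | e | e | ⟨e, e', e''⟩ <;> rw [e] at this <;> omega
  rw [if_neg b2] at h ⊢
  by_cases b3 : f' % 2 = 1 ∧ i' + 1 = f'
  · rw [if_pos b3] at h ⊢
    have := canc _ _ h
    rcases hpair with e | e | e | ⟨e, e', e''⟩ <;> rw [e] at this <;> omega
  rw [if_neg b3] at h ⊢
  have := canc _ _ h
  have hmain : idx = idx' ∧ i / 2 = i' / 2 := by
    rcases hpair with e | e | e | ⟨e, e', e''⟩ <;>
    rcases hpair' with g | g | g | ⟨g, g', g''⟩ <;> rw [e, g] at this <;> omega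
  refine ⟨hmain.1, fun hff hS => ?_⟩
  have hS' : (i % 2 = 0) ↔ (i' % 2 = 0) := by
    have := congrArg (fun b : Bool => b = true) hS
    simpa using this
  omega

lemma filU_ne_zero (Q M f idx i : ℕ) (hQ : 0 < Q) (h1 : 1 ≤ idx) : filU Q M f idx i ≠ 0 := by
  unfold filU
  split_ifs <;> exact Nat.mul_ne_zero (by omega) (by omega)

lemma filU_mod (Q M f idx i : ℕ) : filU Q M f idx i % Q = 0 := by
  unfold filU
  split_ifs <;> exact Nat.mul_mod_right _ _

lemma filU_le (Q M f idx i : ℕ) (h2 : idx < M) (hf : f ≤ 7) (hi : i < f) :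
    filU Q M f idx i ≤ 11 * (Q * M) := by
  unfold filU
  have e : 11 * (Q * M) = Q * (11 * M) := by ring
  rw [e]
  split_ifs
  · exact Nat.mul_le_mul_left _ (by omega)
  · exact Nat.mul_le_mul_left _ (by omega)
  · exact Nat.mul_le_mul_left _ (by omega)
  · apply Nat.mul_le_mul_left
    have : i / 2 ≤ 3 := by omega
    have h3 : M * (i / 2) ≤ M * 3 := Nat.mul_le_mul_left _ this
    omega

lemma nf_bounds (l : ℕ) : 4 ≤ nf l ∧ nf l ≤ 7 := by
  unfold nf
  omega

/-- The filler region and the block region. -/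
lemma region (Q M l s ρ idx t : ℕ) (σ : ℕ → Bool) (p : ℕ) (hl : 8 ≤ l) (hs : s ≤ nf l)
    (hp : p < l) :
    (∃ i < nf l, lineU Q M l s ρ idx t σ p = filU Q M (nf l) idx i ∧
      lineS l s p = filS (nf l) i ∧ p = (if i < s then i else i + 4 * na l)) ∨
    (s ≤ p ∧ p < s + 4 * na l ∧
      lineU Q M l s ρ idx t σ p = Q * ((p - s) / 4) + ρ +
        (if xor (decide ((p - s) % 4 = 1 ∨ (p - s) % 4 = 2)) (σ (p - (p - s) % 2)) = true
          then t else 0) ∧
      lineS l s p = decide ((p - s) % 4 < 2)) := by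
  have h1 := len_eq l hl
  unfold lineU lineS
  by_cases c1 : p < s
  · left
    refine ⟨p, by omega, ?_, ?_, ?_⟩
    · rw [if_pos c1]
    · rw [if_pos c1]
    · rw [if_pos c1]
  · by_cases c2 : s + 4 * na l ≤ p
    · left
      refine ⟨p - 4 * na l, by omega, ?_, ?_, ?_⟩
      · rw [if_neg c1, if_pos c2]
      · rw [if_neg c1, if_pos c2]
      · rw [if_neg (by omega)]
        omega
    · right
      refine ⟨by omega, by omega, ?_, ?_⟩
      · rw [if_neg c1, if_neg c2]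
      · rw [if_neg c1, if_neg c2]

lemma Par.Q_pos (P : Par) (c : Bool × Lam P.K) : 0 < P.Q := lt_of_le_of_lt (Nat.zero_le _) (P.hρ c)

lemma block_mod (P : Par) (c : Bool × Lam P.K) (q : ℕ) (b : Bool) :
    (P.Q * q + P.ρ c + (if b = true then lev P.m c.2.2.2 else 0)) % P.Q =
      (P.ρ c + (if b = true then lev P.m c.2.2.2 else 0)) % P.Q := by
  rw [Nat.add_assoc, Nat.mul_add_mod]

lemma sg_mul_val {a b : Bool} {u w δ : ℕ} (hu : u ≠ 0) (hw : w ≠ 0)
    (h : sg a * val δ u = sg b * val δ w) : a = b ∧ u = w := by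
  have h1 : 0 < val δ u := by unfold val; omega
  have h2 : 0 < val δ w := by unfold val; omega
  cases a <;> cases b <;> simp [sg] at h ⊢
  · unfold val at h
    omega
  · linarith
  · linarith
  · unfold val at h
    omega

lemma sg_mul_sg (a b : Bool) : sg a * sg b = sg (a == b) := by
  cases a <;> cases b <;> simp [sg]

/-- The line cell as signed unit. -/
lemma LF_eq (P : Par) (v : Bool) (l : ℕ) (c : Lam P.K) (σ : ℕ → Bool) (p : ℕ) (hl : 8 ≤ l)
    (hp : p < l) (hδ : l % 2 = 1 → P.δ = 0) :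
    LF P v l c σ p = sg (sgnL c == lineS l (phL l c.1) p) *
      val P.δ (lineU P.Q P.M l (phL l c.1) (P.ρ (v, c)) (P.idx (v, c)) (lev P.m c.2.2) σ p) := by
  have := lineF_eq P.δ P.Q P.M l (phL l c.1) (P.ρ (v, c)) (P.idx (v, c)) (lev P.m c.2.2) σ p hl
    (phL_le _ _) hp hδ
  unfold LF LG
  rw [← mul_sub]
  unfold lineF at this
  rw [this, ← sg_mul_sg]
  ring

lemma lineU_ne_zero (P : Par) (v : Bool) (l : ℕ) (c : Lam P.K) (σ : ℕ → Bool) (p : ℕ)
    (hl : 8 ≤ l) (hp : p < l) :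
    lineU P.Q P.M l (phL l c.1) (P.ρ (v, c)) (P.idx (v, c)) (lev P.m c.2.2) σ p ≠ 0 := by
  rcases region P.Q P.M l (phL l c.1) (P.ρ (v, c)) (P.idx (v, c)) (lev P.m c.2.2) σ p hl
    (phL_le _ _) hp with ⟨i, _, h, _, _⟩ | ⟨_, _, h, _⟩
  · rw [h]
    exact filU_ne_zero _ _ _ _ _ (P.Q_pos (v, c)) (P.hidx _).1
  · rw [h]
    intro h0
    have := P.hres0 (v, c) (xor (decide ((p - phL l c.1) % 4 = 1 ∨ (p - phL l c.1) % 4 = 2))
      (σ (p - (p - phL l c.1) % 2)))
    apply this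
    rw [← block_mod P (v, c) ((p - phL l c.1) / 4)]
    dsimp only at h0 ⊢
    rw [h0]
    simp

lemma lineU_le (P : Par) (v : Bool) (l : ℕ) (c : Lam P.K) (σ : ℕ → Bool) (p : ℕ)
    (hl : 8 ≤ l) (hp : p < l) :
    lineU P.Q P.M l (phL l c.1) (P.ρ (v, c)) (P.idx (v, c)) (lev P.m c.2.2) σ p ≤
      P.Q * l + 2 ^ P.m + 11 * (P.Q * P.M) := by
  rcases region P.Q P.M l (phL l c.1) (P.ρ (v, c)) (P.idx (v, c)) (lev P.m c.2.2) σ p hl
    (phL_le _ _) hp with ⟨i, hi, h, _, _⟩ | ⟨_, _, h, _⟩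
  · rw [h]
    have := filU_le P.Q P.M (nf l) (P.idx (v, c)) i (P.hidx _).2 (nf_bounds l).2 hi
    exact le_trans this (Nat.le_add_left _ _)
  · rw [h]
    have h1 : P.Q * ((p - phL l c.1) / 4) + P.ρ (v, c) ≤ P.Q * l := by
      have h2 := P.hρ (v, c)
      have h3 : (p - phL l c.1) / 4 + 1 ≤ l := by omega
      have h4 : P.Q * ((p - phL l c.1) / 4 + 1) ≤ P.Q * l := Nat.mul_le_mul_left _ h3
      rw [Nat.mul_add] at h4
      omega
    have h5 : lev P.m c.2.2 ≤ 2 ^ P.m := by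
      unfold lev
      exact Nat.pow_le_pow_right (by norm_num) (min_le_right _ _)
    split_ifs <;> omega

theorem LF_inj (P : Par) (lens : Bool → ℕ) (hl : ∀ v, 8 ≤ lens v)
    (hδ : ∀ v, lens v % 2 = 1 → P.δ = 0)
    (σ : Bool → Lam P.K → ℕ → Bool) (v v' : Bool) (c c' : Lam P.K) (p p' : ℕ)
    (hp : p < lens v) (hp' : p' < lens v')
    (h : LF P v (lens v) c (σ v c) p = LF P v' (lens v') c' (σ v' c') p') :
    v = v' ∧ c = c' ∧ p = p' := by
  rw [LF_eq P v _ c _ p (hl v) hp (hδ v), LF_eq P v' _ c' _ p' (hl v') hp' (hδ v')] at h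
  obtain ⟨hS, hU⟩ := sg_mul_val (lineU_ne_zero P v _ c _ p (hl v) hp)
    (lineU_ne_zero P v' _ c' _ p' (hl v') hp') h
  have Qp : 0 < P.Q := P.Q_pos (v, c)
  rcases region P.Q P.M (lens v) (phL (lens v) c.1) (P.ρ (v, c)) (P.idx (v, c)) (lev P.m c.2.2)
    (σ v c) p (hl v) (phL_le _ _) hp with ⟨i, hi, h1, h2, h3⟩ | ⟨h1, h2, h3, h4⟩ <;>
  rcases region P.Q P.M (lens v') (phL (lens v') c'.1) (P.ρ (v', c')) (P.idx (v', c'))
    (lev P.m c'.2.2) (σ v' c') p' (hl v') (phL_le _ _) hp' with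
      ⟨i', hi', h1', h2', h3'⟩ | ⟨h1', h2', h3', h4'⟩
  · rw [h1, h1'] at hU
    obtain ⟨k1, k2⟩ := filU_inj P.Q P.M (nf (lens v)) (nf (lens v')) _ _ i i' Qp
      (nf_bounds _).1 (nf_bounds _).2 (nf_bounds _).1 (nf_bounds _).2 (P.hidx _).1 (P.hidx _).2
      (P.hidx _).1 (P.hidx _).2 hi hi' hU
    have hc := P.hinj k1
    simp only [Prod.mk.injEq] at hc
    obtain ⟨rfl, rfl⟩ := hc
    refine ⟨rfl, rfl, ?_⟩
    rw [h2, h2'] at hS
    have hS2 : filS (nf (lens v)) i = filS (nf (lens v)) i' := by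
      revert hS
      cases sgnL c <;> cases filS (nf (lens v)) i <;> cases filS (nf (lens v)) i' <;> simp
    have := k2 rfl hS2
    subst this
    rw [h3, h3']
  · exfalso
    rw [h1, h3'] at hU
    have e1 := filU_mod P.Q P.M (nf (lens v)) (P.idx (v, c)) i
    rw [hU] at e1
    have e2 := block_mod P (v', c') ((p' - phL (lens v') c'.1) / 4)
      (xor (decide ((p' - phL (lens v') c'.1) % 4 = 1 ∨ (p' - phL (lens v') c'.1) % 4 = 2))
      (σ v' c' (p' - (p' - phL (lens v') c'.1) % 2)))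
    dsimp only at e2
    rw [e1] at e2
    exact P.hres0 (v', c') _ e2.symm
  · exfalso
    rw [h3, h1'] at hU
    have e1 := filU_mod P.Q P.M (nf (lens v')) (P.idx (v', c')) i'
    rw [← hU] at e1
    have e2 := block_mod P (v, c) ((p - phL (lens v) c.1) / 4)
      (xor (decide ((p - phL (lens v) c.1) % 4 = 1 ∨ (p - phL (lens v) c.1) % 4 = 2))
      (σ v c (p - (p - phL (lens v) c.1) % 2)))
    dsimp only at e2
    rw [e1] at e2
    exact P.hres0 (v, c) _ e2.symm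
  · rw [h3, h3'] at hU
    have e1 := block_mod P (v, c) ((p - phL (lens v) c.1) / 4)
      (xor (decide ((p - phL (lens v) c.1) % 4 = 1 ∨ (p - phL (lens v) c.1) % 4 = 2))
      (σ v c (p - (p - phL (lens v) c.1) % 2)))
    have e2 := block_mod P (v', c') ((p' - phL (lens v') c'.1) / 4)
      (xor (decide ((p' - phL (lens v') c'.1) % 4 = 1 ∨ (p' - phL (lens v') c'.1) % 4 = 2))
      (σ v' c' (p' - (p' - phL (lens v') c'.1) % 2)))
    dsimp only at e1 e2
    have e3 := e1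
    rw [hU, e2] at e3
    obtain ⟨hc, hb⟩ := P.hres (v', c') (v, c) _ _ e3
    simp only [Prod.mk.injEq] at hc
    obtain ⟨rfl, rfl⟩ := hc
    refine ⟨rfl, rfl, ?_⟩
    rw [← hb] at hU
    have hq : P.Q * ((p - phL (lens v') c'.1) / 4) = P.Q * ((p' - phL (lens v') c'.1) / 4) := by
      omega
    have hq' := Nat.eq_of_mul_eq_mul_left Qp hq
    rw [h4, h4'] at hS
    have hS2 : decide ((p - phL (lens v') c'.1) % 4 < 2) =
        decide ((p' - phL (lens v') c'.1) % 4 < 2) := by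
      revert hS
      cases sgnL c' <;> cases decide ((p - phL (lens v') c'.1) % 4 < 2) <;>
        cases decide ((p' - phL (lens v') c'.1) % 4 < 2) <;> simp
    have hS3 : (p - phL (lens v') c'.1) % 4 < 2 ↔ (p' - phL (lens v') c'.1) % 4 < 2 := by
      simpa using hS2
    have he : p - (p - phL (lens v') c'.1) % 2 = p' - (p' - phL (lens v') c'.1) % 2 := by
      omega
    rw [he] at hb
    have hb2 : decide ((p - phL (lens v') c'.1) % 4 = 1 ∨ (p - phL (lens v') c'.1) % 4 = 2) =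
        decide ((p' - phL (lens v') c'.1) % 4 = 1 ∨ (p' - phL (lens v') c'.1) % 4 = 2) := by
      revert hb
      cases σ v' c' (p' - (p' - phL (lens v') c'.1) % 2) <;>
      cases decide ((p - phL (lens v') c'.1) % 4 = 1 ∨ (p - phL (lens v') c'.1) % 4 = 2) <;>
      cases decide ((p' - phL (lens v') c'.1) % 4 = 1 ∨ (p' - phL (lens v') c'.1) % 4 = 2) <;>
      simp
    have hb3 : ((p - phL (lens v') c'.1) % 4 = 1 ∨ (p - phL (lens v') c'.1) % 4 = 2) ↔
        ((p' - phL (lens v') c'.1) % 4 = 1 ∨ (p' - phL (lens v') c'.1) % 4 = 2) :=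
      decide_eq_decide.mp hb2
    omega

end Pool.Agent.H24.Magic
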