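import Mathlib

/-!
Lines: zero-sum words with many switches.
-/

set_option autoImplicit false

namespace Pool.Agent.H24.Magic

open Finset

/-- The positive value number `u` (doubled deviation from the mean). -/
def val (δ u : ℕ) : ℤ := 2 * u + δ

/-- The sign of a Boolean. -/
def sg (b : Bool) : ℤ := if b then 1 else -1

/-- Number of filler cells. -/
def nf (l : ℕ) : ℕ := 4 + l % 4

/-- Number of blocks of four cells. -/
def na (l : ℕ) : ℕ := (l - nf l) / 4

lemma len_eq (l : ℕ) (hl : 8 ≤ l) : l = 4 * na l + nf l := by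
  unfold na nf
  omega

/-- Sums of the first `i` filler cells. -/
def filG (δ Q M f idx i : ℕ) : ℤ :=
  if f ≤ i then 0
  else if f % 2 = 1 ∧ i + 2 = f then val δ (Q * (idx + 3 * M))
  else if f % 2 = 1 ∧ i + 1 = f then val δ (Q * (idx + 3 * M)) + val δ (Q * (idx + 6 * M))
  else if i % 2 = 1 then val δ (Q * (idx + M * (i / 2)))
  else 0

/-- Unit in the filler cell `i`. -/
def filU (Q M f idx i : ℕ) : ℕ :=
  if f % 2 = 1 ∧ i + 3 = f then Q * (idx + 3 * M)
  else if f % 2 = 1 ∧ i + 2 = f then Q * (idx + 6 * M)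
  else if f % 2 = 1 ∧ i + 1 = f then Q * (2 * idx + 9 * M)
  else Q * (idx + M * (i / 2))

/-- Sign of the filler cell `i`. -/
def filS (f i : ℕ) : Bool :=
  if f % 2 = 1 ∧ i + 3 = f then true
  else if f % 2 = 1 ∧ i + 2 = f then true
  else if f % 2 = 1 ∧ i + 1 = f then false
  else decide (i % 2 = 0)

lemma fil_eq (δ Q M f idx i : ℕ) (hf : 4 ≤ f) (hi : i < f) (hδ : f % 2 = 1 → δ = 0) :
    filG δ Q M f idx (i + 1) - filG δ Q M f idx i = sg (filS f i) * val δ (filU Q M f idx i) := by
  unfold filG filS filU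
  have k0 : ¬ f ≤ i := by omega
  by_cases hodd : f % 2 = 1
  · have hδ0 := hδ hodd
    subst hδ0
    by_cases h3 : i + 3 = f
    · have k1 : ¬ f ≤ i + 1 := by omega
      have k2 : i + 1 + 2 = f := by omega
      have k3 : ¬ i + 2 = f := by omega
      have k4 : ¬ i + 1 = f := by omega
      have k5 : ¬ i % 2 = 1 := by omega
      simp only [k0, k1, k2, k3, k4, k5, h3, hodd, and_self, and_false, if_true, if_false]
      simp [sg]
    · by_cases h2 : i + 2 = f
      · have k1 : ¬ f ≤ i + 1 := by omega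
        have k2 : ¬ i + 1 + 2 = f := by omega
        have k3 : i + 1 + 1 = f := by omega
        simp only [k0, k1, k2, k3, h3, h2, hodd, and_self, and_false, if_true, if_false]
        simp [sg]
      · by_cases h1 : i + 1 = f
        · have k1 : f ≤ i + 1 := by omega
          simp only [k0, k1, h3, h2, h1, hodd, and_self, and_false, if_true, if_false]
          simp only [sg, val]
          push_cast
          simp
          ring
        · have k1 : ¬ f ≤ i + 1 := by omega
          have k2 : ¬ i + 1 + 2 = f := by omega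
          have k3 : ¬ i + 1 + 1 = f := by omega
          rcases Nat.mod_two_eq_zero_or_one i with hp | hp
          · have k4 : (i + 1) % 2 = 1 := by omega
            have k5 : (i + 1) / 2 = i / 2 := by omega
            simp only [k0, k1, k2, k3, k4, k5, h3, h2, h1, hp, hodd, and_self, and_false,
              if_true, if_false]
            simp [sg]
          · have k4 : ¬ (i + 1) % 2 = 1 := by omega
            simp only [k0, k1, k2, k3, k4, h3, h2, h1, hp, hodd, and_self, and_false,
              if_true, if_false]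
            simp [sg]
  · rcases Nat.mod_two_eq_zero_or_one i with hp | hp
    · have k1 : ¬ f ≤ i + 1 := by omega
      have k4 : (i + 1) % 2 = 1 := by omega
      have k5 : (i + 1) / 2 = i / 2 := by omega
      simp only [k0, k1, k4, k5, hp, hodd, false_and, if_true, if_false]
      simp [sg]
    · have k4 : ¬ (i + 1) % 2 = 1 := by omega
      simp only [k0, k4, hp, hodd, false_and, if_true, if_false]
      simp [sg]

lemma filG_zero (δ Q M f idx : ℕ) (hf : 4 ≤ f) : filG δ Q M f idx 0 = 0 := by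
  unfold filG
  rw [if_neg (by omega), if_neg (by omega), if_neg (by omega), if_neg (by omega)]

lemma filG_end (δ Q M f idx i : ℕ) (hf : f ≤ i) : filG δ Q M f idx i = 0 := by
  unfold filG
  rw [if_pos hf]

/-- Sum of the first `p` cells of a line with length `l`, phase `s`, residue `ρ`, number `idx`,
level `t` and states `σ`. -/
def lineG (δ Q M l s ρ idx t : ℕ) (σ : ℕ → Bool) (p : ℕ) : ℤ :=
  if p ≤ s then filG δ Q M (nf l) idx p
  else if s + 4 * na l ≤ p then filG δ Q M (nf l) idx (p - 4 * na l)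
  else filG δ Q M (nf l) idx s +
    (if (p - s) % 4 = 0 then 0
     else if (p - s) % 4 = 2 then
       val δ (Q * ((p - s) / 4) + ρ) + val δ (Q * ((p - s) / 4) + ρ + t)
     else val δ (Q * ((p - s) / 4) + ρ) + (if σ (p - 1) then 2 * (t : ℤ) else 0))

/-- The cells of a line. -/
def lineF (δ Q M l s ρ idx t : ℕ) (σ : ℕ → Bool) (p : ℕ) : ℤ :=
  lineG δ Q M l s ρ idx t σ (p + 1) - lineG δ Q M l s ρ idx t σ p

lemma lineG_zero (δ Q M l s ρ idx t : ℕ) (σ : ℕ → Bool) :
    lineG δ Q M l s ρ idx t σ 0 = 0 := by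
  unfold lineG
  rw [if_pos (Nat.zero_le _)]
  exact filG_zero _ _ _ _ _ (by unfold nf; omega)

lemma lineG_end (δ Q M l s ρ idx t : ℕ) (σ : ℕ → Bool) (hl : 8 ≤ l) (hs : s ≤ nf l) :
    lineG δ Q M l s ρ idx t σ l = 0 := by
  have h1 := len_eq l hl
  have h2 : nf l ≤ 7 := by unfold nf; omega
  have h3 : 4 ≤ nf l := by unfold nf; omega
  have ha : 1 ≤ na l := by
    unfold na nf
    by_contra hcon
    have : (l - (4 + l % 4)) / 4 = 0 := by omega
    omega
  unfold lineG
  rw [if_neg (by omega), if_pos (by omega)]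
  exact filG_end _ _ _ _ _ _ (by omega)

lemma sum_lineF (δ Q M l s ρ idx t : ℕ) (σ : ℕ → Bool) (p : ℕ) :
    ∑ i ∈ range p, lineF δ Q M l s ρ idx t σ i = lineG δ Q M l s ρ idx t σ p := by
  unfold lineF
  rw [sum_range_sub, lineG_zero, sub_zero]

/-- The cut after `p` cells crosses a switch. -/
def isCut (l s p : ℕ) : Prop := s < p ∧ p < s + 4 * na l ∧ (p - s) % 2 = 1

instance (l s p : ℕ) : Decidable (isCut l s p) := by
  unfold isCut
  infer_instance

lemma lineG_state (δ Q M l s ρ idx t : ℕ) (σ : ℕ → Bool) (p : ℕ) :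
    lineG δ Q M l s ρ idx t σ p = lineG δ Q M l s ρ idx t (fun _ => false) p +
      (if isCut l s p ∧ σ (p - 1) = true then 2 * (t : ℤ) else 0) := by
  unfold lineG
  by_cases h1 : p ≤ s
  · have h0 : ¬ isCut l s p := by unfold isCut; omega
    simp only [h1, h0, false_and, if_true, if_false]
    ring
  by_cases h2 : s + 4 * na l ≤ p
  · have h0 : ¬ isCut l s p := by unfold isCut; omega
    simp only [h1, h2, h0, false_and, if_true, if_false]
    ring
  by_cases h3 : (p - s) % 4 = 0
  · have h0 : ¬ isCut l s p := by unfold isCut; omega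
    simp only [h1, h2, h3, h0, false_and, if_true, if_false]
    ring
  by_cases h4 : (p - s) % 4 = 2
  · have h0 : ¬ isCut l s p := by unfold isCut; omega
    simp only [h1, h2, h3, h4, h0, false_and, if_true, if_false]
    ring
  have h0 : isCut l s p := by unfold isCut; omega
  simp only [h1, h2, h3, h4, h0, true_and, if_false]
  cases σ (p - 1) <;> simp <;> ring

/-- Unit in the cell `p`. -/
def lineU (Q M l s ρ idx t : ℕ) (σ : ℕ → Bool) (p : ℕ) : ℕ :=
  if p < s then filU Q M (nf l) idx p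
  else if s + 4 * na l ≤ p then filU Q M (nf l) idx (p - 4 * na l)
  else Q * ((p - s) / 4) + ρ +
    (if xor (decide ((p - s) % 4 = 1 ∨ (p - s) % 4 = 2)) (σ (p - (p - s) % 2)) then t else 0)

/-- Sign of the cell `p`. -/
def lineS (l s p : ℕ) : Bool :=
  if p < s then filS (nf l) p
  else if s + 4 * na l ≤ p then filS (nf l) (p - 4 * na l)
  else decide ((p - s) % 4 < 2)

lemma lineG_right (δ Q M l s ρ idx t : ℕ) (σ : ℕ → Bool) (p : ℕ) (hp : s + 4 * na l ≤ p) :
    lineG δ Q M l s ρ idx t σ p = filG δ Q M (nf l) idx (p - 4 * na l) := by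
  unfold lineG
  by_cases h : p ≤ s
  · have h0 : na l = 0 := by omega
    rw [if_pos h, h0]
    rfl
  · rw [if_neg h, if_pos hp]

lemma lineG_left (δ Q M l s ρ idx t : ℕ) (σ : ℕ → Bool) (p : ℕ) (hp : p ≤ s) :
    lineG δ Q M l s ρ idx t σ p = filG δ Q M (nf l) idx p := by
  unfold lineG
  rw [if_pos hp]

lemma lineG_mid (δ Q M l s ρ idx t : ℕ) (σ : ℕ → Bool) (p : ℕ) (hp : s ≤ p)
    (hp' : p ≤ s + 4 * na l) :
    lineG δ Q M l s ρ idx t σ p = filG δ Q M (nf l) idx s +
    (if (p - s) % 4 = 0 then 0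
     else if (p - s) % 4 = 2 then
       val δ (Q * ((p - s) / 4) + ρ) + val δ (Q * ((p - s) / 4) + ρ + t)
     else val δ (Q * ((p - s) / 4) + ρ) + (if σ (p - 1) then 2 * (t : ℤ) else 0)) := by
  unfold lineG
  by_cases h : p ≤ s
  · have h0 : p = s := by omega
    subst h0
    simp
  · rw [if_neg h]
    by_cases h' : s + 4 * na l ≤ p
    · have h0 : (p - s) % 4 = 0 := by omega
      rw [if_pos h', if_pos h0, add_zero]
      congr 1
      omega
    · rw [if_neg h']

lemma lineF_eq (δ Q M l s ρ idx t : ℕ) (σ : ℕ → Bool) (p : ℕ) (hl : 8 ≤ l) (hs : s ≤ nf l)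
    (hp : p < l) (hδ : l % 2 = 1 → δ = 0) :
    lineF δ Q M l s ρ idx t σ p =
      sg (lineS l s p) * val δ (lineU Q M l s ρ idx t σ p) := by
  have h1 := len_eq l hl
  have h3 : 4 ≤ nf l := by unfold nf; omega
  have hδ' : nf l % 2 = 1 → δ = 0 := by
    intro h
    apply hδ
    omega
  unfold lineF lineU lineS
  by_cases c1 : p < s
  · rw [if_pos c1, if_pos c1, lineG_left _ _ _ _ _ _ _ _ _ _ (by omega),
      lineG_left _ _ _ _ _ _ _ _ _ _ (by omega)]
    exact fil_eq _ _ _ _ _ _ h3 (by omega) hδ'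
  rw [if_neg c1, if_neg c1]
  by_cases c2 : s + 4 * na l ≤ p
  · rw [if_pos c2, if_pos c2, lineG_right _ _ _ _ _ _ _ _ _ _ (by omega),
      lineG_right _ _ _ _ _ _ _ _ _ _ c2]
    have e : p + 1 - 4 * na l = (p - 4 * na l) + 1 := by omega
    rw [e]
    exact fil_eq _ _ _ _ _ _ h3 (by omega) hδ'
  rw [if_neg c2, if_neg c2, lineG_mid _ _ _ _ _ _ _ _ _ _ (by omega) (by omega),
    lineG_mid _ _ _ _ _ _ _ _ _ _ (by omega) (by omega)]
  have hr : (p - s) % 4 = 0 ∨ (p - s) % 4 = 1 ∨ (p - s) % 4 = 2 ∨ (p - s) % 4 = 3 := by omega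
  rcases hr with hr | hr | hr | hr
  · have g1 : (p + 1 - s) % 4 = 1 := by omega
    have g2 : (p + 1 - s) / 4 = (p - s) / 4 := by omega
    have g3 : (p - s) % 2 = 0 := by omega
    simp only [g1, g2, g3, hr, Nat.add_sub_cancel, Nat.sub_zero, val, sg]
    cases σ p <;> simp <;> ring
  · have g1 : (p + 1 - s) % 4 = 2 := by omega
    have g2 : (p + 1 - s) / 4 = (p - s) / 4 := by omega
    have g3 : (p - s) % 2 = 1 := by omega
    simp only [g1, g2, g3, hr, val, sg]
    cases σ (p - 1) <;> simp <;> ring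
  · have g1 : (p + 1 - s) % 4 = 3 := by omega
    have g2 : (p + 1 - s) / 4 = (p - s) / 4 := by omega
    have g3 : (p - s) % 2 = 0 := by omega
    simp only [g1, g2, g3, hr, Nat.add_sub_cancel, Nat.sub_zero, val, sg]
    cases σ p <;> simp <;> ring
  · have g1 : (p + 1 - s) % 4 = 0 := by omega
    have g3 : (p - s) % 2 = 1 := by omega
    simp only [g1, g3, hr, val, sg]
    cases σ (p - 1) <;> simp <;> ring

end Pool.Agent.H24.Magic
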