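import Pool.Agent.H24.Magic.Lines

/-!
The system of lines: residues, levels and the absorption of small prefix sums.
-/

set_option autoImplicit false

namespace Pool.Agent.H24.Magic

open Finset

/-! ### residues -/

lemma exists_residues {ι : Type} [Fintype ι] [DecidableEq ι] (Q : ℕ) [NeZero Q]
    (t : ι → ZMod Q) (ht : ∀ i, t i ≠ 0) (hQ : 4 * Fintype.card ι + 2 < Q) :
    ∃ ρ : ι → ZMod Q,
      (∀ i j b b', ρ i + (if b = true then t i else 0) = ρ j + (if b' = true then t j else 0) →
        i = j ∧ b = b') ∧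
      ∀ i b, ρ i + (if b = true then t i else 0) ≠ 0 := by
  have key : ∀ s : Finset ι, ∃ ρ : ι → ZMod Q,
      (∀ i ∈ s, ∀ j ∈ s, ∀ b b',
        ρ i + (if b = true then t i else 0) = ρ j + (if b' = true then t j else 0) →
        i = j ∧ b = b') ∧
      ∀ i ∈ s, ∀ b, ρ i + (if b = true then t i else 0) ≠ 0 := by
    intro s
    induction s using Finset.induction_on with
    | empty => exact ⟨fun _ => 0, by simp, by simp⟩
    | insert a s ha ih =>
      obtain ⟨ρ, h1, h2⟩ := ih
      set used : Finset (ZMod Q) :=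
        insert 0 ((s ×ˢ (univ : Finset Bool)).image
          fun z => ρ z.1 + (if z.2 = true then t z.1 else 0)) with hused
      have hcard : used.card ≤ 2 * s.card + 1 := by
        rw [hused]
        refine le_trans (card_insert_le _ _) ?_
        have := card_image_le (s := s ×ˢ (univ : Finset Bool))
          (f := fun z => ρ z.1 + (if z.2 = true then t z.1 else 0))
        rw [card_product, card_univ, Fintype.card_bool] at this
        omega
      set forb : Finset (ZMod Q) := used ∪ used.image (fun x => x - t a) with hforb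
      have hfc : forb.card < (univ : Finset (ZMod Q)).card := by
        have e1 : forb.card ≤ used.card + used.card :=
          le_trans (card_union_le _ _) (Nat.add_le_add_left card_image_le _)
        have e2 : (univ : Finset (ZMod Q)).card = Q := by
          rw [card_univ, ZMod.card]
        have e3 : s.card ≤ Fintype.card ι := card_le_univ s
        omega
      obtain ⟨x, _, hx⟩ := exists_mem_notMem_of_card_lt_card hfc
      have hx1 : x ∉ used := fun h => hx (mem_union_left _ h)
      have hx2 : x + t a ∉ used := fun h => hx (mem_union_right _ (by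
        rw [mem_image]
        exact ⟨x + t a, h, by ring⟩))
      have hx3 : ∀ b : Bool, x + (if b = true then t a else 0) ∉ used := by
        intro b
        cases b
        · simpa using hx1
        · simpa using hx2
      have hmem : ∀ i ∈ s, ∀ b : Bool, ρ i + (if b = true then t i else 0) ∈ used := by
        intro i hi b
        rw [hused]
        apply mem_insert_of_mem
        rw [mem_image]
        exact ⟨(i, b), by simp [hi], rfl⟩
      refine ⟨Function.update ρ a x, ?_, ?_⟩
      · intro i hi j hj b b' hij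
        rw [mem_insert] at hi hj
        rcases eq_or_ne i a with rfl | hia <;> rcases eq_or_ne j i with rfl | hji
        · refine ⟨rfl, ?_⟩
          simp only [Function.update_self, add_right_inj] at hij
          cases b <;> cases b' <;> simp at hij ⊢
          · exact (ht _ hij.symm).elim
          · exact (ht _ hij).elim
        · have hj' : j ∈ s := hj.resolve_left hji
          rw [Function.update_self, Function.update_of_ne hji] at hij
          exact (hx3 b (hij ▸ hmem j hj' b')).elim
        · have hi' : j ∈ s := hi.resolve_left hia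
          rw [Function.update_of_ne hia] at hij
          exact h1 j hi' j hi' b b' hij
        · have hi' : i ∈ s := hi.resolve_left hia
          rcases eq_or_ne j a with rfl | hja
          · rw [Function.update_self, Function.update_of_ne hia] at hij
            exact (hx3 b' (hij ▸ hmem i hi' b)).elim
          · have hj' : j ∈ s := hj.resolve_left hja
            rw [Function.update_of_ne hia, Function.update_of_ne hja] at hij
            exact h1 i hi' j hj' b b' hij
      · intro i hi b hzero
        rw [mem_insert] at hi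
        rcases eq_or_ne i a with rfl | hia
        · rw [Function.update_self] at hzero
          apply hx3 b
          rw [hzero, hused]
          exact mem_insert_self _ _
        · have hi' : i ∈ s := hi.resolve_left hia
          rw [Function.update_of_ne hia] at hzero
          exact h2 i hi' b hzero
  obtain ⟨ρ, h1, h2⟩ := key univ
  exact ⟨ρ, fun i j b b' h => h1 i (mem_univ _) j (mem_univ _) b b' h,
    fun i b => h2 i (mem_univ _) b⟩

/-! ### levels -/

/-- The levels. -/
def lev (m k : ℕ) : ℕ := 2 ^ (min k m)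

lemma sum_lev (m c : ℕ) : ∑ i ∈ range (m + c), lev m i + 1 = (c + 1) * 2 ^ m := by
  induction c with
  | zero =>
    have : ∑ i ∈ range (m + 0), lev m i = ∑ i ∈ range m, 2 ^ i := by
      rw [Nat.add_zero]
      refine sum_congr rfl fun i hi => ?_
      rw [mem_range] at hi
      unfold lev
      rw [min_eq_left hi.le]
    rw [this, Nat.geomSum_eq le_rfl]
    simp
    have : 1 ≤ 2 ^ m := Nat.one_le_two_pow
    omega
  | succ c ih =>
    rw [← Nat.add_assoc, sum_range_succ]
    have : lev m (m + c) = 2 ^ m := by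
      unfold lev
      rw [min_eq_right (by omega)]
    rw [this]
    have e : (c + 1 + 1) * 2 ^ m = (c + 1) * 2 ^ m + 2 ^ m := by ring
    rw [e, ← ih]
    ring

lemma sum_lev_ge (m k : ℕ) : lev m k ≤ 1 + ∑ i ∈ range k, lev m i := by
  rcases Nat.lt_or_ge k m with h | h
  · have : ∑ i ∈ range k, lev m i = ∑ i ∈ range k, 2 ^ i := by
      refine sum_congr rfl fun i hi => ?_
      rw [mem_range] at hi
      unfold lev
      rw [min_eq_left (by omega)]
    rw [this, Nat.geomSum_eq le_rfl]
    unfold lev
    rw [min_eq_left h.le]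
    simp
    have : 1 ≤ 2 ^ k := Nat.one_le_two_pow
    omega
  · obtain ⟨c, rfl⟩ := Nat.exists_eq_add_of_le h
    have h1 := sum_lev m c
    have : lev m (m + c) = 2 ^ m := by
      unfold lev
      rw [min_eq_right (by omega)]
    rw [this]
    nlinarith [Nat.zero_le c, Nat.one_le_two_pow (n := m)]

lemma subset_sum (t : ℕ → ℕ) (ht : ∀ k, t k ≤ 1 + ∑ i ∈ range k, t i) (K : ℕ) :
    ∀ a ≤ ∑ i ∈ range K, t i, ∃ S ⊆ range K, ∑ i ∈ S, t i = a := by
  induction K with
  | zero =>
    intro a ha
    simp at ha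
    exact ⟨∅, by simp, by simp [ha]⟩
  | succ K ih =>
    intro a ha
    rcases Nat.lt_or_ge (∑ i ∈ range K, t i) a with h | h
    · rw [sum_range_succ] at ha
      have h1 := ht K
      obtain ⟨S, hS, hS'⟩ := ih (a - t K) (by omega)
      have hK : K ∉ S := fun h => by
        have := mem_range.mp (hS h)
        omega
      refine ⟨insert K S, ?_, ?_⟩
      · intro x hx
        rw [mem_insert] at hx
        rcases hx with rfl | hx
        · simp
        · have := mem_range.mp (hS hx)
          rw [mem_range]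
          omega
      · rw [sum_insert hK, hS']
        omega
    · obtain ⟨S, hS, hS'⟩ := ih a h
      exact ⟨S, hS.trans (range_subset_range.mpr (by omega)), hS'⟩

/-! ### comparison of two lines with the same shape -/

lemma filG_pair (δ Q M f idx idx' i : ℕ) (h1 : idx < M) (h2 : idx' < M) :
    ∃ y : ℤ, filG δ Q M f idx i - filG δ Q M f idx' i = 2 * y ∧ |y| ≤ 2 * (Q * M) := by
  have hb : |(Q : ℤ) * idx - Q * idx'| ≤ Q * M := by
    have e1 : (Q : ℤ) * idx ≤ Q * M := by
      exact_mod_cast Nat.mul_le_mul_left Q h1.le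
    have e2 : (Q : ℤ) * idx' ≤ Q * M := by
      exact_mod_cast Nat.mul_le_mul_left Q h2.le
    have e3 : (0 : ℤ) ≤ Q * idx := by positivity
    have e4 : (0 : ℤ) ≤ Q * idx' := by positivity
    rw [abs_le]
    constructor <;> linarith
  have hb0 : (0 : ℤ) ≤ Q * M := by positivity
  unfold filG
  split_ifs
  · exact ⟨0, by ring, by simpa using hb0⟩
  · refine ⟨(Q : ℤ) * idx - Q * idx', ?_, by linarith⟩
    unfold val
    push_cast
    ring
  · refine ⟨2 * ((Q : ℤ) * idx - Q * idx'), ?_, ?_⟩
    · unfold val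
      push_cast
      ring
    · rw [abs_mul]
      simp
      exact hb
  · refine ⟨(Q : ℤ) * idx - Q * idx', ?_, by linarith⟩
    unfold val
    push_cast
    ring
  · exact ⟨0, by ring, by simpa using hb0⟩

lemma lineG_pair (δ Q M l s ρ ρ' idx idx' t : ℕ) (p : ℕ) (h1 : idx < M) (h2 : idx' < M)
    (h3 : ρ < Q) (h4 : ρ' < Q) :
    ∃ y : ℤ, lineG δ Q M l s ρ idx t (fun _ => false) p -
      lineG δ Q M l s ρ' idx' t (fun _ => false) p = 2 * y ∧ |y| ≤ 2 * (Q * M) + 2 * Q := by
  have hb0 : (0 : ℤ) ≤ Q * M := by positivity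
  have hρ : |(ρ : ℤ) - ρ'| ≤ Q := by
    rw [abs_le]
    constructor <;> omega
  by_cases c1 : p ≤ s
  · rw [lineG_left _ _ _ _ _ _ _ _ _ _ c1, lineG_left _ _ _ _ _ _ _ _ _ _ c1]
    obtain ⟨y, hy, hy'⟩ := filG_pair δ Q M (nf l) idx idx' p h1 h2
    exact ⟨y, hy, by linarith [Int.natCast_nonneg Q]⟩
  by_cases c2 : s + 4 * na l ≤ p
  · rw [lineG_right _ _ _ _ _ _ _ _ _ _ c2, lineG_right _ _ _ _ _ _ _ _ _ _ c2]
    obtain ⟨y, hy, hy'⟩ := filG_pair δ Q M (nf l) idx idx' (p - 4 * na l) h1 h2
    exact ⟨y, hy, by linarith [Int.natCast_nonneg Q]⟩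
  rw [lineG_mid _ _ _ _ _ _ _ _ _ _ (by omega) (by omega),
    lineG_mid _ _ _ _ _ _ _ _ _ _ (by omega) (by omega)]
  obtain ⟨y, hy, hy'⟩ := filG_pair δ Q M (nf l) idx idx' s h1 h2
  rw [abs_le] at hy' hρ
  simp only [Bool.false_eq_true, if_false]
  split_ifs
  · refine ⟨y, by linarith, ?_⟩
    rw [abs_le]
    constructor <;> linarith [Int.natCast_nonneg Q]
  · refine ⟨y + 2 * ((ρ : ℤ) - ρ'), ?_, ?_⟩
    · unfold val
      push_cast
      linarith
    · rw [abs_le]
      constructor <;> linarith [Int.natCast_nonneg Q]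
  · refine ⟨y + ((ρ : ℤ) - ρ'), ?_, ?_⟩
    · unfold val
      push_cast
      linarith
    · rw [abs_le]
      constructor <;> linarith [Int.natCast_nonneg Q]

/-! ### the family of lines -/

/-- Shapes of lines: four phases, and the diagonal lines (diagonal, sign). -/
abbrev Shape := Fin 4 ⊕ (Bool × Bool)

/-- Lines. -/
abbrev Lam (K : ℕ) := Shape × Bool × Fin K

/-- Sign of a shape. -/
def s0 : Shape → Bool
  | Sum.inl _ => false
  | Sum.inr x => x.2

/-- Sign of a line. -/
def sgnL {K : ℕ} (c : Lam K) : Bool := xor (s0 c.1) c.2.1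

/-- Phases. -/
def phase (φ : Fin 4) (l : ℕ) : ℕ :=
  if φ = 0 then 0 else if φ = 1 then 1 else if φ = 2 then nf l - 1 else nf l

/-- Phase of a line. -/
def phL (l : ℕ) : Shape → ℕ
  | Sum.inl φ => phase φ l
  | Sum.inr _ => 0

lemma phL_le (l : ℕ) (s : Shape) : phL l s ≤ nf l := by
  rcases s with φ | x
  · unfold phL phase
    have : 4 ≤ nf l := by unfold nf; omega
    dsimp only
    split_ifs <;> omega
  · exact Nat.zero_le _

lemma cut_cover (l p : ℕ) (hl : 16 ≤ l) (hp : 1 ≤ p) (hp' : p < l) :
    ∃ φ : Fin 4, isCut l (phase φ l) p := by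
  have h1 := len_eq l (by omega)
  have h2 : nf l ≤ 7 := by unfold nf; omega
  have h3 : 4 ≤ nf l := by unfold nf; omega
  have h4 : 12 ≤ 4 * na l := by
    unfold na nf
    omega
  by_cases c1 : p % 2 = 1 ∧ p < 4 * na l
  · refine ⟨0, ?_⟩
    simp [phase, isCut]
    omega
  by_cases c2 : p % 2 = 0 ∧ p < 1 + 4 * na l
  · refine ⟨1, ?_⟩
    simp [phase, isCut]
    omega
  by_cases c3 : (p - nf l) % 2 = 1
  · refine ⟨3, ?_⟩
    simp [phase, isCut]
    omega
  · refine ⟨2, ?_⟩
    simp [phase, isCut]
    omega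

/-- Parameters. -/
structure Par where
  /-- number of levels -/
  K : ℕ
  /-- maximal exponent -/
  m : ℕ
  /-- modulus -/
  Q : ℕ
  /-- range of the numbers of the lines -/
  M : ℕ
  /-- parity -/
  δ : ℕ
  /-- residues -/
  ρ : Bool × Lam K → ℕ
  /-- numbers -/
  idx : Bool × Lam K → ℕ
  hρ : ∀ c, ρ c < Q
  hidx : ∀ c, 1 ≤ idx c ∧ idx c < M
  hinj : Function.Injective idx
  hres : ∀ c c' b b', (ρ c + (if b = true then lev m c.2.2.2 else 0)) % Q =
    (ρ c' + (if b' = true then lev m c'.2.2.2 else 0)) % Q → c = c' ∧ b = b'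
  hres0 : ∀ c b, (ρ c + (if b = true then lev m c.2.2.2 else 0)) % Q ≠ 0
  hδ : δ ≤ 1

/-- Signed prefix sums of the line `c`. -/
def LG (P : Par) (v : Bool) (l : ℕ) (c : Lam P.K) (σ : ℕ → Bool) (p : ℕ) : ℤ :=
  sg (sgnL c) * lineG P.δ P.Q P.M l (phL l c.1) (P.ρ (v, c)) (P.idx (v, c)) (lev P.m c.2.2) σ p

/-- Cells of the line `c`. -/
def LF (P : Par) (v : Bool) (l : ℕ) (c : Lam P.K) (σ : ℕ → Bool) (p : ℕ) : ℤ :=
  LG P v l c σ (p + 1) - LG P v l c σ p

lemma LG_state (P : Par) (v : Bool) (l : ℕ) (c : Lam P.K) (σ : ℕ → Bool) (p : ℕ) :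
    LG P v l c σ p = LG P v l c (fun _ => false) p +
      (if isCut l (phL l c.1) p ∧ σ (p - 1) = true then
        2 * (sg (sgnL c) * (lev P.m c.2.2 : ℤ)) else 0) := by
  unfold LG
  rw [lineG_state _ _ _ _ _ _ _ _ σ p, mul_add]
  congr 1
  split_ifs <;> ring

lemma sg_not (b : Bool) : sg (!b) = - sg b := by
  cases b <;> simp [sg]

lemma sg_abs (b : Bool) : |sg b| = 1 := by
  cases b <;> simp [sg]

lemma sum_Lam {K : ℕ} (f : Lam K → ℤ) :
    ∑ c, f c = ∑ s : Shape, ∑ k : Fin K, (f (s, true, k) + f (s, false, k)) := by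
  rw [Fintype.sum_prod_type]
  refine sum_congr rfl fun s _ => ?_
  rw [Fintype.sum_prod_type, Fintype.sum_bool, ← sum_add_distrib]

lemma card_Shape : Fintype.card Shape = 8 := by
  simp [Shape]

lemma base_bound (P : Par) (v : Bool) (l p : ℕ) :
    ∃ y : ℤ, ∑ c, LG P v l c (fun _ => false) p = 2 * y ∧
      |y| ≤ 8 * P.K * (2 * (P.Q * P.M) + 2 * P.Q) := by
  have h : ∀ s : Shape, ∀ k : Fin P.K, ∃ y : ℤ,
      LG P v l (s, true, k) (fun _ => false) p + LG P v l (s, false, k) (fun _ => false) p =
        2 * y ∧ |y| ≤ 2 * (P.Q * P.M) + 2 * P.Q := by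
    intro s k
    obtain ⟨y, hy, hy'⟩ := lineG_pair P.δ P.Q P.M l (phL l s) (P.ρ (v, (s, true, k)))
      (P.ρ (v, (s, false, k))) (P.idx (v, (s, true, k))) (P.idx (v, (s, false, k)))
      (lev P.m k) p (P.hidx _).2 (P.hidx _).2 (P.hρ _) (P.hρ _)
    refine ⟨sg (xor (s0 s) true) * y, ?_, ?_⟩
    · unfold LG
      have e1 : sgnL ((s, true, k) : Lam P.K) = xor (s0 s) true := rfl
      have e2 : sgnL ((s, false, k) : Lam P.K) = !(xor (s0 s) true) := by
        unfold sgnL
        cases s0 s <;> rfl
      rw [e1, e2, sg_not]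
      have : 2 * (sg (xor (s0 s) true) * y) = sg (xor (s0 s) true) * (2 * y) := by ring
      rw [this, ← hy]
      ring
    · rw [abs_mul, sg_abs, one_mul]
      exact hy'
  choose y hy hy' using h
  refine ⟨∑ s : Shape, ∑ k : Fin P.K, y s k, ?_, ?_⟩
  · rw [sum_Lam, mul_sum]
    refine sum_congr rfl fun s _ => ?_
    rw [mul_sum]
    exact sum_congr rfl fun k _ => hy s k
  · calc |∑ s : Shape, ∑ k : Fin P.K, y s k| ≤ ∑ s : Shape, ∑ k : Fin P.K, |y s k| :=
        le_trans (abs_sum_le_sum_abs _ _) (sum_le_sum fun s _ => abs_sum_le_sum_abs _ _)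
      _ ≤ ∑ s : Shape, ∑ k : Fin P.K, (2 * ((P.Q : ℤ) * P.M) + 2 * P.Q) :=
        sum_le_sum fun s _ => sum_le_sum fun k _ => hy' s k
      _ = 8 * P.K * (2 * (P.Q * P.M) + 2 * P.Q) := by
        simp only [sum_const, card_univ, card_Shape, Fintype.card_fin, nsmul_eq_mul]
        push_cast
        ring

lemma LG_zero (P : Par) (v : Bool) (l : ℕ) (c : Lam P.K) (σ : ℕ → Bool) :
    LG P v l c σ 0 = 0 := by
  unfold LG
  rw [lineG_zero, mul_zero]

lemma LG_end (P : Par) (v : Bool) (l : ℕ) (hl : 8 ≤ l) (c : Lam P.K) (σ : ℕ → Bool) :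
    LG P v l c σ l = 0 := by
  unfold LG
  rw [lineG_end _ _ _ _ _ _ _ _ _ hl (phL_le _ _), mul_zero]

lemma sum_LF (P : Par) (v : Bool) (l : ℕ) (c : Lam P.K) (σ : ℕ → Bool) (p : ℕ) :
    ∑ i ∈ range p, LF P v l c σ i = LG P v l c σ p := by
  unfold LF
  rw [sum_range_sub, LG_zero, sub_zero]

/-- The absorption lemma. -/
theorem absorb (P : Par) (v : Bool) (l : ℕ) (hl : 16 ≤ l) (X : ℕ → ℤ) (hX0 : X 0 = 0)
    (hXl : X l = 0) (hpar : ∀ p, (2 : ℤ) ∣ X p) (E : ℤ) (hE : ∀ p, |X p| ≤ E)
    (hcap : E + 16 * P.K * (2 * (P.Q * P.M) + 2 * P.Q) ≤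
      2 * ((∑ i ∈ range P.K, lev P.m i : ℕ) : ℤ)) :
    ∃ σ : Lam P.K → ℕ → Bool, (∀ x r k, σ (Sum.inr x, r, k) = fun _ => false) ∧
      ∀ p ≤ l, X p + ∑ c, LG P v l c (σ c) p = 0 := by
  classical
  have h1 : ∀ p, ∃ z : ℤ, X p + ∑ c, LG P v l c (fun _ => false) p = 2 * z ∧
      |z| ≤ ((∑ i ∈ range P.K, lev P.m i : ℕ) : ℤ) := by
    intro p
    obtain ⟨y, hy, hy'⟩ := base_bound P v l p
    obtain ⟨x, hx⟩ := hpar p
    refine ⟨x + y, by rw [hy, hx]; ring, ?_⟩
    have h2 := hE p
    rw [hx, abs_mul] at h2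
    simp only [abs_two] at h2
    have h3 := abs_add_le x y
    linarith
  choose z hz hz' using h1
  have h2 : ∀ p, ∃ S ⊆ range P.K, ∑ i ∈ S, lev P.m i = (z p).natAbs := by
    intro p
    apply subset_sum _ (sum_lev_ge P.m)
    have := hz' p
    rw [Int.abs_eq_natAbs] at this
    exact_mod_cast this
  choose S hS hS' using h2
  have h3 : ∀ p, ∃ φ : Fin 4, 1 ≤ p → p < l → isCut l (phase φ l) p := by
    intro p
    by_cases hp : 1 ≤ p ∧ p < l
    · obtain ⟨φ, hφ⟩ := cut_cover l p hl hp.1 hp.2
      exact ⟨φ, fun _ _ => hφ⟩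
    · exact ⟨0, fun h h' => (hp ⟨h, h'⟩).elim⟩
  choose φ hφ using h3
  refine ⟨fun c j => decide (c.1 = Sum.inl (φ (j + 1)) ∧ c.2.1 = decide (z (j + 1) < 0) ∧
    (c.2.2 : ℕ) ∈ S (j + 1)), ?_, ?_⟩
  · intro x r k
    funext j
    simp
  · intro p hp
    rcases Nat.eq_zero_or_pos p with rfl | hp0
    · simp [hX0, LG_zero]
    rcases Nat.lt_or_ge p l with hpl | hpl
    · simp only [LG_state P v l _ (fun j => decide _) p]
      rw [sum_add_distrib, ← add_assoc, hz p]
      have hpp : p - 1 + 1 = p := by omega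
      simp only [hpp, decide_eq_true_eq]
      rw [Fintype.sum_prod_type, sum_eq_single (Sum.inl (φ p))]
      · rw [Fintype.sum_prod_type, sum_eq_single (decide (z p < 0))]
        · have hcut := hφ p hp0 hpl
          have hcut' : isCut l (phL l (Sum.inl (φ p))) p := hcut
          simp only [hcut', true_and]
          have hs : ∀ k : Fin P.K, sgnL ((Sum.inl (φ p), decide (z p < 0), k) : Lam P.K) =
              decide (z p < 0) := by
            intro k
            unfold sgnL s0
            simp
          simp only [hs]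
          have e1 : ∑ k : Fin P.K, (if (k : ℕ) ∈ S p then
              2 * (sg (decide (z p < 0)) * (lev P.m k : ℤ)) else 0) =
              2 * (sg (decide (z p < 0)) * ((z p).natAbs : ℤ)) := by
            rw [← hS' p]
            rw [Fin.sum_univ_eq_sum_range (fun k => if k ∈ S p then
              2 * (sg (decide (z p < 0)) * (lev P.m k : ℤ)) else 0) P.K]
            rw [← sum_filter]
            have e2 : (range P.K).filter (fun k => k ∈ S p) = S p := by
              ext x
              simp only [mem_filter]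
              exact ⟨fun h => h.2, fun h => ⟨hS p h, h⟩⟩
            rw [e2]
            push_cast
            rw [mul_sum, mul_sum]
          rw [e1]
          rcases lt_or_ge (z p) 0 with hneg | hpos
          · rw [decide_eq_true hneg]
            have : ((z p).natAbs : ℤ) = - z p := by omega
            rw [this]
            simp [sg]
          · rw [decide_eq_false (not_lt.mpr hpos)]
            have : ((z p).natAbs : ℤ) = z p := by omega
            rw [this]
            simp [sg]
        · intro b _ hb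
          apply sum_eq_zero
          intro k _
          rw [if_neg]
          rintro ⟨_, _, h, _⟩
          exact hb h
        · simp
      · intro s _ hs
        apply sum_eq_zero
        intro y _
        rw [if_neg]
        rintro ⟨_, h, _⟩
        exact hs h
      · simp
    · have : p = l := by omega
      subst this
      rw [hXl]
      simp [LG_end P v p (by omega)]

end Pool.Agent.H24.Magic
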