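import Pool.Agent.H24.Magic.Pos

/-!
Every interior can be completed to a magic square after few operations.
-/

set_option autoImplicit false

namespace Pool.Agent.H24.Magic

open Finset

lemma LF_D (P : Par) (l : ℕ) (z : DL P.K) (σ : ℕ → Bool) (p : ℕ) (hl : 8 ≤ l)
    (hδ : l % 2 = 1 → P.δ = 0) (hp : p < 4 * na l) :
    LF P true l (dline z) σ p = sg (sgnL (dline z) == decide (p % 4 < 2)) *
      val P.δ (P.Q * (p / 4) + P.ρ (true, dline z) +
        (if xor (decide (p % 4 = 1 ∨ p % 4 = 2)) (σ (p - p % 2)) = true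
          then lev P.m z.2.2 else 0)) := by
  have h1 := len_eq l hl
  rw [LF_eq P true l (dline z) σ p hl (by omega) hδ]
  have e : phL l (dline z).1 = 0 := rfl
  rw [e]
  unfold lineS lineU
  rw [if_neg (Nat.not_lt_zero _), if_neg (by omega), if_neg (Nat.not_lt_zero _),
    if_neg (by omega)]
  rfl

lemma pair_bound (P : Par) (l : ℕ) (x : Bool × Bool) (k : Fin P.K) (p p' : ℕ) (hl : 8 ≤ l)
    (hδ : l % 2 = 1 → P.δ = 0) (hp : p < 4 * na l) (hp' : p' < 4 * na l)
    (hpp : p' = p + 4 ∨ p = p' + 4) :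
    |LF P true l (dline (x, true, k)) (fun _ => false) p' +
      LF P true l (dline (x, false, k)) (fun _ => false) p| ≤ 4 * P.Q := by
  rw [LF_D P l _ _ p hl hδ hp, LF_D P l _ _ p' hl hδ hp']
  have e1 : sgnL (dline (x, true, k)) = !(sgnL (dline (x, false, k))) := by
    unfold sgnL dline
    cases s0 (Sum.inr x) <;> rfl
  have e2 : p' % 4 = p % 4 := by omega
  rw [e2, e1]
  have e3 : ((!(sgnL (dline (x, false, k)))) == decide (p % 4 < 2)) =
      !(sgnL (dline (x, false, k)) == decide (p % 4 < 2)) := by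
    cases sgnL (dline (x, false, k)) <;> cases decide (p % 4 < 2) <;> rfl
  rw [e3, sg_not]
  set s := sg (sgnL (dline (x, false, k)) == decide (p % 4 < 2))
  have e4 : (if xor (decide (p % 4 = 1 ∨ p % 4 = 2)) false = true
          then lev P.m (((x, true, k) : DL P.K).2.2) else 0) =
        (if xor (decide (p % 4 = 1 ∨ p % 4 = 2)) false = true
          then lev P.m (((x, false, k) : DL P.K).2.2) else 0) := rfl
  rw [e4]
  set w := (if xor (decide (p % 4 = 1 ∨ p % 4 = 2)) false = true
          then lev P.m (((x, false, k) : DL P.K).2.2) else 0)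
  have r1 := P.hρ (true, dline (x, true, k))
  have r2 := P.hρ (true, dline (x, false, k))
  have e5 : -s * val P.δ (P.Q * (p' / 4) + P.ρ (true, dline (x, true, k)) + w) +
      s * val P.δ (P.Q * (p / 4) + P.ρ (true, dline (x, false, k)) + w) =
      s * (2 * (P.Q * (((p / 4 : ℕ) : ℤ) - ((p' / 4 : ℕ) : ℤ)) +
        ((P.ρ (true, dline (x, false, k)) : ℤ) - P.ρ (true, dline (x, true, k))))) := by
    unfold val
    push_cast
    ring
  rw [e5, abs_mul, sg_abs, one_mul, abs_mul]
  have e6 : |(P.Q : ℤ) * (((p / 4 : ℕ) : ℤ) - ((p' / 4 : ℕ) : ℤ))| ≤ P.Q := by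
    rw [abs_mul]
    have : |((p / 4 : ℕ) : ℤ) - ((p' / 4 : ℕ) : ℤ)| = 1 := by
      rcases hpp with h | h
      · have : p' / 4 = p / 4 + 1 := by omega
        rw [this]
        push_cast
        ring_nf
        simp
      · have : p / 4 = p' / 4 + 1 := by omega
        rw [this]
        push_cast
        ring_nf
        simp
    rw [this, mul_one]
    simp
  have e7 : |((P.ρ (true, dline (x, false, k)) : ℤ) - P.ρ (true, dline (x, true, k)))| ≤ P.Q := by
    rw [abs_le]
    constructor <;> omega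
  have e8 := abs_add_le ((P.Q : ℤ) * (((p / 4 : ℕ) : ℤ) - ((p' / 4 : ℕ) : ℤ)))
    ((P.ρ (true, dline (x, false, k)) : ℤ) - P.ρ (true, dline (x, true, k)))
  simp only [abs_two]
  linarith

lemma sum_DL {K : ℕ} (f : DL K → ℤ) :
    ∑ z, f z = ∑ x : Bool × Bool, ∑ k : Fin K, (f (x, true, k) + f (x, false, k)) := by
  rw [Fintype.sum_prod_type]
  refine sum_congr rfl fun s _ => ?_
  rw [Fintype.sum_prod_type, Fintype.sum_bool, ← sum_add_distrib]

/-- Position `p` of the diagonal `a0` in the row `z`. -/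
def ppos (n : ℕ) (a0 : Bool) {K : ℕ} (z : DL K) : ℕ :=
  if z.1.1 = a0 then dlow z else n - 1 - dlow z

lemma four_na {P : Par} {N : ℕ} (G : Good P N) : ordN P N ≤ 4 * na (ordN P N) + 7 := by
  have h1 := G.lens_ge true
  have h2 := len_eq (ordN P N) (le_trans (by norm_num) h1)
  have h3 := (nf_bounds (ordN P N)).2
  omega

lemma dlow_true {K : ℕ} (x : Bool × Bool) (k : Fin K) :
    dlow ((x, true, k) : DL K) = dlow ((x, false, k) : DL K) + 4 := by
  unfold dlow
  simp
  ring

lemma ppos_lt {P : Par} {N : ℕ} (G : Good P N) (a0 : Bool) (z : DL P.K) :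
    ppos (ordN P N) a0 z < 4 * na (ordN P N) := by
  have h1 := four_na G
  have h2 := dlow_lt G z
  have h3 : 8 ≤ dlow z := by unfold dlow; omega
  unfold ppos
  split_ifs <;> omega

lemma D_bound {P : Par} {N : ℕ} (G : Good P N) (a0 : Bool) :
    |∑ z : DL P.K, LF P true (ordN P N) (dline z) (fun _ => false) (ppos (ordN P N) a0 z)| ≤
      16 * (P.K * P.Q) := by
  have hl : 8 ≤ ordN P N := le_trans (by norm_num) (G.lens_ge true)
  rw [sum_DL]
  calc |∑ x : Bool × Bool, ∑ k : Fin P.K, (LF P true (ordN P N) (dline (x, true, k))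
        (fun _ => false) (ppos (ordN P N) a0 (x, true, k)) +
        LF P true (ordN P N) (dline (x, false, k)) (fun _ => false)
          (ppos (ordN P N) a0 (x, false, k)))| ≤
      ∑ x : Bool × Bool, ∑ k : Fin P.K, (4 * (P.Q : ℤ)) := by
        refine le_trans (abs_sum_le_sum_abs _ _) (sum_le_sum fun x _ => ?_)
        refine le_trans (abs_sum_le_sum_abs _ _) (sum_le_sum fun k _ => ?_)
        apply pair_bound P (ordN P N) x k _ _ hl G.hδ1 (ppos_lt G a0 _) (ppos_lt G a0 _)
        have h2 := dlow_lt G (x, true, k)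
        have h3 := dlow_true x k
        have h4 : ((x, true, k) : DL P.K).1.1 = ((x, false, k) : DL P.K).1.1 := rfl
        unfold ppos
        rw [h4]
        split_ifs <;> omega
    _ = 16 * (P.K * P.Q) := by
        simp only [sum_const, card_univ, Fintype.card_prod, Fintype.card_bool,
          Fintype.card_fin, nsmul_eq_mul]
        push_cast
        ring

lemma LF_state_diff (P : Par) (l : ℕ) (c : Lam P.K) (σ : ℕ → Bool) (p : ℕ) :
    LF P true l c σ p - LF P true l c (fun _ => false) p =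
      (if isCut l (phL l c.1) (p + 1) ∧ σ p = true then
        2 * (sg (sgnL c) * (lev P.m c.2.2 : ℤ)) else 0) -
      (if isCut l (phL l c.1) p ∧ σ (p - 1) = true then
        2 * (sg (sgnL c) * (lev P.m c.2.2 : ℤ)) else 0) := by
  unfold LF
  rw [LG_state P true l c σ (p + 1), LG_state P true l c σ p, Nat.add_sub_cancel]
  ring

/-- The states of the diagonal lines. -/
def Tst (P : Par) (zz : Bool → ℤ) (S : Bool → Finset ℕ) (x : Bool × Bool) (k : Fin P.K)
    (j : ℕ) : Bool :=
  decide (j = dlow ((x, false, k) : DL P.K) ∧ x.2 = decide (zz x.1 < 0) ∧ (k : ℕ) ∈ S x.1)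

lemma flip_sum {P : Par} {N : ℕ} (G : Good P N) (zz : Bool → ℤ) (S : Bool → Finset ℕ)
    (hS : ∀ a, S a ⊆ range P.K) (hS' : ∀ a, ∑ i ∈ S a, lev P.m i = (zz a).natAbs) (a0 : Bool) :
    ∑ z : DL P.K, (LF P true (ordN P N) (dline z) (Tst P zz S z.1 z.2.2)
        (ppos (ordN P N) a0 z) -
      LF P true (ordN P N) (dline z) (fun _ => false) (ppos (ordN P N) a0 z)) =
      - 2 * zz a0 := by
  have hl : 8 ≤ ordN P N := le_trans (by norm_num) (G.lens_ge true)
  have key : ∀ z : DL P.K, (LF P true (ordN P N) (dline z) (Tst P zz S z.1 z.2.2)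
        (ppos (ordN P N) a0 z) -
      LF P true (ordN P N) (dline z) (fun _ => false) (ppos (ordN P N) a0 z)) =
      if z.1 = (a0, decide (zz a0 < 0)) ∧ z.2.1 = false ∧ (z.2.2 : ℕ) ∈ S a0 then
        2 * (sg (decide (zz a0 < 0)) * (lev P.m z.2.2 : ℤ)) else 0 := by
    rintro ⟨⟨a, s⟩, r, k⟩
    rw [LF_state_diff]
    have hph : phL (ordN P N) (dline (((a, s), r, k) : DL P.K)).1 = 0 := rfl
    rw [hph]
    have h2 := dlow_lt G ((a, s), true, k)
    have h3 := dlow_true (a, s) k
    have h4 : 8 ≤ dlow (((a, s), false, k) : DL P.K) := by unfold dlow; omega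
    have h5 : dlow (((a, s), false, k) : DL P.K) % 4 = 0 := by unfold dlow; omega
    have hlt := ppos_lt G a0 ((a, s), r, k)
    by_cases ha : a = a0
    · subst ha
      have hp : ppos (ordN P N) a (((a, s), r, k) : DL P.K) = dlow (((a, s), r, k) : DL P.K) := by
        unfold ppos
        rw [if_pos rfl]
      rw [hp] at hlt ⊢
      cases r
      · -- role A
        have c2 : ¬ (isCut (ordN P N) 0 (dlow (((a, s), false, k) : DL P.K)) ∧
            Tst P zz S (a, s) k (dlow (((a, s), false, k) : DL P.K) - 1) = true) := by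
          rintro ⟨⟨_, _, h⟩, _⟩
          omega
        rw [if_neg c2, sub_zero]
        have c1 : isCut (ordN P N) 0 (dlow (((a, s), false, k) : DL P.K) + 1) :=
          ⟨by omega, by omega, by omega⟩
        simp only [c1, true_and, Tst, decide_eq_true_eq, Prod.mk.injEq]
        by_cases hs : s = decide (zz a < 0)
        · by_cases hk : (k : ℕ) ∈ S a
          · rw [if_pos ⟨hs, hk⟩, if_pos ⟨hs, hk⟩]
            have : sgnL (dline (((a, s), false, k) : DL P.K)) = s := by
              unfold sgnL dline s0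
              simp
            rw [this, hs]
            rfl
          · rw [if_neg (fun h => hk h.2), if_neg (fun h => hk h.2)]
        · rw [if_neg (fun h => hs h.1), if_neg (fun h => hs h.1)]
      · have c2 : ¬ (isCut (ordN P N) 0 (dlow (((a, s), true, k) : DL P.K)) ∧
            Tst P zz S (a, s) k (dlow (((a, s), true, k) : DL P.K) - 1) = true) := by
          rintro ⟨⟨_, _, h⟩, _⟩
          omega
        have c1 : ¬ (isCut (ordN P N) 0 (dlow (((a, s), true, k) : DL P.K) + 1) ∧
            Tst P zz S (a, s) k (dlow (((a, s), true, k) : DL P.K)) = true) := by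
          rintro ⟨_, h⟩
          simp only [Tst, decide_eq_true_eq] at h
          omega
        rw [if_neg c2, if_neg c1, if_neg (by simp)]
        ring
    · have hp : ppos (ordN P N) a0 (((a, s), r, k) : DL P.K) =
          ordN P N - 1 - dlow (((a, s), r, k) : DL P.K) := by
        unfold ppos
        rw [if_neg ha]
      have h6 : dlow (((a, s), r, k) : DL P.K) ≤ dlow (((a, s), false, k) : DL P.K) + 4 := by
        cases r <;> omega
      rw [hp]
      have c2 : ¬ (isCut (ordN P N) 0 (ordN P N - 1 - dlow (((a, s), r, k) : DL P.K)) ∧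
          Tst P zz S (a, s) k (ordN P N - 1 - dlow (((a, s), r, k) : DL P.K) - 1) = true) := by
        rintro ⟨_, h⟩
        simp only [Tst, decide_eq_true_eq] at h
        omega
      have c1 : ¬ (isCut (ordN P N) 0 (ordN P N - 1 - dlow (((a, s), r, k) : DL P.K) + 1) ∧
          Tst P zz S (a, s) k (ordN P N - 1 - dlow (((a, s), r, k) : DL P.K)) = true) := by
        rintro ⟨_, h⟩
        simp only [Tst, decide_eq_true_eq] at h
        omega
      rw [if_neg c2, if_neg c1, if_neg (by
        rintro ⟨h, _⟩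
        rw [Prod.mk.injEq] at h
        exact ha h.1)]
      ring
  simp only [key]
  rw [Fintype.sum_prod_type, sum_eq_single (a0, decide (zz a0 < 0))]
  · rw [Fintype.sum_prod_type, sum_eq_single false]
    · simp only [true_and]
      have e1 : ∑ k : Fin P.K, (if (k : ℕ) ∈ S a0 then
          2 * (sg (decide (zz a0 < 0)) * (lev P.m k : ℤ)) else 0) =
          2 * (sg (decide (zz a0 < 0)) * ((zz a0).natAbs : ℤ)) := by
        rw [← hS' a0]
        rw [Fin.sum_univ_eq_sum_range (fun k => if k ∈ S a0 then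
          2 * (sg (decide (zz a0 < 0)) * (lev P.m k : ℤ)) else 0) P.K]
        rw [← sum_filter]
        have e2 : (range P.K).filter (fun k => k ∈ S a0) = S a0 := by
          ext x
          simp only [mem_filter]
          exact ⟨fun h => h.2, fun h => ⟨hS a0 h, h⟩⟩
        rw [e2]
        push_cast
        rw [mul_sum, mul_sum]
      rw [e1]
      rcases lt_or_ge (zz a0) 0 with hneg | hpos
      · rw [decide_eq_true hneg]
        have : ((zz a0).natAbs : ℤ) = - zz a0 := by omega
        rw [this]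
        simp [sg]
      · rw [decide_eq_false (not_lt.mpr hpos)]
        have : ((zz a0).natAbs : ℤ) = zz a0 := by omega
        rw [this]
        simp [sg]
    · intro r _ hr
      apply sum_eq_zero
      intro k _
      rw [if_neg]
      rintro ⟨_, h, _⟩
      exact hr h
    · simp
  · intro x _ hx
    apply sum_eq_zero
    intro y _
    rw [if_neg]
    rintro ⟨h, _⟩
    exact hx h
  · simp

/-- All requirements on a magic square, for the doubled deviations from the mean. -/
def ZMagic (n : ℕ) (A : Fin n → Fin n → ℤ) : Prop :=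
  (∀ i j, A i j ∈ Dset n) ∧ (∀ i j i' j', A i j = A i' j' → i = i' ∧ j = j') ∧
  (∀ i, ∑ j, A i j = 0) ∧ (∀ j, ∑ i, A i j = 0) ∧ ∑ i, A i i = 0 ∧ ∑ i, A i i.rev = 0

lemma even_diag (n : ℕ) (f : Fin n → ℤ) (hf : ∀ i, f i ∈ Dset n) : (2 : ℤ) ∣ ∑ i, f i := by
  have h1 : ∀ j, (2 : ℤ) ∣ f j + ((n : ℤ) ^ 2 - 1) := fun j => ((mem_Dset _ _).mp (hf j)).2
  have h2 : (2 : ℤ) ∣ ∑ j, (f j + ((n : ℤ) ^ 2 - 1)) := dvd_sum fun j _ => h1 j
  rw [sum_add_distrib, sum_const, card_univ, Fintype.card_fin, nsmul_eq_mul] at h2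
  have h3 : (2 : ℤ) ∣ (n : ℤ) * ((n : ℤ) ^ 2 - 1) := by
    rcases Nat.mod_two_eq_zero_or_one n with h | h
    · exact Dvd.dvd.mul_right (by omega) _
    · apply Dvd.dvd.mul_left
      have h5 : n ^ 2 % 2 = 1 := by rw [Nat.pow_mod, h]
      have h6 : (n : ℤ) ^ 2 = ((n ^ 2 : ℕ) : ℤ) := by push_cast; rfl
      rw [h6]
      omega
  exact (dvd_add_left h3).mp h2

theorem main_exists {P : Par} {N : ℕ} (G : Good P N) (b : Fin N × Fin N → ℤ)
    (hb : ∀ p, b p ∈ Wset P N) (hbi : Function.Injective b) :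
    ∃ τ ∈ balOps N, ∃ π : Fin (ordN P N) ≃ RC P N, ∃ σ : Bool → Lam P.K → ℕ → Bool,
      ZMagic (ordN P N) (fun i j => arr P N (b ∘ τ) σ (π i) ((eC P N).symm j)) := by
  classical
  obtain ⟨τ, hτ, σ, hσ0, hV, hH⟩ := semi G b hb hbi
  have hbτ : ∀ p, (b ∘ τ) p ∈ Wset P N := fun p => hb _
  have hbiτ : Function.Injective (b ∘ τ) := hbi.comp τ.injective
  have hbτ0 : ∑ p, (b ∘ τ) p = 0 := sum_interior G _ hbτ hbiτ
  obtain ⟨hrow, hcol⟩ := zero_sums G (b ∘ τ) hbτ0 σ hV hH
  have hsq : ((ordN P N : ℕ) : ℤ) ^ 2 = (((ordN P N) ^ 2 : ℕ) : ℤ) := by push_cast; rfl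
  set h : ℤ := ((ordN P N : ℕ) : ℤ) ^ 2 - 1 with hh
  set A : RC P N → Fin (ordN P N) → ℤ := fun x j => arr P N (b ∘ τ) σ x ((eC P N).symm j) with hA
  have hAD : ∀ x j, A x j ∈ Dset (ordN P N) := fun x j => arr_mem G _ hbτ σ _ _
  have hAh : ∀ x j, |A x j| ≤ h := fun x j => ((mem_Dset _ _).mp (hAD x j)).1
  have hrA : ∀ x, ∑ j, A x j = 0 := by
    intro x
    rw [← hrow x]
    exact Equiv.sum_comp (eC P N).symm (fun y => arr P N (b ∘ τ) σ x y)
  have hcA : ∀ j, ∑ x, A x j = 0 := fun j => hcol _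
  -- the diagonal lines
  have hAd : ∀ (z : DL P.K) (j : Fin (ordN P N)), A (Sum.inr (dline z)) j =
      LF P true (ordN P N) (dline z) (fun _ => false) j.val := by
    intro z j
    have e1 : A (Sum.inr (dline z)) j = LF P true (ordN P N) (dline z) (σ true (dline z))
      (eC P N ((eC P N).symm j)).val := rfl
    rw [e1, Equiv.apply_symm_apply]
    have e2 : σ true (dline z) = fun _ => false := hσ0 z.1 z.2.1 z.2.2
    rw [e2]
  have hpp0 : ∀ z : DL P.K, (dpos G z).val = ppos (ordN P N) false z := by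
    intro z
    rw [dpos_val]
    unfold ppos
    cases z.1.1 <;> simp
  have hpp1 : ∀ z : DL P.K, (dpos G z).rev.val = ppos (ordN P N) true z := by
    intro z
    rw [Fin.val_rev, dpos_val]
    have h1 := dlow_lt G z
    unfold ppos
    cases z.1.1 <;> simp <;> omega
  have hB1 : |∑ z : DL P.K, A (Sum.inr (dline z)) (dpos G z)| ≤ 16 * (P.K * P.Q) := by
    simp only [hAd, hpp0]
    exact D_bound G false
  have hB2 : |∑ z : DL P.K, A (Sum.inr (dline z)) (dpos G z).rev| ≤ 16 * (P.K * P.Q) := by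
    simp only [hAd, hpp1]
    exact D_bound G true
  have hBh : 4 * (16 * ((P.K : ℤ) * P.Q)) ≤ h := by
    have h1 := G.hsmall
    have h2 : ((64 * (P.K * P.Q) + 2 : ℕ) : ℤ) ≤ (((ordN P N) ^ 2 : ℕ) : ℤ) := by
      exact_mod_cast h1
    push_cast at h2
    rw [hh]
    push_cast
    linarith
  obtain ⟨π, hπ, hd0, hd1⟩ := exists_pi G A h (16 * (P.K * P.Q)) hAh hrA hcA hB1 hB2 hBh
  obtain ⟨z0, hz0⟩ := even_diag (ordN P N) (fun i => A (π i) i) (fun i => hAD _ _)
  obtain ⟨z1, hz1⟩ := even_diag (ordN P N) (fun i => A (π i) i.rev) (fun i => hAD _ _)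
  set zz : Bool → ℤ := fun a => if a = true then z1 else z0 with hzz
  have hcap : ∀ a, (zz a).natAbs ≤ ∑ i ∈ range P.K, lev P.m i := by
    have h1 := G.hcap2
    have h2 : ∀ y : ℤ, |2 * y| ≤ 14 * h → y.natAbs ≤ ∑ i ∈ range P.K, lev P.m i := by
      intro y hy
      rw [abs_mul] at hy
      simp only [abs_two] at hy
      have h3 : |y| ≤ ((∑ i ∈ range P.K, lev P.m i : ℕ) : ℤ) := by
        rw [hh, hsq] at hy
        linarith
      rw [Int.abs_eq_natAbs] at h3
      exact_mod_cast h3
    intro a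
    cases a
    · apply h2
      have e : zz false = z0 := rfl
      rw [e, ← hz0]
      exact hd0
    · apply h2
      have e : zz true = z1 := rfl
      rw [e, ← hz1]
      exact hd1
  have hSex : ∀ a, ∃ S ⊆ range P.K, ∑ i ∈ S, lev P.m i = (zz a).natAbs := fun a =>
    subset_sum _ (sum_lev_ge P.m) _ _ (hcap a)
  choose S hS hS' using hSex
  set σ' : Bool → Lam P.K → ℕ → Bool := fun v =>
    if v = true then flipD (σ true) (Tst P zz S) else σ v with hσ'
  have hV' : ∀ p ≤ N, rp (b ∘ τ) p + ∑ c, LG P false N c (σ' false c) p = 0 := by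
    intro p hp
    exact hV p hp
  have hH' : ∀ p ≤ ordN P N, cp (b ∘ τ) p + ∑ c, LG P true (ordN P N) c (σ' true c) p = 0 := by
    intro p hp
    have e1 : σ' true = flipD (σ true) (Tst P zz S) := by simp [hσ']
    rw [e1, flipD_sum P (ordN P N) (σ true) hσ0]
    exact hH p hp
  obtain ⟨hrow', hcol'⟩ := zero_sums G (b ∘ τ) hbτ0 σ' hV' hH'
  -- difference of the diagonals
  have hdiff : ∀ (g : Fin (ordN P N) → Fin (ordN P N)),
      ∑ i, arr P N (b ∘ τ) σ' (π i) ((eC P N).symm (g i)) - ∑ i, A (π i) (g i) =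
      ∑ z : DL P.K, (LF P true (ordN P N) (dline z) (Tst P zz S z.1 z.2.2) (g (dpos G z)).val -
        LF P true (ordN P N) (dline z) (fun _ => false) (g (dpos G z)).val) := by
    intro g
    rw [← sum_sub_distrib]
    have e1 : ∑ i, (arr P N (b ∘ τ) σ' (π i) ((eC P N).symm (g i)) - A (π i) (g i)) =
        ∑ i ∈ PD G, (arr P N (b ∘ τ) σ' (π i) ((eC P N).symm (g i)) - A (π i) (g i)) := by
      symm
      apply sum_subset (subset_univ _)
      intro i _ hi
      have hne : ∀ z : DL P.K, π i ≠ Sum.inr (dline z) := by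
        intro z hz
        apply hi
        have : i = dpos G z := π.injective (hz.trans (hπ z).symm)
        rw [this]
        unfold PD
        exact mem_image_of_mem _ (mem_univ _)
      rw [sub_eq_zero]
      rcases hx : π i with i' | ⟨s, r, k⟩
      · rcases hy : (eC P N).symm (g i) with j | c
        · simp only [hA, hy]
          rfl
        · simp only [hA, hy]
          rfl
      · rcases s with φ | x
        · rfl
        · exact (hne (x, r, k) hx).elim
    rw [e1]
    unfold PD
    rw [sum_image (fun x _ y _ h => dpos_inj G h)]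
    refine sum_congr rfl fun z _ => ?_
    rw [hπ, hAd]
    congr 1
    have e2 : arr P N (b ∘ τ) σ' (Sum.inr (dline z)) ((eC P N).symm (g (dpos G z))) =
      LF P true (ordN P N) (dline z) (σ' true (dline z))
        (eC P N ((eC P N).symm (g (dpos G z)))).val := rfl
    rw [e2, Equiv.apply_symm_apply]
    rfl
  refine ⟨τ, hτ, π, σ', ?_, ?_, ?_, ?_, ?_, ?_⟩
  · intro i j
    exact arr_mem G _ hbτ σ' _ _
  · intro i j i' j' hij
    obtain ⟨k1, k2⟩ := arr_inj G _ hbτ hbiτ σ' _ _ _ _ hij
    exact ⟨π.injective k1, (eC P N).symm.injective k2⟩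
  · intro i
    rw [← hrow' (π i)]
    exact Equiv.sum_comp (eC P N).symm (fun y => arr P N (b ∘ τ) σ' (π i) y)
  · intro j
    rw [← hcol' ((eC P N).symm j)]
    exact Equiv.sum_comp π (fun x => arr P N (b ∘ τ) σ' x ((eC P N).symm j))
  · have h1 := hdiff (fun i => i)
    simp only [hpp0] at h1
    rw [flip_sum G zz S hS hS' false, hz0] at h1
    simp only [hzz, Bool.false_eq_true, if_false] at h1
    linarith
  · have h1 := hdiff (fun i => i.rev)
    simp only [hpp1] at h1
    rw [flip_sum G zz S hS hS' true, hz1] at h1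
    simp only [hzz, if_true] at h1
    linarith

end Pool.Agent.H24.Magic
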