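import Pool.Agent.H24.Magic.Count

/-!
Choice of the parameters.
-/

set_option autoImplicit false

namespace Pool.Agent.H24.Magic

open Finset

theorem exists_par (n m K : ℕ) (hK : K = m + 512) (hm1 : 2 ^ m ≤ n ^ 2 / 16)
    (hm2 : n ^ 2 / 16 < 2 ^ (m + 1)) (hbig : 1048576 * K ^ 2 ≤ n) :
    ∃ (P : Par) (N : ℕ), P.K = K ∧ ordN P N = n ∧ Good P N := by
  classical
  obtain ⟨Q, hQ⟩ : ∃ Q, Q = 128 * K + 3 := ⟨_, rfl⟩
  obtain ⟨M, hM⟩ : ∃ M, M = 32 * K + 1 := ⟨_, rfl⟩
  haveI : NeZero Q := ⟨by omega⟩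
  have hcard : Fintype.card (Bool × Lam K) = 32 * K := by
    rw [Fintype.card_prod, card_Lam, Fintype.card_bool]
    ring
  obtain ⟨ρ, hρ1, hρ2⟩ := exists_residues (ι := Bool × Lam K) Q
    (fun c => ((lev m c.2.2.2 : ℕ) : ZMod Q)) (by
      intro c h
      rw [ZMod.natCast_eq_zero_iff] at h
      unfold lev at h
      have hcop : Nat.Coprime Q (2 ^ (min (c.2.2.2 : ℕ) m)) := by
        apply Nat.Coprime.pow_right
        rw [Nat.coprime_comm, Nat.coprime_two_left]
        rw [Nat.odd_iff]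
        omega
      have := Nat.Coprime.eq_one_of_dvd hcop h
      omega) (by rw [hcard]; omega)
  have hval : ∀ (c : Bool × Lam K) (b : Bool),
      (((ρ c).val + (if b = true then lev m c.2.2.2 else 0) : ℕ) : ZMod Q) =
      ρ c + (if b = true then ((lev m c.2.2.2 : ℕ) : ZMod Q) else 0) := by
    intro c b
    rw [Nat.cast_add, ZMod.natCast_val, ZMod.cast_id]
    cases b <;> simp
  set P : Par :=
    { K := K
      m := m
      Q := Q
      M := M
      δ := (n + 1) % 2
      ρ := fun c => (ρ c).val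
      idx := fun c => (Fintype.equivFinOfCardEq hcard c).val + 1
      hρ := fun c => ZMod.val_lt _
      hidx := fun c => ⟨by omega, by
        have := (Fintype.equivFinOfCardEq hcard c).isLt
        omega⟩
      hinj := by
        intro c c' h
        apply (Fintype.equivFinOfCardEq hcard).injective
        apply Fin.ext
        dsimp only at h
        omega
      hres := by
        intro c c' b b' h
        rw [← ZMod.natCast_eq_natCast_iff'] at h
        rw [hval, hval] at h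
        exact hρ1 c c' b b' h
      hres0 := by
        intro c b h
        have h' : ((ρ c).val + (if b = true then lev m c.2.2.2 else 0)) % Q = 0 % Q := by
          rw [h]
          simp
        rw [← ZMod.natCast_eq_natCast_iff', hval, Nat.cast_zero] at h'
        exact hρ2 c b h'
      hδ := by omega } with hP
  have hKn : 1048576 * K ^ 2 ≤ n := hbig
  have hK1 : 512 ≤ K := by omega
  have hKK : 512 * K ≤ K ^ 2 := by
    rw [sq]
    exact Nat.mul_le_mul_right _ hK1
  have hKn1 : 80 * K + 64 ≤ n := by omega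
  have hord : n - 16 * K + 16 * K = n := by omega
  have hordP : ordN P (n - 16 * K) = n := hord
  refine ⟨P, n - 16 * K, rfl, hordP, ?_⟩
  have hPK : P.K = K := rfl
  have hPQ : P.Q = Q := rfl
  have hPM : P.M = M := rfl
  have hPm : P.m = m := rfl
  have hPδ : P.δ = (n + 1) % 2 := rfl
  have hn2 : 1048576 * K ^ 2 * n ≤ n ^ 2 := by
    rw [sq n]
    exact Nat.mul_le_mul_right _ hKn
  have hQ' : Q ≤ 129 * K := by omega
  have hM' : M ≤ 33 * K := by omega
  have hQM : Q * M ≤ 4257 * K ^ 2 := by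
    calc Q * M ≤ (129 * K) * (33 * K) := Nat.mul_le_mul hQ' hM'
      _ = 4257 * K ^ 2 := by ring
  have hQn : Q * n ≤ 129 * K * n := Nat.mul_le_mul_right _ hQ'
  have hKKn : 512 * K * n ≤ K ^ 2 * n := Nat.mul_le_mul_right _ hKK
  have hn1 : 1048576 ≤ n := by
    have : 1048576 * 1 ≤ 1048576 * K ^ 2 := Nat.mul_le_mul_left _ (Nat.one_le_pow _ _ (by omega))
    omega
  have hnn : 1048576 * n ≤ n ^ 2 := by
    rw [sq]
    exact Nat.mul_le_mul_right _ hn1
  have hlev : ((∑ i ∈ range K, lev m i : ℕ) : ℤ) + 1 = 513 * 2 ^ m := by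
    have := sum_lev m 512
    rw [← hK] at this
    push_cast
    exact_mod_cast this
  have h2m : (n : ℤ) ^ 2 ≤ 32 * 2 ^ m + 15 := by
    have h1 : n ^ 2 / 16 + 1 ≤ 2 ^ (m + 1) := hm2
    have h2 : n ^ 2 < 16 * (n ^ 2 / 16) + 16 := by omega
    have h3 : n ^ 2 < 16 * 2 ^ (m + 1) := by omega
    rw [pow_succ] at h3
    have h4 : n ^ 2 ≤ 32 * 2 ^ m + 15 := by omega
    exact_mod_cast h4
  have hn20 : (1048576 : ℤ) * n ≤ (n : ℤ) ^ 2 := by exact_mod_cast hnn
  have hn10 : (1048576 : ℤ) ≤ n := by exact_mod_cast hn1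
  constructor
  · rw [hPK]
    omega
  · rw [hordP, hPδ]
    omega
  · rw [hordP, hPδ]
    omega
  · rw [hordP, hPQ, hPM, hPm]
    have h1 : 16 * (n ^ 2 / 16) ≤ n ^ 2 := Nat.mul_div_le _ _
    have h2 : K ^ 2 ≤ n := by
      have : 1 * K ^ 2 ≤ 1048576 * K ^ 2 := Nat.mul_le_mul_right _ (by norm_num)
      omega
    have h3 : 129 * K * n * 4 ≤ n ^ 2 := by
      calc 129 * K * n * 4 = (516 * K * n) := by ring
        _ ≤ 1048576 * (512 * K * n) := by nlinarith [Nat.zero_le (K * n)]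
        _ ≤ 1048576 * (K ^ 2 * n) := Nat.mul_le_mul_left _ hKKn
        _ = 1048576 * K ^ 2 * n := by ring
        _ ≤ n ^ 2 := hn2
    have h4 : 11 * (Q * M) ≤ 46827 * n := by
      calc 11 * (Q * M) ≤ 11 * (4257 * K ^ 2) := Nat.mul_le_mul_left _ hQM
        _ = 46827 * K ^ 2 := by ring
        _ ≤ 46827 * n := Nat.mul_le_mul_left _ h2
    omega
  · rw [hordP, hPQ, hPM, hPm, hPK]
    have h2 : K ^ 2 ≤ n := by
      have : 1 * K ^ 2 ≤ 1048576 * K ^ 2 := Nat.mul_le_mul_right _ (by norm_num)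
      omega
    have h5 : 16 * K * (2 * (Q * M) + 2 * Q) ≤ n ^ 2 := by
      have e1 : Q ≤ K ^ 2 := by
        calc Q ≤ 129 * K := hQ'
          _ ≤ 512 * K := Nat.mul_le_mul_right _ (by norm_num)
          _ ≤ K ^ 2 := hKK
      have e2 : 2 * (Q * M) + 2 * Q ≤ 8516 * K ^ 2 := by omega
      have e3 : K ≤ K ^ 2 := by
        rw [sq]
        exact Nat.le_mul_of_pos_left _ (by omega)
      calc 16 * K * (2 * (Q * M) + 2 * Q) ≤ 16 * K ^ 2 * (8516 * K ^ 2) :=
            Nat.mul_le_mul (Nat.mul_le_mul_left _ e3) e2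
        _ = (136256 * K ^ 2) * K ^ 2 := by ring
        _ ≤ (1048576 * K ^ 2) * n := Nat.mul_le_mul (Nat.mul_le_mul_right _ (by norm_num)) h2
        _ ≤ n ^ 2 := hn2
    have h6 : (16 * (K : ℤ) * (2 * (Q * M) + 2 * Q)) ≤ (n : ℤ) ^ 2 := by exact_mod_cast h5
    push_cast
    push_cast at hlev
    linarith
  · rw [hordP, hPm, hPK]
    push_cast
    push_cast at hlev
    linarith
  · rw [hordP, hPK]
    have h1 : 2 * (8 * K + 1) ^ 2 + 8 * K + 1 ≤ 200 * K ^ 2 := by nlinarith
    have h2 : 200 * K ^ 2 ≤ 1048576 * K ^ 2 := Nat.mul_le_mul_right _ (by norm_num)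
    omega
  · rw [hordP, hPK, hPQ]
    have h1 : 64 * (K * Q) + 2 ≤ 1048576 * K ^ 2 := by
      have : K * Q ≤ K * (129 * K) := Nat.mul_le_mul_left _ hQ'
      nlinarith
    have h2 : n ≤ n ^ 2 := by
      rw [sq]
      exact Nat.le_mul_of_pos_left _ (by omega)
    omega

end Pool.Agent.H24.Magic
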