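import Pool.Agent.H24.Magic.Semi
import Pool.Agent.H24.Magic.Diag

/-!
Placing the rows so that both diagonals are almost zero-sum.
-/

set_option autoImplicit false

namespace Pool.Agent.H24.Magic

open Finset

/-- Indices of the diagonal lines. -/
abbrev DL (K : ℕ) := (Bool × Bool) × Bool × Fin K

/-- The line of a diagonal index. -/
def dline {K : ℕ} (z : DL K) : Lam K := (Sum.inr z.1, z.2.1, z.2.2)

/-- Low position. -/
def dlow {K : ℕ} (z : DL K) : ℕ :=
  8 + 4 * (4 * z.2.2.val + 2 * (if z.1.2 = true then 1 else 0) + (if z.2.1 = true then 1 else 0))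

lemma dlow_le {K : ℕ} (z : DL K) : dlow z ≤ 16 * K + 4 := by
  have := z.2.2.isLt
  unfold dlow
  split_ifs <;> omega

lemma dlow_inj {K : ℕ} (z z' : DL K) (h1 : z.1.1 = z'.1.1) (h : dlow z = dlow z') : z = z' := by
  obtain ⟨⟨a, s⟩, r, k⟩ := z
  obtain ⟨⟨a', s'⟩, r', k'⟩ := z'
  simp only at h1
  subst h1
  unfold dlow at h
  have hk : k = k' ∧ s = s' ∧ r = r' := by
    cases s <;> cases s' <;> cases r <;> cases r' <;> simp at h ⊢ <;>
      first
      | omega
      | exact Fin.ext (by omega)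
  obtain ⟨rfl, rfl, rfl⟩ := hk
  rfl

/-- Position of the diagonal row `z`. -/
def dpos {P : Par} {N : ℕ} (G : Good P N) (z : DL P.K) : Fin (ordN P N) :=
  ⟨if z.1.1 = true then ordN P N - 1 - dlow z else dlow z, by
    have h1 := dlow_le z
    have h2 := G.hN
    unfold ordN
    split_ifs <;> omega⟩

lemma dpos_val {P : Par} {N : ℕ} (G : Good P N) (z : DL P.K) :
    (dpos G z).val = if z.1.1 = true then ordN P N - 1 - dlow z else dlow z := rfl

lemma dlow_lt {P : Par} {N : ℕ} (G : Good P N) (z : DL P.K) : 2 * dlow z + 50 < ordN P N := by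
  have h1 := dlow_le z
  have h2 := G.hN
  unfold ordN
  omega

lemma dpos_inj {P : Par} {N : ℕ} (G : Good P N) : Function.Injective (dpos G) := by
  intro z z' h
  have h0 := congrArg Fin.val h
  rw [dpos_val, dpos_val] at h0
  have h1 := dlow_lt G z
  have h2 := dlow_lt G z'
  cases h3 : z.1.1 <;> cases h4 : z'.1.1 <;> rw [h3, h4] at h0 <;> simp at h0
  · exact dlow_inj z z' (h3.trans h4.symm) h0
  · omega
  · omega
  · exact dlow_inj z z' (h3.trans h4.symm) (by omega)

/-- Positions of the diagonal rows. -/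
def PD {P : Par} {N : ℕ} (G : Good P N) : Finset (Fin (ordN P N)) := univ.image (dpos G)

lemma card_DL (K : ℕ) : Fintype.card (DL K) = 8 * K := by
  simp
  ring

lemma rev_dpos {P : Par} {N : ℕ} (G : Good P N) (a s r : Bool) (k : Fin P.K) :
    (dpos G ((a, s), r, k)).rev = dpos G ((!a, s), r, k) := by
  apply Fin.ext
  rw [Fin.val_rev, dpos_val, dpos_val]
  have h1 := dlow_lt G ((a, s), r, k)
  have h2 : dlow (((!a, s), r, k) : DL P.K) = dlow (((a, s), r, k) : DL P.K) := rfl
  rw [h2]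
  cases a <;> simp <;> omega

lemma rev_mem_PD {P : Par} {N : ℕ} (G : Good P N) (i : Fin (ordN P N)) :
    i.rev ∈ PD G ↔ i ∈ PD G := by
  have h : ∀ i : Fin (ordN P N), i ∈ PD G → i.rev ∈ PD G := by
    intro i hi
    unfold PD at *
    rw [mem_image] at *
    obtain ⟨⟨⟨a, s⟩, r, k⟩, _, rfl⟩ := hi
    exact ⟨((!a, s), r, k), mem_univ _, (rev_dpos G a s r k).symm⟩
  constructor
  · intro hi
    have := h _ hi
    rwa [Fin.rev_rev] at this
  · exact h i

/-- Movable positions in the lower half. -/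
abbrev MovI {P : Par} {N : ℕ} (G : Good P N) :=
  {i : Fin (ordN P N) // 2 * i.val + 1 < ordN P N ∧ i ∉ PD G}

/-- All movable positions. -/
def movE {P : Par} {N : ℕ} (G : Good P N) : MovI G × Bool ↪ Fin (ordN P N) where
  toFun z := if z.2 = true then z.1.1.rev else z.1.1
  inj' := by
    rintro ⟨⟨i, hi, hi'⟩, a⟩ ⟨⟨j, hj, hj'⟩, b⟩ h
    have h0 := congrArg Fin.val h
    cases a <;> cases b <;> simp at h h0 ⊢
    · exact h
    · omega
    · omega
    · exact h

lemma movE_false {P : Par} {N : ℕ} (G : Good P N) (x : MovI G) : movE G (x, false) = x.1 := rfl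

lemma movE_true {P : Par} {N : ℕ} (G : Good P N) (x : MovI G) :
    movE G (x, true) = x.1.rev := rfl

lemma movE_rev {P : Par} {N : ℕ} (G : Good P N) (z : MovI G × Bool) :
    (movE G z).rev = movE G (z.1, !z.2) := by
  obtain ⟨x, a⟩ := z
  cases a
  · rw [movE_false]
    rfl
  · rw [movE_true, Fin.rev_rev]
    rfl

/-- Movable positions. -/
def Mov {P : Par} {N : ℕ} (G : Good P N) : Finset (Fin (ordN P N)) := univ.map (movE G)

lemma mem_Mov {P : Par} {N : ℕ} (G : Good P N) (i : Fin (ordN P N)) :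
    i ∈ Mov G ↔ i ∉ PD G ∧ 2 * i.val + 1 ≠ ordN P N := by
  unfold Mov
  rw [mem_map]
  constructor
  · rintro ⟨⟨⟨j, hj, hj'⟩, a⟩, _, rfl⟩
    cases a
    · rw [movE_false]
      dsimp only
      exact ⟨hj', by omega⟩
    · rw [movE_true]
      dsimp only
      rw [rev_mem_PD, Fin.val_rev]
      exact ⟨hj', by omega⟩
  · rintro ⟨h1, h2⟩
    rcases Nat.lt_or_ge (2 * i.val + 1) (ordN P N) with h | h
    · exact ⟨(⟨i, h, h1⟩, false), mem_univ _, rfl⟩
    · refine ⟨(⟨i.rev, ?_, ?_⟩, true), mem_univ _, Fin.rev_rev i⟩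
      · rw [Fin.val_rev]
        have := i.isLt
        omega
      · rw [rev_mem_PD]
        exact h1

/-- Fixed positions. -/
def Fix {P : Par} {N : ℕ} (G : Good P N) : Finset (Fin (ordN P N)) :=
  PD G ∪ univ.filter fun i => 2 * i.val + 1 = ordN P N

lemma Fix_disj {P : Par} {N : ℕ} (G : Good P N) :
    Disjoint (PD G) (univ.filter fun i : Fin (ordN P N) => 2 * i.val + 1 = ordN P N) := by
  rw [disjoint_left]
  intro i hi hi'
  rw [mem_filter] at hi'
  unfold PD at hi
  rw [mem_image] at hi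
  obtain ⟨z, _, rfl⟩ := hi
  have h1 := dlow_lt G z
  rw [dpos_val] at hi'
  cases h3 : z.1.1 <;> rw [h3] at hi' <;> simp at hi' <;> omega

lemma card_cen (n : ℕ) : (univ.filter fun i : Fin n => 2 * i.val + 1 = n).card ≤ 1 := by
  rw [card_le_one]
  intro a ha b hb
  rw [mem_filter] at ha hb
  exact Fin.ext (by omega)

lemma card_Fix {P : Par} {N : ℕ} (G : Good P N) : (Fix G).card ≤ 8 * P.K + 1 := by
  unfold Fix
  refine le_trans (card_union_le _ _) ?_
  have h1 : (PD G).card ≤ 8 * P.K := by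
    unfold PD
    refine le_trans card_image_le ?_
    rw [card_univ, card_DL]
  have h2 := card_cen (ordN P N)
  omega

lemma compl_Mov {P : Par} {N : ℕ} (G : Good P N) : (Mov G)ᶜ = Fix G := by
  ext i
  rw [mem_compl, mem_Mov]
  unfold Fix
  rw [mem_union, mem_filter]
  simp only [mem_univ, true_and]
  tauto

lemma sum_split {P : Par} {N : ℕ} (G : Good P N) (f : Fin (ordN P N) → ℤ) :
    ∑ i, f i = ∑ i ∈ Fix G, f i + ∑ z, f (movE G z) := by
  rw [← sum_compl_add_sum (Mov G) f, compl_Mov]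
  congr 1
  unfold Mov
  rw [sum_map]

lemma card_split {P : Par} {N : ℕ} (G : Good P N) :
    2 * Fintype.card (MovI G) + (Fix G).card = ordN P N := by
  have h1 : (Mov G).card + (Mov G)ᶜ.card = Fintype.card (Fin (ordN P N)) :=
    card_add_card_compl _
  rw [compl_Mov, Fintype.card_fin] at h1
  have h2 : (Mov G).card = 2 * Fintype.card (MovI G) := by
    unfold Mov
    rw [card_map, card_univ, Fintype.card_prod, Fintype.card_bool]
    ring
  omega

lemma exists_pi0 {P : Par} {N : ℕ} (G : Good P N) :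
    ∃ π : Fin (ordN P N) ≃ RC P N, ∀ z, π (dpos G z) = Sum.inr (dline z) := by
  classical
  set f : RC P N → Fin (ordN P N) := fun x =>
    match x with
    | Sum.inr (Sum.inr x, r, k) => dpos G (x, r, k)
    | _ => ⟨0, by have := G.lens_ge true; exact lt_of_lt_of_le (by norm_num) this⟩ with hf
  set s : Finset (RC P N) := univ.image (fun z : DL P.K => (Sum.inr (dline z) : RC P N)) with hs
  have hfd : ∀ z : DL P.K, f (Sum.inr (dline z)) = dpos G z := fun z => rfl
  have hcard : Fintype.card (RC P N) = (univ : Finset (Fin (ordN P N))).card := by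
    rw [card_univ]
    exact Fintype.card_congr (eC P N)
  obtain ⟨g, hg⟩ := Finset.exists_equiv_extend_of_card_eq hcard (s := s) (f := f)
    (subset_univ _) (by
      intro x hx y hy hxy
      rw [hs, mem_coe, mem_image] at hx hy
      obtain ⟨z, _, rfl⟩ := hx
      obtain ⟨z', _, rfl⟩ := hy
      rw [hfd, hfd] at hxy
      rw [dpos_inj G hxy])
  refine ⟨(g.trans (Equiv.subtypeUnivEquiv (fun x => mem_univ x))).symm, ?_⟩
  intro z
  rw [Equiv.symm_apply_eq]
  have := hg (Sum.inr (dline z)) (by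
    rw [hs, mem_image]
    exact ⟨z, mem_univ _, rfl⟩)
  rw [hfd] at this
  rw [← this]
  rfl

theorem exists_pi {P : Par} {N : ℕ} (G : Good P N) (A : RC P N → Fin (ordN P N) → ℤ)
    (h B : ℤ) (hA : ∀ x j, |A x j| ≤ h)
    (hrow : ∀ x, ∑ j, A x j = 0) (hcol : ∀ j, ∑ x, A x j = 0)
    (hB1 : |∑ z : DL P.K, A (Sum.inr (dline z)) (dpos G z)| ≤ B)
    (hB2 : |∑ z : DL P.K, A (Sum.inr (dline z)) (dpos G z).rev| ≤ B)
    (hBh : 4 * B ≤ h) :
    ∃ π : Fin (ordN P N) ≃ RC P N, (∀ z, π (dpos G z) = Sum.inr (dline z)) ∧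
      |∑ i, A (π i) i| ≤ 14 * h ∧ |∑ i, A (π i) i.rev| ≤ 14 * h := by
  classical
  obtain ⟨π0, hπ0⟩ := exists_pi0 G
  have hh : 0 ≤ h := by
    have := abs_nonneg (∑ z : DL P.K, A (Sum.inr (dline z)) (dpos G z))
    linarith
  set A' : Fin (ordN P N) → Fin (ordN P N) → ℤ := fun i j => A (π0 i) j with hA'
  have hcol' : ∀ j, ∑ i, A' i j = 0 := by
    intro j
    rw [← hcol j]
    exact Equiv.sum_comp π0 (fun x => A x j)
  have hrow' : ∀ i, ∑ j, A' i j = 0 := fun i => hrow _
  set c0 := ∑ i ∈ Fix G, A' i i with hc0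
  set c1 := ∑ i ∈ Fix G, A' i i.rev with hc1
  obtain ⟨ρ, h1, h2⟩ := diag_balance (fun x y => A' (movE G x) (movE G y)) h c0 c1
    (fun x y => hA _ _) hh
  set T := ∑ x, ∑ y, A' (movE G x) (movE G y) with hT
  set μ : ℤ := (Fintype.card (MovI G) : ℤ) with hμ
  -- the total
  have hT1 : T = ∑ i ∈ Fix G, ∑ j ∈ Fix G, A' i j := by
    have e1 : ∀ x, ∑ y, A' (movE G x) (movE G y) = - ∑ j ∈ Fix G, A' (movE G x) j := by
      intro x
      have := sum_split G (fun j => A' (movE G x) j)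
      rw [hrow'] at this
      linarith
    rw [hT]
    simp only [e1]
    rw [sum_neg_distrib, sum_comm]
    have e2 : ∀ j, ∑ x, A' (movE G x) j = - ∑ i ∈ Fix G, A' i j := by
      intro j
      have := sum_split G (fun i => A' i j)
      rw [hcol'] at this
      linarith
    simp only [e2]
    rw [sum_neg_distrib, neg_neg, sum_comm]
  have hT2 : |T| ≤ ((8 * P.K + 1) ^ 2 : ℕ) * h := by
    rw [hT1]
    have e3 : |∑ i ∈ Fix G, ∑ j ∈ Fix G, A' i j| ≤ ∑ i ∈ Fix G, ∑ j ∈ Fix G, h :=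
      le_trans (abs_sum_le_sum_abs _ _) (sum_le_sum fun i _ =>
        le_trans (abs_sum_le_sum_abs _ _) (sum_le_sum fun j _ => hA _ _))
    refine le_trans e3 ?_
    rw [sum_const, sum_const, nsmul_eq_mul, nsmul_eq_mul, ← mul_assoc]
    apply mul_le_mul_of_nonneg_right _ hh
    have e4 := card_Fix G
    have e5 : (Fix G).card * (Fix G).card ≤ (8 * P.K + 1) ^ 2 := by
      rw [sq]
      exact Nat.mul_le_mul e4 e4
    exact_mod_cast e5
  have hμ1 : (((8 * P.K + 1) ^ 2 : ℕ) : ℤ) ≤ μ := by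
    have e1 := card_split G
    have e2 := card_Fix G
    have e3 := G.hmu
    rw [hμ]
    have : (8 * P.K + 1) ^ 2 ≤ Fintype.card (MovI G) := by omega
    exact_mod_cast this
  have hμ0 : 0 < μ := lt_of_lt_of_le (by positivity) hμ1
  have hT3 : |T| ≤ μ * h := le_trans hT2 (mul_le_mul_of_nonneg_right hμ1 hh)
  -- the fixed part
  have cen : ∀ f : Fin (ordN P N) → ℤ, (∀ i, |f i| ≤ h) →
      |∑ i ∈ univ.filter (fun i : Fin (ordN P N) => 2 * i.val + 1 = ordN P N), f i| ≤ h := by
    intro f hf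
    refine le_trans (abs_sum_le_sum_abs _ _) ?_
    refine le_trans (sum_le_sum fun i _ => hf i) ?_
    rw [sum_const, nsmul_eq_mul]
    have := card_cen (ordN P N)
    have h3 : ((univ.filter (fun i : Fin (ordN P N) => 2 * i.val + 1 = ordN P N)).card : ℤ) ≤ 1 := by
      exact_mod_cast this
    nlinarith
  have hc0b : |c0| ≤ B + h := by
    rw [hc0]
    unfold Fix
    rw [sum_union (Fix_disj G)]
    refine le_trans (abs_add_le _ _) (add_le_add ?_ (cen _ fun i => hA _ _))
    unfold PD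
    rw [sum_image (fun x _ y _ h => dpos_inj G h)]
    simp only [hA', hπ0]
    exact hB1
  have hc1b : |c1| ≤ B + h := by
    rw [hc1]
    unfold Fix
    rw [sum_union (Fix_disj G)]
    refine le_trans (abs_add_le _ _) (add_le_add ?_ (cen _ fun i => hA _ _))
    unfold PD
    rw [sum_image (fun x _ y _ h => dpos_inj G h)]
    simp only [hA', hπ0]
    exact hB2
  -- the permutation
  set ρ' : Equiv.Perm (Fin (ordN P N)) := ρ.viaFintypeEmbedding (movE G) with hρ'
  have hρm : ∀ z, ρ' (movE G z) = movE G (ρ z) := fun z =>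
    Equiv.Perm.viaFintypeEmbedding_apply_image _ _ _
  have hρf : ∀ i ∈ Fix G, ρ' i = i := by
    intro i hi
    apply Equiv.Perm.viaFintypeEmbedding_apply_notMem_range
    rintro ⟨z, rfl⟩
    rw [← compl_Mov, mem_compl] at hi
    apply hi
    unfold Mov
    rw [mem_map]
    exact ⟨z, mem_univ _, rfl⟩
  have hd0 : ∑ i, A ((ρ'.trans π0) i) i =
      c0 + ∑ z, A' (movE G (ρ z)) (movE G z) := by
    rw [sum_split G (fun i => A ((ρ'.trans π0) i) i)]
    refine congrArg₂ (· + ·) (sum_congr rfl fun i hi => ?_) (sum_congr rfl fun z _ => ?_)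
    · rw [Equiv.trans_apply, hρf i hi]
    · rw [Equiv.trans_apply, hρm]
  have hd1 : ∑ i, A ((ρ'.trans π0) i) i.rev =
      c1 + ∑ z : MovI G × Bool, A' (movE G (ρ z)) (movE G (z.1, !z.2)) := by
    rw [sum_split G (fun i => A ((ρ'.trans π0) i) i.rev)]
    refine congrArg₂ (· + ·) (sum_congr rfl fun i hi => ?_) (sum_congr rfl fun z _ => ?_)
    · rw [Equiv.trans_apply, hρf i hi]
    · rw [Equiv.trans_apply, hρm, movE_rev]
  rw [← hd0, ← hd1] at h1 h2
  set d0 := ∑ i, A ((ρ'.trans π0) i) i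
  set d1 := ∑ i, A ((ρ'.trans π0) i) i.rev
  have h3 : |d0 + d1| ≤ |c0 + c1| + 17 * h := by
    apply le_of_mul_le_mul_left _ hμ0
    have : μ * (|c0 + c1| + 17 * h) = μ * (|c0 + c1| + 16 * h) + μ * h := by ring
    rw [this]
    linarith
  have h4 : |c0 + c1| ≤ |c0| + |c1| := abs_add_le _ _
  have h5 : |c0 - c1| ≤ |c0| + |c1| := abs_sub _ _
  have h6 : |d0 + d1| ≤ 19 * h + 2 * B := by linarith
  have h7 : |d0 - d1| ≤ 6 * h + 2 * B := by linarith
  rw [abs_le] at h6 h7
  refine ⟨ρ'.trans π0, ?_, ?_, ?_⟩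
  · intro z
    rw [Equiv.trans_apply, hρf _ ?_, hπ0]
    unfold Fix PD
    exact mem_union_left _ (mem_image_of_mem _ (mem_univ _))
  · rw [abs_le]
    constructor <;> linarith [h6.1, h6.2, h7.1, h7.2]
  · rw [abs_le]
    constructor <;> linarith [h6.1, h6.2, h7.1, h7.2]

end Pool.Agent.H24.Magic
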