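import Mathlib

/-!
Balancing the rows and the columns of a square array by few operations.
-/

set_option autoImplicit false

namespace Pool.Agent.H24.Magic

open Finset

/-- Discrete intermediate value property. -/
lemma ivt_le (g : ℕ → ℤ) (D v : ℤ) (hD : 0 ≤ D) (N : ℕ)
    (hstep : ∀ t < N, |g (t + 1) - g t| ≤ D)
    (h : (g 0 ≤ v ∧ v ≤ g N) ∨ (v ≤ g 0 ∧ g N ≤ v)) :
    ∃ t ≤ N, v - D ≤ g t ∧ g t ≤ v := by
  classical
  rcases h with ⟨h0, hN⟩ | ⟨h0, hN⟩
  · by_cases hN' : g N ≤ v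
    · exact ⟨N, le_rfl, by linarith, hN'⟩
    · have hex : ∃ t, v < g t := ⟨N, not_le.mp hN'⟩
      have ht1 : v < g (Nat.find hex) := Nat.find_spec hex
      have htN : Nat.find hex ≤ N := Nat.find_min' hex (not_le.mp hN')
      have ht0 : Nat.find hex ≠ 0 := by
        intro h
        rw [h] at ht1
        linarith
      obtain ⟨s, hs⟩ := Nat.exists_eq_succ_of_ne_zero ht0
      have hs1 : ¬ v < g s := Nat.find_min hex (by omega)
      have h3 := hstep s (by omega)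
      rw [abs_le] at h3
      rw [hs] at ht1
      refine ⟨s, by omega, ?_, by linarith⟩
      have e : g (s + 1) = g s.succ := rfl
      linarith [h3.2]
  · by_cases h0' : g 0 ≤ v
    · exact ⟨0, Nat.zero_le _, by linarith, h0'⟩
    · have hex : ∃ t, g t ≤ v := ⟨N, hN⟩
      have ht1 : g (Nat.find hex) ≤ v := Nat.find_spec hex
      have htN : Nat.find hex ≤ N := Nat.find_min' hex hN
      have ht0 : Nat.find hex ≠ 0 := by
        intro h
        rw [h] at ht1
        exact h0' ht1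
      obtain ⟨s, hs⟩ := Nat.exists_eq_succ_of_ne_zero ht0
      have hs1 : ¬ g s ≤ v := Nat.find_min hex (by omega)
      have h3 := hstep s (by omega)
      rw [abs_le] at h3
      rw [hs] at ht1
      refine ⟨s + 1, by omega, ?_, ht1⟩
      linarith [h3.1]

/-- Swap the first `t` entries of the rows `i` and `l`. -/
def seg {N : ℕ} (i l : Fin N) (t : ℕ) : Equiv.Perm (Fin N × Fin N) where
  toFun p := if p.2.val < t then (Equiv.swap i l p.1, p.2) else p
  invFun p := if p.2.val < t then (Equiv.swap i l p.1, p.2) else p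
  left_inv := by
    rintro ⟨r, j⟩
    by_cases h : j.val < t <;> simp [h]
  right_inv := by
    rintro ⟨r, j⟩
    by_cases h : j.val < t <;> simp [h]

lemma seg_apply {N : ℕ} (i l : Fin N) (t : ℕ) (r j : Fin N) :
    seg i l t (r, j) = if j.val < t then (Equiv.swap i l r, j) else (r, j) := rfl

lemma seg_snd {N : ℕ} (i l : Fin N) (t : ℕ) (p : Fin N × Fin N) : (seg i l t p).2 = p.2 := by
  obtain ⟨r, j⟩ := p
  rw [seg_apply]
  split_ifs <;> rfl

/-- Row sum. -/
def rs {N : ℕ} (b : Fin N × Fin N → ℤ) (r : Fin N) : ℤ := ∑ j, b (r, j)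

/-- Sum of the first `k` rows. -/
def rp {N : ℕ} (b : Fin N × Fin N → ℤ) (k : ℕ) : ℤ := ∑ r : Fin N with r.val < k, rs b r

/-- Sum of the first `k` columns. -/
def cp {N : ℕ} (b : Fin N × Fin N → ℤ) (k : ℕ) : ℤ :=
  ∑ j : Fin N with j.val < k, ∑ r, b (r, j)

lemma rp_succ {N : ℕ} (b : Fin N × Fin N → ℤ) (i : Fin N) :
    rp b (i.val + 1) = rp b i.val + rs b i := by
  unfold rp
  have : (univ.filter fun r : Fin N => r.val < i.val + 1) =
      insert i (univ.filter fun r : Fin N => r.val < i.val) := by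
    ext r
    simp only [mem_filter, mem_univ, true_and, mem_insert, Fin.ext_iff]
    omega
  rw [this, sum_insert (by simp)]
  ring

lemma rp_add_Ici {N : ℕ} (b : Fin N × Fin N → ℤ) (i : Fin N) :
    rp b i.val + ∑ r ∈ Ici i, rs b r = ∑ p, b p := by
  unfold rp
  rw [Fintype.sum_prod_type]
  have this : (univ.filter fun r : Fin N => r.val < i.val) ∪ Ici i = (univ : Finset (Fin N)) := by
    ext r
    simp only [mem_univ, mem_union, mem_filter, true_and, mem_Ici, iff_true, Fin.le_def]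
    omega
  have e : ∑ x : Fin N, ∑ y, b (x, y) =
      ∑ x ∈ (univ.filter fun r : Fin N => r.val < i.val) ∪ Ici i, rs b x := by
    rw [this]
    rfl
  rw [e, sum_union]
  · rw [disjoint_left]
    intro r hr
    simp only [mem_filter, mem_univ, true_and] at hr
    simp only [mem_Ici, Fin.le_def]
    omega

lemma rs_seg {N : ℕ} (b : Fin N × Fin N → ℤ) (i l : Fin N) (t : ℕ) :
    rs (b ∘ seg i l t) i = ∑ j : Fin N, if j.val < t then b (l, j) else b (i, j) := by
  unfold rs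
  refine sum_congr rfl fun j _ => ?_
  rw [Function.comp_apply, seg_apply]
  split_ifs
  · rw [Equiv.swap_apply_left]
  · rfl

lemma rp_seg {N : ℕ} (b : Fin N × Fin N → ℤ) (i l : Fin N) (hl : i ≤ l) (t k : ℕ)
    (hk : k ≤ i.val) : rp (b ∘ seg i l t) k = rp b k := by
  unfold rp rs
  refine sum_congr rfl fun r hr => sum_congr rfl fun j _ => ?_
  simp only [mem_filter, mem_univ, true_and] at hr
  rw [Function.comp_apply, seg_apply]
  have h1 : r ≠ i := by
    rintro rfl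
    omega
  have h2 : r ≠ l := by
    rintro rfl
    rw [Fin.le_def] at hl
    omega
  rw [Equiv.swap_apply_of_ne_of_ne h1 h2]
  split_ifs <;> rfl

lemma step_nonneg {N : ℕ} (b : Fin N × Fin N → ℤ) (h : ℤ) (hb : ∀ p, |b p| ≤ h)
    (h0 : ∑ p, b p = 0) (i : Fin N) (hR : |rp b i.val| ≤ 2 * h) (hR0 : 0 ≤ rp b i.val) :
    ∃ l : Fin N, i ≤ l ∧ ∃ t ≤ N, |rp (b ∘ seg i l t) (i.val + 1)| ≤ 2 * h := by
  set R := rp b i.val with hRdef
  set m : ℤ := ((N - i.val : ℕ) : ℤ) with hm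
  have hm1 : 1 ≤ m := by
    have := i.isLt
    omega
  have hh : 0 ≤ h := le_trans (abs_nonneg _) (hb (i, i))
  have hsum : ∑ r ∈ Ici i, rs b r = -R := by
    have := rp_add_Ici b i
    rw [h0] at this
    linarith
  have hcard : ((Ici i).card : ℤ) = m := by
    rw [Fin.card_Ici]
  have hne : (Ici i).Nonempty := ⟨i, by simp⟩
  have e1 : ∑ r ∈ Ici i, m * rs b r = m * (-R) := by rw [← mul_sum, hsum]
  have e2 : ∑ r ∈ Ici i, (-R : ℤ) = m * (-R) := by
    rw [sum_const, nsmul_eq_mul, hcard]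
  obtain ⟨l1, hl1, hl1'⟩ := exists_le_of_sum_le hne (le_of_eq (e1.trans e2.symm))
  obtain ⟨l2, hl2, hl2'⟩ := exists_le_of_sum_le hne (le_of_eq (e2.trans e1.symm))
  rw [mem_Ici] at hl1 hl2
  -- the interpolation
  have key : ∀ l : Fin N, ((m * rs b i ≤ -R ∧ -R ≤ m * rs b l) ∨
      (-R ≤ m * rs b i ∧ m * rs b l ≤ -R)) →
      ∃ t ≤ N, -R - m * (2 * h) ≤ m * rs (b ∘ seg i l t) i ∧
        m * rs (b ∘ seg i l t) i ≤ -R := by
    intro l hl
    apply ivt_le (fun t => m * rs (b ∘ seg i l t) i) (m * (2 * h)) (-R) (by positivity) N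
    · intro t ht
      simp only [rs_seg]
      rw [← mul_sub, abs_mul, abs_of_nonneg (by linarith : (0 : ℤ) ≤ m)]
      apply mul_le_mul_of_nonneg_left _ (by linarith)
      rw [← sum_sub_distrib]
      have e3 : ∑ j : Fin N, ((if j.val < t + 1 then b (l, j) else b (i, j)) -
          (if j.val < t then b (l, j) else b (i, j))) =
          b (l, ⟨t, ht⟩) - b (i, ⟨t, ht⟩) := by
        rw [sum_eq_single (⟨t, ht⟩ : Fin N)]
        · simp
        · intro j _ hj
          have hj' : j.val ≠ t := fun h => hj (Fin.ext h)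
          by_cases h1 : j.val < t
          · rw [if_pos h1, if_pos (by omega)]
            ring
          · rw [if_neg h1, if_neg (by omega)]
            ring
        · simp
      rw [e3]
      calc |b (l, ⟨t, ht⟩) - b (i, ⟨t, ht⟩)| ≤ |b (l, ⟨t, ht⟩)| + |b (i, ⟨t, ht⟩)| := abs_sub _ _
        _ ≤ 2 * h := by linarith [hb (l, ⟨t, ht⟩), hb (i, ⟨t, ht⟩)]
    · have a1 : rs (b ∘ seg i l 0) i = rs b i := by
        rw [rs_seg]
        simp [rs]
      have a2 : rs (b ∘ seg i l N) i = rs b l := by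
        rw [rs_seg]
        simp [rs]
      simp only [a1, a2]
      exact hl
  have fin : ∀ l : Fin N, i ≤ l → ∀ t ≤ N, -R - m * (2 * h) ≤ m * rs (b ∘ seg i l t) i →
      m * rs (b ∘ seg i l t) i ≤ -R → |rp (b ∘ seg i l t) (i.val + 1)| ≤ 2 * h := by
    intro l hl t _ h1 h2
    rw [rp_succ, rp_seg b i l hl t i.val le_rfl, ← hRdef]
    rw [abs_le] at hR ⊢
    have h3 : 0 ≤ (m - 1) * R := mul_nonneg (by linarith) hR0
    have h4 : (m - 1) * R ≤ (m - 1) * (2 * h) := mul_le_mul_of_nonneg_left hR.2 (by linarith)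
    constructor
    · apply le_of_mul_le_mul_left _ (by linarith : (0 : ℤ) < m)
      linarith
    · apply le_of_mul_le_mul_left _ (by linarith : (0 : ℤ) < m)
      linarith
  by_cases hc : m * rs b i ≤ -R
  · obtain ⟨t, ht, h1, h2⟩ := key l2 (Or.inl ⟨hc, hl2'⟩)
    exact ⟨l2, hl2, t, ht, fin l2 hl2 t ht h1 h2⟩
  · obtain ⟨t, ht, h1, h2⟩ := key l1 (Or.inr ⟨le_of_lt (not_le.mp hc), hl1'⟩)
    exact ⟨l1, hl1, t, ht, fin l1 hl1 t ht h1 h2⟩

lemma rp_neg {N : ℕ} (b : Fin N × Fin N → ℤ) (k : ℕ) : rp (fun p => - b p) k = - rp b k := by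
  unfold rp rs
  simp [sum_neg_distrib]

lemma step_exists {N : ℕ} (b : Fin N × Fin N → ℤ) (h : ℤ) (hb : ∀ p, |b p| ≤ h)
    (h0 : ∑ p, b p = 0) (i : Fin N) (hR : |rp b i.val| ≤ 2 * h) :
    ∃ l : Fin N, i ≤ l ∧ ∃ t ≤ N, |rp (b ∘ seg i l t) (i.val + 1)| ≤ 2 * h := by
  rcases le_total 0 (rp b i.val) with hR0 | hR0
  · exact step_nonneg b h hb h0 i hR hR0
  · obtain ⟨l, hl, t, ht, h1⟩ := step_nonneg (fun p => - b p) h (fun p => by
      rw [abs_neg]; exact hb p) (by rw [sum_neg_distrib, h0, neg_zero]) i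
      (by rw [rp_neg, abs_neg]; exact hR) (by rw [rp_neg]; linarith)
    refine ⟨l, hl, t, ht, ?_⟩
    have e : (fun p => - b p) ∘ seg i l t = fun p => - (b ∘ seg i l t) p := rfl
    rw [e, rp_neg, abs_neg] at h1
    exact h1

open scoped Pointwise

/-- The elementary operations. -/
noncomputable def ops (N : ℕ) : Finset (Equiv.Perm (Fin N × Fin N)) := by
  classical
  exact (univ ×ˢ univ ×ˢ range (N + 1)).image fun q : Fin N × Fin N × ℕ => seg q.1 q.2.1 q.2.2

lemma card_ops (N : ℕ) : (ops N).card ≤ N * N * (N + 1) := by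
  classical
  unfold ops
  refine le_trans card_image_le ?_
  rw [card_product, card_product, card_range]
  simp only [card_univ, Fintype.card_fin]
  rw [mul_assoc]

lemma seg_mem_ops {N : ℕ} (i l : Fin N) (t : ℕ) (ht : t ≤ N) : seg i l t ∈ ops N := by
  classical
  unfold ops
  rw [mem_image]
  exact ⟨(i, l, t), by simp; omega, rfl⟩

lemma rows_aux {N : ℕ} (b : Fin N × Fin N → ℤ) (h : ℤ) (hb : ∀ p, |b p| ≤ h)
    (h0 : ∑ p, b p = 0) (hh : 0 ≤ h) (k : ℕ) (hk : k ≤ N) :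
    ∃ τ ∈ (ops N) ^ k, (∀ p, (τ p).2 = p.2) ∧ ∀ k' ≤ k, |rp (b ∘ τ) k'| ≤ 2 * h := by
  classical
  induction k with
  | zero =>
    refine ⟨1, by simp, fun p => rfl, ?_⟩
    intro k' hk'
    obtain rfl : k' = 0 := by omega
    have : rp (b ∘ (1 : Equiv.Perm (Fin N × Fin N))) 0 = 0 := by
      unfold rp
      simp
    rw [this]
    simp
    exact hh
  | succ k ih =>
    obtain ⟨τ, hτ, hτ2, hτ3⟩ := ih (by omega)
    have hki : k < N := by omega
    obtain ⟨l, hl, t, ht, h1⟩ := step_exists (b ∘ τ) h (fun p => hb _)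
      (by rw [← h0]; exact Equiv.sum_comp τ b) ⟨k, hki⟩ (hτ3 k le_rfl)
    refine ⟨τ * seg ⟨k, hki⟩ l t, ?_, ?_, ?_⟩
    · rw [pow_succ]
      exact mul_mem_mul hτ (seg_mem_ops _ _ _ ht)
    · intro p
      rw [Equiv.Perm.mul_apply, hτ2, seg_snd]
    · intro k' hk'
      have e : b ∘ (τ * seg ⟨k, hki⟩ l t : Equiv.Perm (Fin N × Fin N)) =
        (b ∘ τ) ∘ seg ⟨k, hki⟩ l t := rfl
      rw [e]
      rcases Nat.lt_or_ge k' (k + 1) with h2 | h2
      · rw [rp_seg _ _ _ hl _ _ (by simp; omega)]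
        exact hτ3 k' (by omega)
      · obtain rfl : k' = k + 1 := by omega
        exact h1

lemma cp_comp {N : ℕ} (b : Fin N × Fin N → ℤ) (τ : Equiv.Perm (Fin N × Fin N))
    (hτ : ∀ p, (τ p).2 = p.2) (k : ℕ) : cp (b ∘ τ) k = cp b k := by
  unfold cp
  have conv : ∀ b : Fin N × Fin N → ℤ, (∑ j : Fin N with j.val < k, ∑ r, b (r, j)) =
      ∑ p : Fin N × Fin N with p.2.val < k, b p := by
    intro b
    rw [sum_filter, sum_filter, Fintype.sum_prod_type_right]
    refine sum_congr rfl fun j _ => ?_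
    split_ifs
    · rfl
    · simp
  rw [conv, conv]
  apply sum_equiv τ
  · intro p
    simp [hτ]
  · intro p _
    rfl

lemma rp_swap {N : ℕ} (b : Fin N × Fin N → ℤ) (k : ℕ) : rp (b ∘ Prod.swap) k = cp b k := rfl

lemma rp_large {N : ℕ} (b : Fin N × Fin N → ℤ) (k : ℕ) (hk : N ≤ k) : rp b k = ∑ p, b p := by
  unfold rp rs
  rw [filter_true_of_mem (fun r _ => by have := r.isLt; omega), Fintype.sum_prod_type]

/-- All operations needed to balance an array. -/
noncomputable def balOps (N : ℕ) : Finset (Equiv.Perm (Fin N × Fin N)) := by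
  classical
  exact (((ops N) ^ N : Finset (Equiv.Perm (Fin N × Fin N))) ×ˢ
    ((ops N) ^ N : Finset (Equiv.Perm (Fin N × Fin N)))).image
    fun q => ((Equiv.prodComm (Fin N) (Fin N)).permCongr q.1) * q.2

lemma card_balOps (N : ℕ) : (balOps N).card ≤ (N * N * (N + 1)) ^ (2 * N) := by
  classical
  unfold balOps
  refine le_trans card_image_le ?_
  rw [card_product, two_mul, pow_add]
  have : ((ops N) ^ N).card ≤ (N * N * (N + 1)) ^ N :=
    le_trans card_pow_le (Nat.pow_le_pow_left (card_ops N) N)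
  exact Nat.mul_le_mul this this

theorem balance {N : ℕ} (b : Fin N × Fin N → ℤ) (h : ℤ) (hh : 0 ≤ h) (hb : ∀ p, |b p| ≤ h)
    (h0 : ∑ p, b p = 0) :
    ∃ τ ∈ balOps N, (∀ k, |rp (b ∘ τ) k| ≤ 2 * h) ∧ ∀ k, |cp (b ∘ τ) k| ≤ 2 * h := by
  classical
  have small : ∀ b : Fin N × Fin N → ℤ, ∑ p, b p = 0 → (∀ k ≤ N, |rp b k| ≤ 2 * h) →
      ∀ k, |rp b k| ≤ 2 * h := by
    intro b hb0 hb1 k
    rcases Nat.lt_or_ge k N with hk | hk
    · exact hb1 k hk.le
    · rw [rp_large b k hk, hb0]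
      simp
      exact hh
  obtain ⟨τ1, hτ1, hτ12, hτ13⟩ := rows_aux (b ∘ Prod.swap) h (fun p => hb _)
    (by rw [← h0]; exact Equiv.sum_comp (Equiv.prodComm (Fin N) (Fin N)) b) hh N le_rfl
  set τ1' : Equiv.Perm (Fin N × Fin N) := (Equiv.prodComm (Fin N) (Fin N)).permCongr τ1 with hτ1'
  have e1 : b ∘ τ1' = ((b ∘ Prod.swap) ∘ τ1) ∘ Prod.swap := rfl
  have hc : ∀ k, |cp (b ∘ τ1') k| ≤ 2 * h := by
    have : ∀ k, |rp ((b ∘ τ1') ∘ Prod.swap) k| ≤ 2 * h := by
      have e2 : (b ∘ τ1') ∘ Prod.swap = (b ∘ Prod.swap) ∘ τ1 := rfl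
      rw [e2]
      apply small _ _ hτ13
      rw [← h0]
      have := Equiv.sum_comp τ1 (b ∘ Prod.swap)
      rw [Function.comp_def, this]
      exact Equiv.sum_comp (Equiv.prodComm (Fin N) (Fin N)) b
    intro k
    exact this k
  have h0' : ∑ p, (b ∘ τ1') p = 0 := by
    rw [← h0]
    exact Equiv.sum_comp τ1' b
  obtain ⟨τ2, hτ2, hτ22, hτ23⟩ := rows_aux (b ∘ τ1') h (fun p => hb _) h0' hh N le_rfl
  refine ⟨τ1' * τ2, ?_, ?_, ?_⟩
  · unfold balOps
    rw [mem_image]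
    exact ⟨(τ1, τ2), mem_product.mpr ⟨hτ1, hτ2⟩, rfl⟩
  · have e : b ∘ (τ1' * τ2 : Equiv.Perm (Fin N × Fin N)) = (b ∘ τ1') ∘ τ2 := rfl
    rw [e]
    apply small _ _ hτ23
    rw [← h0']
    exact Equiv.sum_comp τ2 (b ∘ τ1')
  · intro k
    have e : b ∘ (τ1' * τ2 : Equiv.Perm (Fin N × Fin N)) = (b ∘ τ1') ∘ τ2 := rfl
    rw [e, cp_comp _ _ hτ22]
    exact hc k

end Pool.Agent.H24.Magic
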