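import Pool.Agent.H24.Magic.Arr
import Pool.Agent.H24.Magic.StepA

/-!
All rows and columns can be made zero-sum.
-/

set_option autoImplicit false

namespace Pool.Agent.H24.Magic

open Finset

lemma cp_succ {N : ℕ} (b : Fin N × Fin N → ℤ) (i : Fin N) :
    cp b (i.val + 1) = cp b i.val + ∑ r, b (r, i) := rp_succ (b ∘ Prod.swap) i

lemma cp_large {N : ℕ} (b : Fin N × Fin N → ℤ) (k : ℕ) (hk : N ≤ k) : cp b k = ∑ p, b p := by
  have h1 : rp (b ∘ Prod.swap) k = ∑ p, (b ∘ Prod.swap) p := rp_large (b ∘ Prod.swap) k hk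
  have h2 : ∑ p, (b ∘ Prod.swap) p = ∑ p, b p := Equiv.sum_comp (Equiv.prodComm (Fin N) (Fin N)) b
  rw [← rp_swap, h1, h2]

lemma row_inl (P : Par) (N : ℕ) (b : Fin N × Fin N → ℤ) (σ : Bool → Lam P.K → ℕ → Bool)
    (i : Fin N) : ∑ y, arr P N b σ (Sum.inl i) y =
      rs b i + ∑ c, LF P false N c (σ false c) i.val := by
  rw [Fintype.sum_sum_type]
  rfl

lemma row_inr {P : Par} {N : ℕ} (G : Good P N) (b : Fin N × Fin N → ℤ)
    (σ : Bool → Lam P.K → ℕ → Bool) (c : Lam P.K) :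
    ∑ y, arr P N b σ (Sum.inr c) y = 0 := by
  have h1 : ∑ y, arr P N b σ (Sum.inr c) y =
      ∑ y, (fun j : Fin (ordN P N) => LF P true (ordN P N) c (σ true c) j.val) (eC P N y) := rfl
  rw [h1, Equiv.sum_comp (eC P N) (fun j : Fin (ordN P N) =>
    LF P true (ordN P N) c (σ true c) j.val),
    Fin.sum_univ_eq_sum_range (fun j => LF P true (ordN P N) c (σ true c) j) (ordN P N), sum_LF]
  exact LG_end P true (ordN P N) (le_trans (by norm_num) (G.lens_ge true)) c _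

lemma col_eq (P : Par) (N : ℕ) (b : Fin N × Fin N → ℤ) (σ : Bool → Lam P.K → ℕ → Bool)
    (y : RC P N) : ∑ x, arr P N b σ x y =
      ∑ i : Fin N, arr P N b σ (Sum.inl i) y +
        ∑ c, LF P true (ordN P N) c (σ true c) (eC P N y).val := by
  rw [Fintype.sum_sum_type]
  rfl

lemma zero_sums {P : Par} {N : ℕ} (G : Good P N) (b : Fin N × Fin N → ℤ)
    (hb0 : ∑ p, b p = 0)
    (σ : Bool → Lam P.K → ℕ → Bool)
    (hV : ∀ p ≤ N, rp b p + ∑ c, LG P false N c (σ false c) p = 0)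
    (hH : ∀ p ≤ ordN P N, cp b p + ∑ c, LG P true (ordN P N) c (σ true c) p = 0) :
    (∀ x, ∑ y, arr P N b σ x y = 0) ∧ ∀ y, ∑ x, arr P N b σ x y = 0 := by
  constructor
  · intro x
    rcases x with i | c
    · rw [row_inl]
      have h1 := hV i.val (by omega)
      have h2 := hV (i.val + 1) (by omega)
      rw [rp_succ] at h2
      unfold LF
      rw [sum_sub_distrib]
      linarith
    · exact row_inr G b σ c
  · intro y
    rw [col_eq]
    have h1 := hH (eC P N y).val (eC P N y).isLt.le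
    have h2 := hH ((eC P N y).val + 1) (eC P N y).isLt
    unfold LF
    rw [sum_sub_distrib]
    rcases y with j | c
    · rw [eC_inl] at h1 h2 ⊢
      rw [cp_succ] at h2
      have h3 : ∑ i : Fin N, arr P N b σ (Sum.inl i) (Sum.inl j) = ∑ r, b (r, j) := rfl
      rw [h3]
      linarith
    · rw [eC_inr] at h1 h2 ⊢
      rw [cp_large b _ (by omega)] at h1 h2
      have h3 : ∑ i : Fin N, arr P N b σ (Sum.inl i) (Sum.inr c) = 0 := by
        have h4 : ∑ i : Fin N, arr P N b σ (Sum.inl i) (Sum.inr c) =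
          ∑ i : Fin N, LF P false N c (σ false c) i.val := rfl
        rw [h4, Fin.sum_univ_eq_sum_range (fun j => LF P false N c (σ false c) j) N, sum_LF]
        exact LG_end P false N (le_trans (by norm_num) (G.lens_ge false)) c _
      rw [h3]
      linarith

lemma sum_interior {P : Par} {N : ℕ} (G : Good P N) (b : Fin N × Fin N → ℤ)
    (hb : ∀ p, b p ∈ Wset P N) (hbi : Function.Injective b) : ∑ p, b p = 0 := by
  have himg : univ.image b = Wset P N := by
    apply eq_of_subset_of_card_le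
    · intro x hx
      rw [mem_image] at hx
      obtain ⟨p, _, rfl⟩ := hx
      exact hb p
    · rw [card_Wset G, card_image_of_injective _ hbi, card_univ, Fintype.card_prod,
        Fintype.card_fin]
      exact le_of_eq (sq N)
  rw [← sum_Wset G, ← himg, sum_image (fun x _ y _ h => hbi h)]

lemma even_rs {P : Par} {N : ℕ} (b : Fin N × Fin N → ℤ)
    (hb : ∀ p, b p ∈ Wset P N) (r : Fin N) : (2 : ℤ) ∣ rs b r := by
  have h1 : ∀ j, (2 : ℤ) ∣ b (r, j) + (((ordN P N : ℕ) : ℤ) ^ 2 - 1) := fun j =>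
    ((mem_Dset _ _).mp (mem_sdiff.mp (hb (r, j))).1).2
  have h2 : (2 : ℤ) ∣ ∑ j, (b (r, j) + (((ordN P N : ℕ) : ℤ) ^ 2 - 1)) :=
    dvd_sum fun j _ => h1 j
  rw [sum_add_distrib, sum_const, card_univ, Fintype.card_fin, nsmul_eq_mul] at h2
  have h3 : (2 : ℤ) ∣ (N : ℤ) * (((ordN P N : ℕ) : ℤ) ^ 2 - 1) := by
    rcases Nat.mod_two_eq_zero_or_one N with h | h
    · exact Dvd.dvd.mul_right (by omega) _
    · apply Dvd.dvd.mul_left
      have h4 : (ordN P N) % 2 = 1 := by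
        unfold ordN
        omega
      have h5 : (ordN P N) ^ 2 % 2 = 1 := by rw [Nat.pow_mod, h4]
      have h6 : ((ordN P N : ℕ) : ℤ) ^ 2 = (((ordN P N) ^ 2 : ℕ) : ℤ) := by push_cast; rfl
      rw [h6]
      omega
  unfold rs
  exact (dvd_add_left h3).mp h2

lemma even_rp {P : Par} {N : ℕ} (b : Fin N × Fin N → ℤ)
    (hb : ∀ p, b p ∈ Wset P N) (k : ℕ) : (2 : ℤ) ∣ rp b k := by
  unfold rp
  exact dvd_sum fun r _ => even_rs b hb r

theorem semi {P : Par} {N : ℕ} (G : Good P N) (b : Fin N × Fin N → ℤ)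
    (hb : ∀ p, b p ∈ Wset P N) (hbi : Function.Injective b) :
    ∃ τ ∈ balOps N, ∃ σ : Bool → Lam P.K → ℕ → Bool,
      (∀ x r k, σ true (Sum.inr x, r, k) = fun _ => false) ∧
      (∀ p ≤ N, rp (b ∘ τ) p + ∑ c, LG P false N c (σ false c) p = 0) ∧
      (∀ p ≤ ordN P N, cp (b ∘ τ) p + ∑ c, LG P true (ordN P N) c (σ true c) p = 0) := by
  have hb0 := sum_interior G b hb hbi
  have hn1 : 1 ≤ ordN P N := by
    have := G.lens_ge true
    exact le_trans (by norm_num) this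
  have hh : (0 : ℤ) ≤ (((ordN P N) ^ 2 : ℕ) : ℤ) - 1 := by
    have : 1 ≤ (ordN P N) ^ 2 := Nat.one_le_pow _ _ hn1
    omega
  have hsq : ((ordN P N : ℕ) : ℤ) ^ 2 = (((ordN P N) ^ 2 : ℕ) : ℤ) := by push_cast; rfl
  obtain ⟨τ, hτ, h1, h2⟩ := balance b ((((ordN P N) ^ 2 : ℕ) : ℤ) - 1) hh (fun p => by
    have := ((mem_Dset _ _).mp (mem_sdiff.mp (hb p)).1).1
    rw [hsq] at this
    exact this) hb0
  have hbτ : ∀ p, (b ∘ τ) p ∈ Wset P N := fun p => hb _
  have hbτ0 : ∑ p, (b ∘ τ) p = 0 := by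
    rw [← hb0]
    exact Equiv.sum_comp τ b
  have z1 : rp (b ∘ τ) 0 = 0 := by unfold rp; simp
  have z2 : cp (b ∘ τ) 0 = 0 := by unfold cp; simp
  obtain ⟨σV, _, hV⟩ := absorb P false N (G.lens_ge false) (rp (b ∘ τ)) z1
    (by rw [rp_large _ _ le_rfl, hbτ0]) (even_rp _ hbτ) (2 * (((ordN P N) ^ 2 : ℕ) : ℤ))
    (fun p => by linarith [h1 p]) G.hcap1
  obtain ⟨σH, hH0, hH⟩ := absorb P true (ordN P N) (G.lens_ge true) (cp (b ∘ τ)) z2
    (by rw [cp_large _ _ (by unfold ordN; omega), hbτ0])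
    (fun p => by
      rw [← rp_swap]
      exact even_rp _ (fun z => hbτ z.swap) p) (2 * (((ordN P N) ^ 2 : ℕ) : ℤ))
    (fun p => by linarith [h2 p]) G.hcap1
  refine ⟨τ, hτ, fun v => if v = true then σH else σV, ?_, ?_, ?_⟩
  · intro x r k
    simp only [if_true]
    exact hH0 x r k
  · simpa using hV
  · simpa using hH

/-- Changing the states of the diagonal lines. -/
def flipD {K : ℕ} (σ : Lam K → ℕ → Bool) (T : Bool × Bool → Fin K → ℕ → Bool) :
    Lam K → ℕ → Bool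
  | (Sum.inl φ, r, k) => σ (Sum.inl φ, r, k)
  | (Sum.inr x, _, k) => T x k

lemma flipD_sum (P : Par) (l : ℕ) (σ : Lam P.K → ℕ → Bool)
    (h0 : ∀ x r k, σ (Sum.inr x, r, k) = fun _ => false)
    (T : Bool × Bool → Fin P.K → ℕ → Bool) (p : ℕ) :
    ∑ c, LG P true l c (flipD σ T c) p = ∑ c, LG P true l c (σ c) p := by
  rw [sum_Lam, sum_Lam, Fintype.sum_sum_type, Fintype.sum_sum_type]
  congr 1
  refine sum_congr rfl fun x _ => sum_congr rfl fun k _ => ?_
  rw [h0, h0]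
  have e1 : flipD σ T (Sum.inr x, true, k) = T x k := rfl
  have e2 : flipD σ T (Sum.inr x, false, k) = T x k := rfl
  rw [e1, e2, LG_state P true l _ (T x k) p, LG_state P true l _ (T x k) p]
  have e3 : sgnL ((Sum.inr x, true, k) : Lam P.K) = !(sgnL ((Sum.inr x, false, k) : Lam P.K)) := by
    unfold sgnL
    cases s0 (Sum.inr x) <;> rfl
  rw [e3, sg_not]
  dsimp only
  split_ifs <;> ring

end Pool.Agent.H24.Magic
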